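import Pool.Agent.H160R2.CV.Vol

/-!
Counting `*`-connected sets of blocks.
-/

set_option autoImplicit false

namespace Pool.Agent.N952.CS
open Finset H974 Pool.Agent.H160R2.CV

/-- neighbourhood of a finite set of sites -/
noncomputable def Nb (B : Finset Vtx) : Finset Vtx :=
  B.biUnion fun j => (bx 1).image fun v => v + j

theorem mem_Nb {B : Finset Vtx} {b : Vtx} : b ∈ Nb B ↔ ∃ j ∈ B, nv (b - j) ≤ 1 := by
  rw [Nb, Finset.mem_biUnion]
  refine exists_congr fun j => and_congr_right fun _ => ?_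
  rw [Finset.mem_image]
  constructor
  · rintro ⟨v, hv, rfl⟩
    rw [add_sub_cancel_right]
    exact VolAux.mem_bx.1 hv
  · intro h
    exact ⟨b - j, VolAux.mem_bx.2 h, sub_add_cancel _ _⟩

theorem nv_zero : nv (0 : Vtx) = 0 := by simp [nv]

theorem subset_Nb (B : Finset Vtx) : B ⊆ Nb B := by
  intro j hj
  rw [mem_Nb]
  exact ⟨j, hj, by rw [sub_self, nv_zero]; exact Nat.zero_le _⟩

theorem card_bx' (n : ℕ) : (bx n).card = (2 * n + 1) ^ 2 := by
  unfold bx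
  rw [Finset.card_product, Int.card_Icc]
  have : ((n : ℤ) + 1 - -(n : ℤ)).toNat = 2 * n + 1 := by omega
  rw [this]
  ring

theorem card_Nb_le (B : Finset Vtx) : (Nb B).card ≤ 9 * B.card := by
  rw [mul_comm]
  refine Finset.card_biUnion_le_card_mul _ _ _ fun j _ => ?_
  refine Finset.card_image_le.trans ?_
  rw [card_bx']
  norm_num

/-- `*`-connected finite sets of blocks which contain the origin -/
def Anim (Γ : Finset Vtx) : Prop := (0, 0) ∈ Γ ∧ ∀ j ∈ Γ,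
  Relation.ReflTransGen (fun a b : Vtx => b ∈ Γ ∧ nv (a - b) ≤ 1) (0, 0) j

theorem determined {B B' X : Finset Vtx} (hU : ((0, 0) : Vtx) ∈ B')
    (hB : ∀ j ∈ B, Relation.ReflTransGen (fun a b : Vtx => b ∈ B ∧ nv (a - b) ≤ 1) (0, 0) j)
    (hX : X ∩ Nb B = B) (hX' : X ∩ Nb B' = B') : B ⊆ B' := by
  intro j hj
  have hpath := hB j hj
  clear hj
  induction hpath with
  | refl => exact hU
  | @tail a b _ hab ih =>
    obtain ⟨hb, hn⟩ := hab
    rw [← hX', Finset.mem_inter]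
    refine ⟨?_, ?_⟩
    · rw [← hX] at hb
      exact (Finset.mem_inter.1 hb).1
    · rw [mem_Nb]
      exact ⟨_, ih, by rw [VolAux.nv_comm]; exact hn⟩

theorem card_anim (m : ℕ) (𝓕 : Finset (Finset Vtx)) (h𝓕 : ∀ B ∈ 𝓕, B.card = m ∧ Anim B) :
    𝓕.card ≤ 2 ^ (9 * m) := by
  classical
  set Ω : Finset Vtx := 𝓕.biUnion Nb with hΩ
  have hNΩ : ∀ B ∈ 𝓕, Nb B ⊆ Ω := fun B hB => Finset.subset_biUnion_of_mem Nb hB
  have hXB : ∀ B ∈ 𝓕, ∀ Y ⊆ Ω \ Nb B, (B ∪ Y) ∩ Nb B = B := by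
    intro B _ Y hY
    rw [Finset.union_inter_distrib_right, Finset.inter_eq_left.2 (subset_Nb B)]
    have : Y ∩ Nb B = ∅ := by
      rw [← Finset.disjoint_iff_inter_eq_empty]
      exact Finset.disjoint_of_subset_left hY Finset.sdiff_disjoint
    rw [this, Finset.union_empty]
  have hcard : (𝓕.sigma fun B => (Ω \ Nb B).powerset).card ≤ Ω.powerset.card := by
    refine Finset.card_le_card_of_injOn (fun p => p.1 ∪ p.2) ?_ ?_
    · rintro ⟨B, Y⟩ hp
      rw [Finset.mem_coe, Finset.mem_sigma, Finset.mem_powerset] at hp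
      rw [Finset.mem_coe, Finset.mem_powerset]
      exact Finset.union_subset ((subset_Nb B).trans (hNΩ B hp.1))
        (hp.2.trans Finset.sdiff_subset)
    · rintro ⟨B, Y⟩ hp ⟨B', Y'⟩ hp' heq
      rw [Finset.mem_coe, Finset.mem_sigma, Finset.mem_powerset] at hp hp'
      have heq' : B ∪ Y = B' ∪ Y' := heq
      have h1 := hXB B hp.1 Y hp.2
      have h2 := hXB B' hp'.1 Y' hp'.2
      have h2' := h2
      rw [← heq'] at h2'
      have h1' := h1
      rw [heq'] at h1'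
      have hBB : B = B' := Finset.Subset.antisymm
        (determined (h𝓕 B' hp'.1).2.1 (h𝓕 B hp.1).2.2 h1 h2')
        (determined (h𝓕 B hp.1).2.1 (h𝓕 B' hp'.1).2.2 h2 h1')
      subst hBB
      have hY : ∀ Z ⊆ Ω \ Nb B, (B ∪ Z) \ Nb B = Z := by
        intro Z hZ
        rw [Finset.union_sdiff_distrib, Finset.sdiff_eq_empty_iff_subset.2 (subset_Nb B),
          Finset.empty_union]
        exact Finset.sdiff_eq_self_of_disjoint
          (Finset.disjoint_of_subset_left hZ Finset.sdiff_disjoint)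
      have h3 : Y = Y' := by
        rw [← hY Y hp.2, ← hY Y' hp'.2, heq']
      subst h3
      rfl
  rw [Finset.card_sigma, Finset.card_powerset] at hcard
  have hB : ∀ B ∈ 𝓕, 2 ^ Ω.card ≤ 2 ^ (9 * m) * (Ω \ Nb B).powerset.card := by
    intro B hB
    rw [Finset.card_powerset, Finset.card_sdiff_of_subset (hNΩ B hB), ← pow_add]
    apply Nat.pow_le_pow_right (by norm_num)
    have h1 := card_Nb_le B
    rw [(h𝓕 B hB).1] at h1
    omega
  have hsum : 𝓕.card * 2 ^ Ω.card ≤ 2 ^ (9 * m) * 2 ^ Ω.card := by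
    calc 𝓕.card * 2 ^ Ω.card = ∑ _B ∈ 𝓕, 2 ^ Ω.card := by rw [Finset.sum_const, smul_eq_mul]
      _ ≤ ∑ B ∈ 𝓕, 2 ^ (9 * m) * (Ω \ Nb B).powerset.card := Finset.sum_le_sum hB
      _ = 2 ^ (9 * m) * ∑ B ∈ 𝓕, (Ω \ Nb B).powerset.card := by rw [Finset.mul_sum]
      _ ≤ _ := Nat.mul_le_mul_left _ hcard
  exact Nat.le_of_mul_le_mul_right hsum (by positivity)

/-- the sum over the animals -/
theorem sum_anim {w : ℝ} (hw0 : 0 ≤ w) (hw : 2 ^ 9 * w ≤ 1 / 2) (𝓕 : Finset (Finset Vtx))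
    (h𝓕 : ∀ B ∈ 𝓕, Anim B) : ∑ B ∈ 𝓕, w ^ B.card ≤ 2 := by
  classical
  obtain ⟨M, hM⟩ : ∃ M : ℕ, ∀ B ∈ 𝓕, B.card < M := by
    refine ⟨𝓕.sup (fun B => B.card) + 1, fun B hB => ?_⟩
    exact Nat.lt_succ_of_le (Finset.le_sup (f := fun B => B.card) hB)
  have h1 : ∑ B ∈ 𝓕, w ^ B.card = ∑ m ∈ range M, ∑ B ∈ 𝓕.filter (fun B => B.card = m),
      w ^ B.card := (Finset.sum_fiberwise_of_maps_to (fun B hB => mem_range.2 (hM B hB)) _).symm
  rw [h1]
  have h2 : ∀ m ∈ range M, ∑ B ∈ 𝓕.filter (fun B => B.card = m), w ^ B.card ≤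
      (1 / 2 : ℝ) ^ m := by
    intro m _
    have h3 : ∑ B ∈ 𝓕.filter (fun B => B.card = m), w ^ B.card =
        ((𝓕.filter (fun B => B.card = m)).card : ℝ) * w ^ m := by
      have h6 : ∀ B ∈ 𝓕.filter (fun B => B.card = m), w ^ B.card = w ^ m := fun B hB => by
        rw [(mem_filter.1 hB).2]
      rw [Finset.sum_congr rfl h6, Finset.sum_const, nsmul_eq_mul]
    rw [h3]
    have h4 : (𝓕.filter (fun B => B.card = m)).card ≤ 2 ^ (9 * m) :=
      card_anim m _ fun B hB => ⟨(mem_filter.1 hB).2, h𝓕 B (mem_filter.1 hB).1⟩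
    have h5 : ((𝓕.filter (fun B => B.card = m)).card : ℝ) ≤ 2 ^ (9 * m) := by exact_mod_cast h4
    calc ((𝓕.filter (fun B => B.card = m)).card : ℝ) * w ^ m ≤ 2 ^ (9 * m) * w ^ m :=
          mul_le_mul_of_nonneg_right h5 (by positivity)
      _ = (2 ^ 9 * w) ^ m := by rw [mul_pow, pow_mul]
      _ ≤ _ := pow_le_pow_left₀ (by positivity) hw m
  calc ∑ m ∈ range M, ∑ B ∈ 𝓕.filter (fun B => B.card = m), w ^ B.card
      ≤ ∑ m ∈ range M, (1 / 2 : ℝ) ^ m := Finset.sum_le_sum h2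
    _ ≤ ∑' m : ℕ, (1 / 2 : ℝ) ^ m :=
        (summable_geometric_two).sum_le_tsum _ (fun _ _ => by positivity)
    _ = 2 := tsum_geometric_two

end Pool.Agent.N952.CS
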