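import Pool.Agent.N952.CS.Geo

/-!
Large clusters of small diameter.
-/

set_option autoImplicit false

namespace Pool.Agent.N952.CS
open Finset H974 Pool.Agent.H160R2.CV Pool.Agent.H160R2.CV.Quad Pool.Agent.Y244.PC

theorem exists_step {Q : ℕ → Prop} {I : ℕ} (h0 : Q 0) (hI : ¬ Q I) :
    ∃ i < I, Q i ∧ ¬ Q (i + 1) := by
  by_contra hc
  push Not at hc
  have : ∀ i ≤ I, Q i := by
    intro i
    induction i with
    | zero => intro _; exact h0
    | succ i ih => intro hi; exact hc i (by omega) (ih (by omega))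
  exact hI (this I (le_refl _))

theorem Far_anti {F : Finset Edg} {v : Vtx} {m r : ℕ} (h : m ≤ r) (hF : Far v r F) : Far v m F := by
  obtain ⟨u, hu, hr⟩ := hF
  exact ⟨u, h.trans hu, hr⟩

theorem sub_zero' (u : Vtx) : u - (0, 0) = u := sub_zero u

theorem far_one {F : Finset Edg} {a : ℝ} (ha : 1 < a) (hV : VolAt a (0, 0) F) :
    Far (0, 0) 1 F := by
  obtain ⟨T, hT, hr⟩ := hV
  have h1 : 1 < T.card := by
    have : (1 : ℝ) < T.card := lt_of_lt_of_le ha hT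
    exact_mod_cast this
  obtain ⟨u, hu, hne⟩ := Finset.exists_mem_ne h1 (0, 0)
  refine ⟨u, ?_, hr u hu⟩
  rw [sub_zero']
  by_contra h2
  exact hne (nv_eq_zero (by omega))

/-- one scale -/
theorem one_scale {F : Finset Edg} {a : ℝ} {k : ℕ} (hk : Far (0, 0) k F)
    (hk2 : ¬ Far (0, 0) (2 * k) F) (hV : VolAt a (0, 0) F) :
    a ≤ YY (k / 2) (bx (2 * k)) F ∧ LA (0, 0) (k / 2) F := by
  obtain ⟨T, hT, hr⟩ := hV
  refine ⟨hT.trans ?_, LA_of_far (by omega) hk⟩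
  obtain ⟨v, hv, hrv⟩ := hk
  rw [sub_zero'] at hv
  have h1 : ∀ u ∈ T, nv u < 2 * k := by
    intro u hu
    by_contra h2
    exact hk2 ⟨u, by rw [sub_zero']; omega, hr u hu⟩
  have h2 : ∀ u ∈ T, LA u (k / 2) F := by
    intro u hu
    rcases Nat.lt_or_ge (nv u) (k / 2) with h3 | h3
    · have h4 := nv_tri v u 0
      rw [sub_zero, sub_zero] at h4
      exact LA_of_reach (u := v) (by omega) ((hr u hu).symm.trans hrv)
    · have h4 : nv (0 - u) = nv u := by rw [nvc, sub_zero]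
      exact LA_of_reach (u := 0) (by omega) (hr u hu).symm
  calc (T.card : ℝ) = ∑ u ∈ T, ind (LA u (k / 2) F) := by
        rw [Finset.sum_congr rfl (fun u hu => ind_of (h2 u hu))]
        simp
    _ ≤ _ := by
        apply Finset.sum_le_sum_of_subset_of_nonneg
        · intro u hu
          exact VolAux.mem_bx.2 (h1 u hu).le
        · intro _ _ _
          exact ind_nonneg _

theorem DD_small {A : ℝ} (hA : 1 ≤ A) (k : ℕ) :
    DD (2 * A) (k / 2) (bx (2 * k)) ≤ 1200 * A * (((k / 2 : ℕ) : ℝ) + 1) ^ (91 / 48 : ℝ) := by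
  unfold DD
  rw [card_bx']
  obtain ⟨m, hm⟩ : ∃ m : ℝ, m = ((k / 2 : ℕ) : ℝ) + 1 := ⟨_, rfl⟩
  have hm1 : 1 ≤ m := by
    rw [hm]
    have : (0 : ℝ) ≤ ((k / 2 : ℕ) : ℝ) := by positivity
    linarith
  have hk : ((2 * (2 * k) + 1 : ℕ) : ℝ) ≤ 8 * m := by
    rw [hm]
    have : 2 * (2 * k) + 1 ≤ 8 * (k / 2 + 1) := by omega
    have h2 : ((2 * (2 * k) + 1 : ℕ) : ℝ) ≤ ((8 * (k / 2 + 1) : ℕ) : ℝ) := by exact_mod_cast this
    rw [Nat.cast_mul, Nat.cast_add] at h2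
    simpa using h2
  rw [← hm, Nat.cast_pow]
  have h0 : (0 : ℝ) ≤ ((2 * (2 * k) + 1 : ℕ) : ℝ) := by positivity
  have h1 : ((2 * (2 * k) + 1 : ℕ) : ℝ) ^ 2 ≤ 64 * m ^ 2 := by nlinarith
  have h2 : m ^ 2 * m ^ (-(5 / 48) : ℝ) = m ^ (91 / 48 : ℝ) := by
    rw [← Real.rpow_natCast m 2, ← Real.rpow_add (by linarith)]
    norm_num
  have h3 : (0 : ℝ) < m ^ (-(5 / 48) : ℝ) := by positivity
  have h4 : ((2 * (2 * k) + 1 : ℕ) : ℝ) ^ 2 * m ^ (-(5 / 48) : ℝ) ≤ 64 * m ^ (91 / 48 : ℝ) := by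
    calc _ ≤ 64 * m ^ 2 * m ^ (-(5 / 48) : ℝ) := mul_le_mul_of_nonneg_right h1 h3.le
      _ = _ := by rw [mul_assoc, h2]
  have h5 : (0 : ℝ) < m ^ (91 / 48 : ℝ) := by positivity
  have h6 : 0 ≤ A * m ^ (91 / 48 : ℝ) := by positivity
  nlinarith

theorem exp_neg_le_inv {u : ℝ} (hu : 0 < u) : Real.exp (-u) ≤ 1 / u := by
  rw [Real.exp_neg, ← one_div]
  apply one_div_le_one_div_of_le hu
  linarith [Real.add_one_le_exp u]

/-- probability at one scale -/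
theorem scale_prob {q A : ℝ} (h0 : 0 ≤ q) (h1 : q ≤ 1) {k K : ℕ} (hK : 1 ≤ K) (hkK : k < K)
    (hAB : AB q A K) (S : Finset Edg) {a : ℝ} (ha : 0 < a) :
    Pr (fun _ => q) S (fun F => a ≤ YY (k / 2) (bx (2 * k)) F ∧ LA (0, 0) (k / 2) F) ≤
      40000 * A ^ 2 * (K : ℝ) ^ (-(5 / 48) : ℝ) * ((K : ℝ) ^ (91 / 48 : ℝ) / a) *
        Real.exp (-(a / (4800 * A * (K : ℝ) ^ (91 / 48 : ℝ)))) *
          ((((k / 2 : ℕ) : ℝ) + 1) / K) := by
  have ok := okq h0 h1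
  have hA := AB_one_le hAB
  have hAB' : AB q A (k / 2) := fun m hm => hAB m (by omega)
  obtain ⟨m, hm⟩ : ∃ m : ℝ, m = ((k / 2 : ℕ) : ℝ) + 1 := ⟨_, rfl⟩
  have hK0 : (0 : ℝ) < K := by exact_mod_cast hK
  have hm1 : 1 ≤ m := by
    rw [hm]
    have : (0 : ℝ) ≤ ((k / 2 : ℕ) : ℝ) := by positivity
    linarith
  have hm0 : 0 < m := by linarith
  have hmK : m ≤ K := by
    rw [hm]
    have : k / 2 + 1 ≤ K := by omega
    exact_mod_cast this
  have hD := DD_small hA k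
  have hDpos : 0 < DD (2 * A) (k / 2) (bx (2 * k)) := DD_pos (by linarith) _ _
  rw [← hm] at hD ⊢
  obtain ⟨l, hl⟩ : ∃ l : ℝ, l = 1 / (2400 * A * m ^ (91 / 48 : ℝ)) := ⟨_, rfl⟩
  have hms : 0 < m ^ (91 / 48 : ℝ) := by positivity
  have hKs : 0 < (K : ℝ) ^ (91 / 48 : ℝ) := by positivity
  have hl0 : 0 < l := by rw [hl]; positivity
  have hl1 : l * DD (2 * A) (k / 2) (bx (2 * k)) ≤ 1 / 2 := by
    calc l * DD (2 * A) (k / 2) (bx (2 * k)) ≤ l * (1200 * A * m ^ (91 / 48 : ℝ)) :=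
          mul_le_mul_of_nonneg_left hD hl0.le
      _ = 1 / 2 := by rw [hl]; field_simp; norm_num
  have h2 := exp_moment_arm h0 h1 hAB' (bx (2 * k)) S (0, 0) hl0.le hl1
  have h3 : Pr (fun _ => q) S (fun F => a ≤ YY (k / 2) (bx (2 * k)) F ∧ LA (0, 0) (k / 2) F) ≤
      Real.exp (-(l * a)) * (4 * gg (2 * A) (k / 2)) := by
    refine le_trans ?_ (mul_le_mul_of_nonneg_left h2 (Real.exp_pos _).le)
    unfold Pr
    rw [← Ex_mul_left]
    apply Ex_mono ok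
    intro F _
    rw [ind_and, ← mul_assoc, ← Real.exp_add]
    apply mul_le_mul_of_nonneg_right _ (ind_nonneg _)
    by_cases h : a ≤ YY (k / 2) (bx (2 * k)) F
    · rw [ind_of h]
      apply Real.one_le_exp
      nlinarith
    · rw [ind_not_of h]
      positivity
  refine h3.trans ?_
  unfold gg
  rw [← hm]
  -- the exponential
  have hmKs : m ^ (91 / 48 : ℝ) ≤ (K : ℝ) ^ (91 / 48 : ℝ) :=
    Real.rpow_le_rpow hm0.le hmK (by norm_num)
  have h4 : Real.exp (-(l * a)) ≤ Real.exp (-(a / (4800 * A * (K : ℝ) ^ (91 / 48 : ℝ)))) *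
      (4800 * A * m ^ (91 / 48 : ℝ) / a) := by
    have e1 : Real.exp (-(l * a)) = Real.exp (-(l * a / 2)) * Real.exp (-(l * a / 2)) := by
      rw [← Real.exp_add]; congr 1; ring
    have e2 : l * a / 2 = a / (4800 * A * m ^ (91 / 48 : ℝ)) := by
      rw [hl]; field_simp; norm_num
    rw [e1]
    apply mul_le_mul _ _ (Real.exp_pos _).le (Real.exp_pos _).le
    · apply Real.exp_le_exp.2
      rw [neg_le_neg_iff, e2]
      apply div_le_div_of_nonneg_left ha.le (by positivity)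
      apply mul_le_mul_of_nonneg_left hmKs (by positivity)
    · refine (exp_neg_le_inv (by positivity)).trans (le_of_eq ?_)
      rw [e2]
      field_simp
  -- powers
  have h5 : m ^ (91 / 48 : ℝ) * m ^ (-(5 / 48) : ℝ) ≤
      (K : ℝ) ^ (-(5 / 48) : ℝ) * (K : ℝ) ^ (91 / 48 : ℝ) * (m / K) := by
    have e1 : m ^ (91 / 48 : ℝ) * m ^ (-(5 / 48) : ℝ) = m ^ (38 / 48 : ℝ) * m := by
      rw [← Real.rpow_add hm0]
      nth_rewrite 3 [← Real.rpow_one m]
      rw [← Real.rpow_add hm0]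
      norm_num
    have e2 : (K : ℝ) ^ (-(5 / 48) : ℝ) * (K : ℝ) ^ (91 / 48 : ℝ) = (K : ℝ) ^ (38 / 48 : ℝ) * K := by
      rw [← Real.rpow_add hK0]
      nth_rewrite 3 [← Real.rpow_one (K : ℝ)]
      rw [← Real.rpow_add hK0]
      norm_num
    rw [e1, e2]
    have e3 : (K : ℝ) ^ (38 / 48 : ℝ) * K * (m / K) = (K : ℝ) ^ (38 / 48 : ℝ) * m := by
      field_simp
    rw [e3]
    exact mul_le_mul_of_nonneg_right (Real.rpow_le_rpow hm0.le hmK (by norm_num)) hm0.le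
  obtain ⟨X, hX⟩ : ∃ X, X = Real.exp (-(a / (4800 * A * (K : ℝ) ^ (91 / 48 : ℝ)))) := ⟨_, rfl⟩
  rw [← hX] at h4 ⊢
  have hX0 : 0 < X := by rw [hX]; exact Real.exp_pos _
  have hm5 : 0 < m ^ (-(5 / 48) : ℝ) := by positivity
  calc Real.exp (-(l * a)) * (4 * (2 * A * m ^ (-(5 / 48) : ℝ)))
      ≤ (X * (4800 * A * m ^ (91 / 48 : ℝ) / a)) * (4 * (2 * A * m ^ (-(5 / 48) : ℝ))) :=
        mul_le_mul_of_nonneg_right h4 (by positivity)
    _ = 38400 * A ^ 2 * X / a * (m ^ (91 / 48 : ℝ) * m ^ (-(5 / 48) : ℝ)) := by ring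
    _ ≤ 38400 * A ^ 2 * X / a *
        ((K : ℝ) ^ (-(5 / 48) : ℝ) * (K : ℝ) ^ (91 / 48 : ℝ) * (m / K)) :=
        mul_le_mul_of_nonneg_left h5 (by positivity)
    _ ≤ 40000 * A ^ 2 * X / a *
        ((K : ℝ) ^ (-(5 / 48) : ℝ) * (K : ℝ) ^ (91 / 48 : ℝ) * (m / K)) := by
        apply mul_le_mul_of_nonneg_right _ (by positivity)
        apply div_le_div_of_nonneg_right _ ha.le
        apply mul_le_mul_of_nonneg_right _ hX0.le
        nlinarith [sq_nonneg A]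
    _ = _ := by ring

/-- large clusters of small diameter -/
theorem dyad {q A : ℝ} (h0 : 0 ≤ q) (h1 : q ≤ 1) {K : ℕ} (hK : 1 ≤ K)
    (hAB : AB q A K) (S : Finset Edg) {a : ℝ} (ha : 1 < a) :
    Pr (fun _ => q) S (fun F => VolAt a (0, 0) F ∧ ¬ Far (0, 0) K F) ≤
      80000 * A ^ 2 * (K : ℝ) ^ (-(5 / 48) : ℝ) * ((K : ℝ) ^ (91 / 48 : ℝ) / a) *
        Real.exp (-(a / (4800 * A * (K : ℝ) ^ (91 / 48 : ℝ)))) := by
  have ok := okq h0 h1
  have hA := AB_one_le hAB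
  have hK0 : (0 : ℝ) < K := by exact_mod_cast hK
  obtain ⟨I, hI1, hI2⟩ : ∃ I : ℕ, K ≤ 2 ^ I ∧ ∀ i < I, 2 ^ i < K :=
    ⟨Nat.clog 2 K, Nat.le_pow_clog (by norm_num) K, fun i hi => by
      by_contra hc
      have := Nat.clog_le_of_le_pow (b := 2) (not_lt.1 hc)
      omega⟩
  obtain ⟨W, hW⟩ : ∃ W : ℝ, W = 40000 * A ^ 2 * (K : ℝ) ^ (-(5 / 48) : ℝ) *
      ((K : ℝ) ^ (91 / 48 : ℝ) / a) *
        Real.exp (-(a / (4800 * A * (K : ℝ) ^ (91 / 48 : ℝ)))) := ⟨_, rfl⟩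
  have hW0 : 0 ≤ W := by rw [hW]; positivity
  calc Pr (fun _ => q) S (fun F => VolAt a (0, 0) F ∧ ¬ Far (0, 0) K F)
      ≤ Pr (fun _ => q) S (fun F => ∃ i ∈ range I,
          a ≤ YY (2 ^ i / 2) (bx (2 * 2 ^ i)) F ∧ LA (0, 0) (2 ^ i / 2) F) := by
        apply Pr_mono ok
        rintro F _ ⟨hV, hF⟩
        obtain ⟨i, hi, h2, h3⟩ := exists_step (Q := fun i => Far (0, 0) (2 ^ i) F) (I := I)
          (by rw [pow_zero]; exact far_one ha hV) (fun h => hF (Far_anti hI1 h))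
        rw [pow_succ, mul_comm] at h3
        exact ⟨i, mem_range.2 hi, one_scale h2 h3 hV⟩
    _ ≤ ∑ i ∈ range I, Pr (fun _ => q) S (fun F =>
          a ≤ YY (2 ^ i / 2) (bx (2 * 2 ^ i)) F ∧ LA (0, 0) (2 ^ i / 2) F) :=
        Pr_exists_le ok S _ _
    _ ≤ ∑ i ∈ range I, W * ((2 : ℝ) ^ i / K) := by
        apply Finset.sum_le_sum
        intro i hi
        rw [mem_range] at hi
        refine (scale_prob h0 h1 hK (hI2 i hi) hAB S (by linarith)).trans ?_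
        rw [← hW]
        apply mul_le_mul_of_nonneg_left _ hW0
        apply div_le_div_of_nonneg_right _ hK0.le
        have : 2 ^ i / 2 + 1 ≤ 2 ^ i := by
          have h3 : 1 ≤ 2 ^ i := Nat.one_le_two_pow
          rcases Nat.lt_or_ge (2 ^ i) 2 with h4 | h4
          · have h5 : 2 ^ i = 1 := by omega
            rw [h5]
          · omega
        exact_mod_cast this
    _ = W * ((∑ i ∈ range I, (2 : ℝ) ^ i) / K) := by
        rw [← Finset.mul_sum, ← Finset.sum_div]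
    _ ≤ W * 2 := by
        apply mul_le_mul_of_nonneg_left _ hW0
        rw [div_le_iff₀ hK0]
        have h2 : ∑ i ∈ range I, (2 : ℝ) ^ i = 2 ^ I - 1 := by
          rw [geom_sum_eq (by norm_num)]; norm_num
        rw [h2]
        rcases Nat.eq_zero_or_pos I with h3 | h3
        · rw [h3]; norm_num
        · have h4 := hI2 (I - 1) (by omega)
          have h5 : 2 ^ I = 2 * 2 ^ (I - 1) := by
            rw [← pow_succ']; congr 1; omega
          have h6 : ((2 ^ (I - 1) : ℕ) : ℝ) < K := by exact_mod_cast h4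
          push_cast at h6
          have h7 : (2 : ℝ) ^ I = 2 * 2 ^ (I - 1) := by exact_mod_cast h5
          rw [h7]
          linarith
    _ = _ := by rw [hW]; ring

end Pool.Agent.N952.CS
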