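import Pool.Agent.N952.CS.Lat

/-!
Large clusters and animals of blocks; averaging over translations.
-/

set_option autoImplicit false

namespace Pool.Agent.N952.CS
open Finset H974 Pool.Agent.H160R2.CV Pool.Agent.H160R2.CV.Quad Pool.Agent.Y244.PC

theorem adj_nv {G : Set Edg} {u v : Vtx} (h : Adj G u v) : nv (u - v) ≤ 1 := by
  obtain ⟨⟨x, y, b⟩, -, h | h⟩ := h <;> obtain ⟨h1, h2⟩ := h <;> subst h1 <;> subst h2 <;>
    cases b <;> simp [src, tgt, nv]

/-- the vertices which may be reached -/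
noncomputable def VS (x : Vtx) (S : Finset Edg) : Finset Vtx := insert x (S.image src ∪ S.image tgt)

theorem mem_VS {S F : Finset Edg} (hF : F ⊆ S) {x u : Vtx} (h : Reach (↑F : Set Edg) x u) :
    u ∈ VS x S := by
  unfold VS
  rcases Relation.ReflTransGen.cases_tail h with h1 | ⟨w, _, hw⟩
  · rw [h1]; exact mem_insert_self _ _
  · apply mem_insert_of_mem
    obtain ⟨e, he, h1 | h1⟩ := hw
    · rw [← h1.2]
      exact mem_union_right _ (mem_image_of_mem _ (hF (by exact_mod_cast he)))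
    · rw [← h1.1]
      exact mem_union_left _ (mem_image_of_mem _ (hF (by exact_mod_cast he)))

/-- the blocks which may be reached -/
noncomputable def LS (n : ℕ) (S : Finset Edg) : Finset Vtx :=
  insert (0, 0) ((S.image src ∪ S.image tgt).image (bi n))

/-- `x` is connected to at least `a` vertices -/
def VolAt (a : ℝ) (x : Vtx) (F : Finset Edg) : Prop :=
  ∃ T : Finset Vtx, a ≤ (T.card : ℝ) ∧ ∀ u ∈ T, Reach (↑F : Set Edg) x u

theorem VolAt_mono {a : ℝ} {x : Vtx} {F G : Finset Edg} (h : F ⊆ G) (hF : VolAt a x F) :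
    VolAt a x G := by
  obtain ⟨T, h1, h2⟩ := hF
  exact ⟨T, h1, fun u hu => (h2 u hu).mono (by exact_mod_cast h)⟩

theorem VolAt_sh {a : ℝ} {x : Vtx} {F : Finset Edg} : VolAt a (0, 0) (sh x F) ↔ VolAt a x F := by
  constructor
  · rintro ⟨T, h1, h2⟩
    refine ⟨T.map (addRightEmbedding x), by rwa [card_map], ?_⟩
    intro u hu
    rw [mem_map] at hu
    obtain ⟨w, hw, rfl⟩ := hu
    have h3 := sh_reach.mp (h2 w hw)
    rwa [show ((0, 0) : Vtx) + x = x by exact zero_add x] at h3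
  · rintro ⟨T, h1, h2⟩
    refine ⟨T.map (addRightEmbedding (-x)), by rwa [card_map], ?_⟩
    intro u hu
    rw [mem_map] at hu
    obtain ⟨w, hw, rfl⟩ := hu
    rw [sh_reach]
    have e : addRightEmbedding (-x) w + x = w := by
      show w + -x + x = w
      rw [add_assoc, neg_add_cancel, add_zero]
    rw [e, show ((0, 0) : Vtx) + x = x by exact zero_add x]
    exact h2 w hw

theorem Far_sh {r : ℕ} {x : Vtx} {F : Finset Edg} : Far (0, 0) r (sh x F) ↔ Far x r F := by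
  constructor
  · rintro ⟨u, h1, h2⟩
    rw [show ((0, 0) : Vtx) = 0 from rfl, sub_zero] at h1
    refine ⟨u + x, by rwa [add_sub_cancel_right], ?_⟩
    have h3 := sh_reach.mp h2
    rwa [show ((0, 0) : Vtx) + x = x by exact zero_add x] at h3
  · rintro ⟨u, h1, h2⟩
    refine ⟨u - x, by rw [show ((0, 0) : Vtx) = 0 from rfl, sub_zero]; exact h1, ?_⟩
    rw [sh_reach, sub_add_cancel, show ((0, 0) : Vtx) + x = x by exact zero_add x]
    exact h2

theorem nv_tri (x y z : Vtx) : nv (x - z) ≤ nv (x - y) + nv (y - z) := by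
  unfold nv
  simp only [Prod.fst_sub, Prod.snd_sub]
  omega

/-- the count of the vertices of a cluster by blocks -/
theorem count_blocks {n : ℕ} {F : Finset Edg} {Γ T : Finset Vtx}
    (h1 : ∀ u ∈ T, LA u n F) (h2 : ∀ u ∈ T, bi n u ∈ Γ) :
    (T.card : ℝ) ≤ ∑ z ∈ Γ, YY n (bq n z) F := by
  classical
  calc (T.card : ℝ) = ∑ u ∈ T, ind (LA u n F) := by
        rw [Finset.sum_congr rfl (fun u hu => ind_of (h1 u hu))]
        simp
    _ = ∑ z ∈ Γ, ∑ u ∈ T.filter (fun u => bi n u = z), ind (LA u n F) :=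
        (Finset.sum_fiberwise_of_maps_to h2 _).symm
    _ ≤ ∑ z ∈ Γ, YY n (bq n z) F := by
        apply Finset.sum_le_sum
        intro z _
        apply Finset.sum_le_sum_of_subset_of_nonneg
        · intro u hu
          rw [← (mem_filter.1 hu).2]
          exact bi_spec n u
        · intro _ _ _
          exact ind_nonneg _

/-- the animal of a cluster -/
theorem cluster_anim {n : ℕ} {S F : Finset Edg} (hF : F ⊆ S) {x : Vtx} (hx : x ∈ bq n (0, 0))
    (hfar : Far x (4 * n + 2) F) {a : ℝ} (hV : VolAt a x F) :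
    ∃ Γ : Finset Vtx, Γ ⊆ LS n S ∧ Anim Γ ∧ (∀ z ∈ Γ, CB n z F) ∧
      a ≤ ∑ z ∈ Γ, YY n (bq n z) F := by
  classical
  obtain ⟨w, hw, hxw⟩ := hfar
  obtain ⟨T, hT, hTr⟩ := hV
  have hbx : bi n x = (0, 0) := (bi_unique hx).symm
  obtain ⟨Γ, hΓ⟩ : ∃ Γ : Finset Vtx, Γ = ((VS x F).filter
    (fun u => Reach (↑F : Set Edg) x u)).image (bi n) := ⟨_, rfl⟩
  have hmem : ∀ u, Reach (↑F : Set Edg) x u → bi n u ∈ Γ := by
    intro u hu
    rw [hΓ]
    exact mem_image_of_mem _ (mem_filter.2 ⟨mem_VS (le_refl _) hu, hu⟩)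
  have hout : ∀ z ∈ Γ, ∃ u, Reach (↑F : Set Edg) x u ∧ u ∈ bq n z := by
    intro z hz
    rw [hΓ, mem_image] at hz
    obtain ⟨u, hu, rfl⟩ := hz
    exact ⟨u, (mem_filter.1 hu).2, bi_spec n u⟩
  have hfarz : ∀ c : Vtx, ∃ y, Reach (↑F : Set Edg) x y ∧ 2 * n + 1 ≤ nv (y - c) := by
    intro c
    have h1 := nv_tri w c x
    rcases Nat.lt_or_ge (nv (w - c)) (2 * n + 1) with h2 | h2
    · refine ⟨x, Reach.refl _ _, ?_⟩
      have h3 := nvc c x
      omega
    · exact ⟨w, hxw, h2⟩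
  refine ⟨Γ, ?_, ⟨?_, ?_⟩, ?_, ?_⟩
  · intro z hz
    rw [hΓ, mem_image] at hz
    obtain ⟨u, hu, rfl⟩ := hz
    have hu1 := (mem_filter.1 hu).1
    unfold VS at hu1
    unfold LS
    rw [mem_insert] at hu1
    rcases hu1 with rfl | hu1
    · rw [hbx]; exact mem_insert_self _ _
    · apply mem_insert_of_mem
      apply mem_image_of_mem
      rw [mem_union] at hu1 ⊢
      exact hu1.imp (fun h => image_subset_image hF h) (fun h => image_subset_image hF h)
  · rw [← hbx]; exact hmem x (Reach.refl _ _)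
  · intro j hj
    rw [hΓ, mem_image] at hj
    obtain ⟨u, hu, rfl⟩ := hj
    have hxu := (mem_filter.1 hu).2
    clear hu
    induction hxu with
    | refl => rw [hbx]
    | @tail u v h1 h2 ih =>
      refine ih.tail ⟨hmem v (h1.tail h2), bi_adj (adj_nv h2)⟩
  · intro z hz
    obtain ⟨u, hu, huz⟩ := hout z hz
    obtain ⟨y, hy, hyz⟩ := hfarz (cc n z)
    exact CB_of_reach (mem_bq.1 huz) hyz (hu.symm.trans hy)
  · refine hT.trans (count_blocks ?_ (fun u hu => hmem u (hTr u hu)))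
    intro u hu
    obtain ⟨y, hy, hyz⟩ := hfarz (cc n (bi n u))
    have h1 := mem_bq.1 (bi_spec n u)
    have h2 := nv_tri y u (cc n (bi n u))
    exact LA_of_reach (m := n) (u := y) (by omega) ((hTr u hu).symm.trans hy)

/-- many vertices in large clusters -/
theorem big_prob {q A l ε : ℝ} {n : ℕ} (h : Sc q A l n) (he0 : 0 ≤ ε) (he1 : 2 ^ 9 * (2 * ε) ≤ 1 / 2)
    (hCB : ∀ S, annE n (2 * n + 1) ⊆ S →
      Pr (fun _ => q) S (fun F => ¬ Blk (n : ℤ) ((2 * n + 1 : ℕ) : ℤ) F) ≤ ε ^ 18)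
    (S : Finset Edg) (a : ℝ) :
    Pr (fun _ => q) S (fun F => ∃ Γ : Finset Vtx, Γ ⊆ LS n S ∧ Anim Γ ∧ (∀ z ∈ Γ, CB n z F) ∧
      a ≤ ∑ z ∈ Γ, YY n (bq n z) F) ≤ 6 * Real.exp (-(l * a / 18)) := by
  classical
  have ok := okq h.h0 h.h1
  obtain ⟨U, hU⟩ : ∃ U : Finset Edg, U = S ∪ (LS n S).biUnion (fun z => TT n z) := ⟨_, rfl⟩
  have hSU : S ⊆ U := by rw [hU]; exact subset_union_left
  have hTU : ∀ z ∈ LS n S, TT n z ⊆ U := by
    intro z hz
    rw [hU]
    exact (subset_biUnion_of_mem (fun z => TT n z) hz).trans subset_union_right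
  have he2 : ε ≤ 1 := by linarith
  calc Pr (fun _ => q) S (fun F => ∃ Γ : Finset Vtx, Γ ⊆ LS n S ∧ Anim Γ ∧ (∀ z ∈ Γ, CB n z F) ∧
        a ≤ ∑ z ∈ Γ, YY n (bq n z) F)
      ≤ Pr (fun _ => q) S (fun F => ∃ Γ ∈ (LS n S).powerset.filter Anim, (∀ z ∈ Γ, CB n z F) ∧
        a ≤ ∑ z ∈ Γ, YY n (bq n z) F) := by
        apply Pr_mono ok
        rintro F _ ⟨Γ, h1, h2, h3⟩
        exact ⟨Γ, mem_filter.2 ⟨mem_powerset.2 h1, h2⟩, h3⟩
    _ ≤ ∑ Γ ∈ (LS n S).powerset.filter Anim, Pr (fun _ => q) S (fun F => (∀ z ∈ Γ, CB n z F) ∧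
        a ≤ ∑ z ∈ Γ, YY n (bq n z) F) := Pr_exists_le ok S _ _
    _ ≤ ∑ Γ ∈ (LS n S).powerset.filter Anim,
          3 * Real.exp (-(l * a / 18)) * (2 * ε) ^ Γ.card := by
        apply Finset.sum_le_sum
        intro Γ hΓ
        have hΓ1 := mem_powerset.1 (mem_filter.1 hΓ).1
        refine le_trans (Pr_mono_set ok hSU ?_) (pair_est h he0 he2 hCB
          (fun z hz => hTU z (hΓ1 hz)) a)
        intro F G hFG _ hF
        exact ⟨fun z hz => CB_mono hFG (hF.1 z hz),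
          hF.2.trans (Finset.sum_le_sum fun z _ => YY_mono hFG)⟩
    _ = 3 * Real.exp (-(l * a / 18)) * ∑ Γ ∈ (LS n S).powerset.filter Anim,
          (2 * ε) ^ Γ.card := by rw [Finset.mul_sum]
    _ ≤ 3 * Real.exp (-(l * a / 18)) * 2 := by
        apply mul_le_mul_of_nonneg_left _ (by positivity)
        exact sum_anim (by positivity) he1 _ fun B hB => (mem_filter.1 hB).2
    _ = _ := by ring

theorem DD_bq {A : ℝ} (hA : 0 < A) (n : ℕ) (z : Vtx) :
    DD (2 * A) n (bq n z) ≤ 36 * A * (2 * (n : ℝ) + 1) ^ 2 * ((n : ℝ) + 1) ^ (-(5 / 48) : ℝ) := by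
  unfold DD
  rw [card_bq]
  have h0 : (0 : ℝ) ≤ n := by positivity
  have h1 : ((n : ℝ) + 1) ^ (91 / 48 : ℝ) =
      ((n : ℝ) + 1) ^ 2 * ((n : ℝ) + 1) ^ (-(5 / 48) : ℝ) := by
    rw [← Real.rpow_natCast ((n : ℝ) + 1) 2, ← Real.rpow_add (by positivity)]
    norm_num
  have h2 : (0 : ℝ) < ((n : ℝ) + 1) ^ (-(5 / 48) : ℝ) := by positivity
  have h3 : ((n : ℝ) + 1) ^ 2 ≤ (2 * (n : ℝ) + 1) ^ 2 := by nlinarith
  rw [h1]
  push_cast
  have h4 : ((n : ℝ) + 1) ^ 2 * ((n : ℝ) + 1) ^ (-(5 / 48) : ℝ) ≤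
      (2 * (n : ℝ) + 1) ^ 2 * ((n : ℝ) + 1) ^ (-(5 / 48) : ℝ) :=
    mul_le_mul_of_nonneg_right h3 h2.le
  nlinarith

/-- averaging over translations -/
theorem avg {q A l g : ℝ} {n M : ℕ} (h : Sc q A l n) (hg : 0 < g) {E : Finset Edg → Prop}
    (hE : ∀ F, E F ↔ E (F ∩ boxE M)) {G : Finset Edg → Prop}
    (hEG : ∀ x ∈ bq n (0, 0), ∀ F, F ⊆ boxE (M + n) → E (sh x F) → LA x n F ∧ G F)
    (hG : Pr (fun _ => q) (boxE (M + n)) G ≤ 9 * g ^ 2) :
    Pr (fun _ => q) (boxE M) E ≤ 200 * A * ((n : ℝ) + 1) ^ (-(5 / 48) : ℝ) * g := by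
  have ok := okq h.h0 h.h1
  have hA := AB_one_le h.hAB
  obtain ⟨D, hD⟩ : ∃ D, D = DD (2 * A) n (bq n (0, 0)) := ⟨_, rfl⟩
  have hD0 : 0 < D := by rw [hD]; exact DD_pos (by linarith) _ _
  obtain ⟨p, hp⟩ : ∃ p, p = Pr (fun _ => q) (boxE M) E := ⟨_, rfl⟩
  obtain ⟨S, hS⟩ : ∃ S, S = boxE (M + n) := ⟨_, rfl⟩
  rw [← hS] at hG hEG
  rw [← hp]
  have hx : ∀ x ∈ bq n (0, 0), Pr (fun _ => q) S (fun F => E (sh x F)) = p := by
    intro x hx
    have e : Pr (fun _ => q) S (fun F => E (sh x F)) = Pr (fun _ => q) (sh x S) E :=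
      ((trl (-x.1) (-x.2)).pr q S E).symm
    have hxn : nv x ≤ n := by
      have := mem_bq.1 hx
      have e0 : cc n (0, 0) = 0 := by unfold cc; simp
      rwa [e0, sub_zero] at this
    have hsub : boxE M ⊆ sh x S := by
      rw [← sh_bo x M]
      apply sh_mono
      rw [hS]
      unfold nv at hxn
      apply bo_sub_boxE <;> push_cast <;> omega
    rw [e, hp]
    exact Pr_local hsub fun F _ => hE F
  have h1 : ((bq n (0, 0)).card : ℝ) * p ≤
      Ex (fun _ => q) S (fun F => YY n (bq n (0, 0)) F * ind (G F)) := by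
    calc ((bq n (0, 0)).card : ℝ) * p = ∑ x ∈ bq n (0, 0), Pr (fun _ => q) S
          (fun F => E (sh x F)) := by
          rw [Finset.sum_congr rfl hx, Finset.sum_const, nsmul_eq_mul]
      _ = Ex (fun _ => q) S (fun F => ∑ x ∈ bq n (0, 0), ind (E (sh x F))) := by
          unfold Pr
          rw [Ex_sum]
      _ ≤ _ := by
          apply Ex_mono ok
          intro F hF
          unfold YY
          rw [Finset.sum_mul]
          apply Finset.sum_le_sum
          intro x hx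
          rw [← ind_and]
          exact ind_mono (hEG x hx F hF)
  have h2 : Ex (fun _ => q) S (fun F => YY n (bq n (0, 0)) F * ind (G F)) ≤
      g / (2 * D) * Ex (fun _ => q) S (fun F => YY n (bq n (0, 0)) F * YY n (bq n (0, 0)) F) +
        D / (2 * g) * Pr (fun _ => q) S G := by
    unfold Pr
    rw [← Ex_mul_left, ← Ex_mul_left, ← Ex_add]
    apply Ex_mono ok
    intro F _
    obtain ⟨y, hy⟩ : ∃ y, y = YY n (bq n (0, 0)) F := ⟨_, rfl⟩
    rw [← hy]
    by_cases hGF : G F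
    · rw [ind_of hGF]
      have h3 : 0 ≤ (g * y - D) ^ 2 := sq_nonneg _
      have h4 : g / (2 * D) * (y * y) + D / (2 * g) * 1 - y * 1 = (g * y - D) ^ 2 / (2 * g * D) := by
        field_simp
        ring
      have h5 : 0 ≤ (g * y - D) ^ 2 / (2 * g * D) := by positivity
      linarith
    · rw [ind_not_of hGF]
      have h3 : 0 ≤ g / (2 * D) * (y * y) := mul_nonneg (by positivity) (mul_self_nonneg y)
      linarith
  have h3 := Ex_YY2 h.h0 h.h1 h.hAB (bq n (0, 0)) S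
  rw [← hD] at h3
  have h4 : g / (2 * D) * Ex (fun _ => q) S
      (fun F => YY n (bq n (0, 0)) F * YY n (bq n (0, 0)) F) ≤ g * D := by
    calc _ ≤ g / (2 * D) * (2 * D ^ 2) := mul_le_mul_of_nonneg_left h3 (by positivity)
      _ = g * D := by field_simp
  have h5 : D / (2 * g) * Pr (fun _ => q) S G ≤ 9 / 2 * (g * D) := by
    calc _ ≤ D / (2 * g) * (9 * g ^ 2) := mul_le_mul_of_nonneg_left hG (by positivity)
      _ = 9 / 2 * (g * D) := by field_simp
  have h6 : ((bq n (0, 0)).card : ℝ) * p ≤ 11 / 2 * (g * D) := by linarith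
  have h7 : D ≤ 36 * A * (2 * (n : ℝ) + 1) ^ 2 * ((n : ℝ) + 1) ^ (-(5 / 48) : ℝ) := by
    rw [hD]; exact DD_bq (by linarith) n _
  rw [card_bq] at h6
  push_cast at h6
  have h8 : (0 : ℝ) < (2 * (n : ℝ) + 1) ^ 2 := by positivity
  have h9 : (2 * (n : ℝ) + 1) ^ 2 * p ≤ (2 * (n : ℝ) + 1) ^ 2 *
      (200 * A * ((n : ℝ) + 1) ^ (-(5 / 48) : ℝ) * g) := by
    calc (2 * (n : ℝ) + 1) ^ 2 * p ≤ 11 / 2 * (g * D) := h6
      _ ≤ 11 / 2 * (g * (36 * A * (2 * (n : ℝ) + 1) ^ 2 * ((n : ℝ) + 1) ^ (-(5 / 48) : ℝ))) := by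
          apply mul_le_mul_of_nonneg_left _ (by norm_num)
          exact mul_le_mul_of_nonneg_left h7 hg.le
      _ = (2 * (n : ℝ) + 1) ^ 2 * (198 * A * ((n : ℝ) + 1) ^ (-(5 / 48) : ℝ) * g) := by ring
      _ ≤ _ := by
          apply mul_le_mul_of_nonneg_left _ h8.le
          have : 0 ≤ A * ((n : ℝ) + 1) ^ (-(5 / 48) : ℝ) * g := by positivity
          nlinarith
  exact le_of_mul_le_mul_left h9 h8

end Pool.Agent.N952.CS
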