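import Pool.Agent.N952.CS.LowSup
import Pool.Agent.H974R2.GammaInf

/-!
The size of the cluster of the origin in the infinite lattice.
-/

set_option autoImplicit false

namespace Pool.Agent.N952.CS
open Finset H974 Pool.Agent.H160R2.CV Pool.Agent.H160R2.CV.Quad Pool.Agent.Y244.PC MeasureTheory Filter

/-- the number of vertices of the cluster of the origin, `0` if it is infinite -/
noncomputable def sz (ω : sqLattice.edgeSet → Bool) : ℝ := ((cluster0 ω).ncard : ℝ)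

theorem sz_nonneg (ω : sqLattice.edgeSet → Bool) : 0 ≤ sz ω := by unfold sz; positivity

theorem edge_in_box' {R : ℕ} {e : Edg} {v w : Vtx} (hv : nv v < R) (hw : nv w ≤ R)
    (h : (src e = v ∧ tgt e = w) ∨ (src e = w ∧ tgt e = v)) : e ∈ boxE R := by
  obtain ⟨x, y, b⟩ := e
  unfold nv at hv hw
  unfold boxE
  cases b
  · simp only [src_mk, tgt_false] at h
    rw [mem_RE_false]
    rcases h with ⟨rfl, rfl⟩ | ⟨rfl, rfl⟩ <;> simp only at hv hw <;> omega
  · simp only [src_mk, tgt_true] at h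
    rw [mem_RE_true]
    rcases h with ⟨rfl, rfl⟩ | ⟨rfl, rfl⟩ <;> simp only at hv hw <;> omega

/-- the local event -/
def LE (a : ℝ) (M : ℕ) (S : Finset Edg) (ω : sqLattice.edgeSet → Bool) : Prop :=
  VolAt a (0, 0) (FF S ω) ∧ ¬ Far (0, 0) M (FF S ω)

theorem FF_sub_opn (S : Finset Edg) (ω : sqLattice.edgeSet → Bool) :
    (↑(FF S ω) : Set Edg) ⊆ opn ω := by rw [FF_coe]; exact Set.inter_subset_left

theorem reach_local {M : ℕ} {ω : sqLattice.edgeSet → Bool}
    (h : ¬ Far (0, 0) M (FF (boxE M) ω)) {u : Vtx} (hu : Reach (opn ω) (0, 0) u) :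
    Reach (↑(FF (boxE M) ω) : Set Edg) (0, 0) u := by
  have hlt : ∀ v, Reach (↑(FF (boxE M) ω) : Set Edg) (0, 0) v → nv v < M := by
    intro v hv
    by_contra hc
    exact h ⟨v, by rw [sub_zero']; omega, hv⟩
  induction hu with
  | refl => exact Reach.refl _ _
  | @tail v w _ hvw ih =>
    refine ih.tail ?_
    have hv := hlt v ih
    have hw : nv w ≤ M := by
      have h1 := nv_tri w v 0
      rw [sub_zero, sub_zero] at h1
      have h2 := adj_nv hvw
      rw [nvc] at h2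
      omega
    obtain ⟨e, he, hcase⟩ := hvw
    refine ⟨e, ?_, hcase⟩
    rw [FF_coe]
    exact ⟨he, by exact_mod_cast edge_in_box' hv hw hcase⟩

theorem LE_sub {a : ℝ} {M : ℕ} {ω : sqLattice.edgeSet → Bool} (h : LE a M (boxE M) ω) :
    a ≤ sz ω := by
  obtain ⟨⟨T, hT, hr⟩, hF⟩ := h
  have hsub : cluster0 ω ⊆ ↑(bx M) := by
    intro u hu
    have h1 : Reach (opn ω) (0, 0) u := (open_reach ω _ _).1 hu
    have h2 := reach_local hF h1
    rw [Finset.mem_coe, VolAux.mem_bx]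
    by_contra hc
    exact hF ⟨u, by rw [sub_zero']; omega, h2⟩
  have hfin : (cluster0 ω).Finite := (bx M).finite_toSet.subset hsub
  have hTs : (↑T : Set Vtx) ⊆ cluster0 ω := fun u hu =>
    (open_reach ω _ _).2 ((hr u (by exact_mod_cast hu)).mono (FF_sub_opn _ _))
  have h3 := Set.ncard_le_ncard hTs hfin
  rw [Set.ncard_coe_finset] at h3
  unfold sz
  have h4 : (T.card : ℝ) ≤ ((cluster0 ω).ncard : ℝ) := by exact_mod_cast h3
  exact hT.trans h4

theorem LE_of {a : ℝ} (ha : 0 < a) {ω : sqLattice.edgeSet → Bool} (h : a ≤ sz ω) :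
    ∃ M : ℕ, LE a M (boxE M) ω := by
  have hfin : (cluster0 ω).Finite := by
    by_contra hc
    have : (cluster0 ω).ncard = 0 := Set.Infinite.ncard hc
    unfold sz at h
    rw [this] at h
    simp at h
    linarith
  obtain ⟨M, hM⟩ : ∃ M : ℕ, ∀ u ∈ cluster0 ω, nv u < M := by
    refine ⟨hfin.toFinset.sup nv + 1, fun u hu => ?_⟩
    exact Nat.lt_succ_of_le (Finset.le_sup (f := nv) (hfin.mem_toFinset.2 hu))
  refine ⟨M, ⟨hfin.toFinset, ?_, ?_⟩, ?_⟩
  · rw [← Set.ncard_eq_toFinset_card _ hfin]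
    exact h
  · intro u hu
    have hu' : u ∈ cluster0 ω := hfin.mem_toFinset.1 hu
    have h1 : Reach (opn ω) (0, 0) u := (open_reach ω _ _).1 hu'
    clear hu hu'
    induction h1 with
    | refl => exact Reach.refl _ _
    | @tail v w h1 hvw ih =>
      refine ih.tail ?_
      have hv := hM v ((open_reach ω _ _).2 h1)
      have hw := hM w ((open_reach ω _ _).2 (h1.tail hvw))
      obtain ⟨e, he, hcase⟩ := hvw
      refine ⟨e, ?_, hcase⟩
      rw [FF_coe]
      exact ⟨he, by exact_mod_cast edge_in_box' hv hw.le hcase⟩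
  · rintro ⟨u, hu, hr⟩
    rw [sub_zero'] at hu
    have := hM u ((open_reach ω _ _).2 (hr.mono (FF_sub_opn _ _)))
    omega

theorem LE_mono {a : ℝ} {M : ℕ} {S : Finset Edg} (hS : boxE M ⊆ S) {ω : sqLattice.edgeSet → Bool}
    (h : LE a M (boxE M) ω) : LE a M S ω := by
  obtain ⟨⟨T, hT, hr⟩, hF⟩ := h
  have hsub : FF (boxE M) ω ⊆ FF S ω := by
    intro e he
    rw [mem_FF] at he ⊢
    exact ⟨hS he.1, he.2⟩
  refine ⟨⟨T, hT, fun u hu => (hr u hu).mono (by exact_mod_cast hsub)⟩, ?_⟩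
  rintro ⟨u, hu, hru⟩
  exact hF ⟨u, hu, reach_local hF (hru.mono (FF_sub_opn _ _))⟩

theorem LE_mono' {a : ℝ} {M M' : ℕ} (hM : M ≤ M') {ω : sqLattice.edgeSet → Bool}
    (h : LE a M (boxE M) ω) : LE a M' (boxE M') ω := by
  have h1 := LE_mono (boxE_mono hM) h
  exact ⟨h1.1, fun h2 => h1.2 (Far_anti hM h2)⟩

theorem sz_union {a : ℝ} (ha : 0 < a) :
    {ω | a ≤ sz ω} = ⋃ M : ℕ, {ω | LE a M (boxE M) ω} := by
  ext ω
  rw [Set.mem_iUnion]
  constructor
  · intro h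
    exact LE_of ha h
  · rintro ⟨M, h⟩
    exact LE_sub h

theorem meas_le_sz (a : ℝ) : MeasurableSet {ω | a ≤ sz ω} := by
  rcases le_or_gt a 0 with ha | ha
  · have : {ω | a ≤ sz ω} = Set.univ := by
      ext ω
      simp only [Set.mem_ofPred_eq, Set.mem_univ, iff_true]
      exact ha.trans (sz_nonneg ω)
    rw [this]
    exact MeasurableSet.univ
  · rw [sz_union ha]
    exact MeasurableSet.iUnion fun M => meas_event (boxE M)
      (fun F => VolAt a (0, 0) F ∧ ¬ Far (0, 0) M F)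

theorem measurable_sz : Measurable sz := measurable_of_Ici meas_le_sz

theorem sz_upper (p : unitInterval) {a B : ℝ} (ha : 0 < a)
    (h : ∀ M : ℕ, ∃ M0 : ℕ, ∀ S : Finset Edg, boxE M0 ⊆ S →
      Pr (fun _ => (p : ℝ)) S (fun F => VolAt a (0, 0) F ∧ ¬ Far (0, 0) M F) ≤ B) :
    (bondLaw p).real {ω | a ≤ sz ω} ≤ B := by
  have hm : Monotone (fun M : ℕ => {ω : sqLattice.edgeSet → Bool | LE a M (boxE M) ω}) :=
    fun M M' hM ω hω => LE_mono' hM hω
  have h1 := tendsto_measure_iUnion_atTop (μ := bondLaw p) hm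
  rw [← sz_union ha] at h1
  have h2 : Tendsto (fun M : ℕ => (bondLaw p).real {ω | LE a M (boxE M) ω}) atTop
      (nhds ((bondLaw p).real {ω | a ≤ sz ω})) :=
    (ENNReal.tendsto_toReal (measure_ne_top _ _)).comp h1
  refine le_of_tendsto' h2 (fun M => ?_)
  obtain ⟨M0, hM0⟩ := h M
  have h3 := hM0 (boxE (max M0 M)) (boxE_mono (le_max_left _ _))
  rw [← law_event p (boxE (max M0 M)) (fun F => VolAt a (0, 0) F ∧ ¬ Far (0, 0) M F)] at h3
  refine (measureReal_mono ?_).trans h3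
  intro ω hω
  exact LE_mono (boxE_mono (le_max_right _ _)) hω

theorem sz_lower (p : unitInterval) {a : ℝ} (M : ℕ) :
    Pr (fun _ => (p : ℝ)) (boxE M) (fun F => VolAt a (0, 0) F ∧ ¬ Far (0, 0) M F) ≤
      (bondLaw p).real {ω | a ≤ sz ω} := by
  rw [← law_event p (boxE M) (fun F => VolAt a (0, 0) F ∧ ¬ Far (0, 0) M F)]
  exact measureReal_mono fun ω hω => LE_sub hω

theorem sz_lower' (p : unitInterval) (hp : (p : ℝ) ≤ 1 / 2) {a : ℝ} (S : Finset Edg) :
    Pr (fun _ => (p : ℝ)) S (VolAt a (0, 0)) ≤ (bondLaw p).real {ω | a ≤ sz ω} := by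
  rw [← law_event p S (VolAt a (0, 0))]
  have h0 : (bondLaw p).real {ω | (cluster0 ω).Infinite} = 0 := theta_half_le hp
  have h1 : {ω : sqLattice.edgeSet → Bool | VolAt a (0, 0) (FF S ω)} ⊆
      {ω | a ≤ sz ω} ∪ {ω | (cluster0 ω).Infinite} := by
    intro ω hω
    by_cases hinf : (cluster0 ω).Infinite
    · exact Or.inr hinf
    · left
      have hfin := Set.not_infinite.1 hinf
      obtain ⟨T, hT, hr⟩ := hω
      have hTs : (↑T : Set Vtx) ⊆ cluster0 ω := fun u hu =>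
        (open_reach ω _ _).2 ((hr u (by exact_mod_cast hu)).mono (FF_sub_opn _ _))
      have h3 := Set.ncard_le_ncard hTs hfin
      rw [Set.ncard_coe_finset] at h3
      have h4 : (T.card : ℝ) ≤ ((cluster0 ω).ncard : ℝ) := by exact_mod_cast h3
      exact hT.trans h4
  refine (measureReal_mono h1).trans ((measureReal_union_le _ _).trans ?_)
  rw [h0, add_zero]

/-- the tail of the size of the finite clusters -/
theorem tails : ∃ c C : ℝ, 0 < c ∧ 0 < C ∧
    (∀ p : unitInterval, (p : ℝ) ≤ 1 / 2 → ∀ a : ℝ, 1 ≤ a →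
      ((1 / 4 : ℝ) ≤ p → c * a ^ (-(5 / 91) : ℝ) *
          Real.exp (-(C * (a * (1 / 2 - (p : ℝ)) ^ (91 / 36 : ℝ)))) ≤
        (bondLaw p).real {ω | a ≤ sz ω}) ∧
      (bondLaw p).real {ω | a ≤ sz ω} ≤ C * a ^ (-(5 / 91) : ℝ) *
          Real.exp (-(c * (a * (1 / 2 - (p : ℝ)) ^ (91 / 36 : ℝ))))) ∧
    (∀ p : unitInterval, (1 / 2 : ℝ) ≤ p → ∀ a : ℝ, 1 ≤ a →
      ((p : ℝ) ≤ 3 / 4 → c * a ^ (-(5 / 91) : ℝ) *
          Real.exp (-(C * (a * ((p : ℝ) - 1 / 2) ^ (91 / 36 : ℝ)) ^ (1 / 2 : ℝ))) ≤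
        (bondLaw p).real {ω | a ≤ sz ω}) ∧
      (bondLaw p).real {ω | a ≤ sz ω} ≤ C * a ^ (-(5 / 91) : ℝ) *
          Real.exp (-(c * (a * ((p : ℝ) - 1 / 2) ^ (91 / 36 : ℝ)) ^ (1 / 2 : ℝ)))) := by
  obtain ⟨c1, C1, hc1, hC1, h1⟩ := upper_sub
  obtain ⟨c2, C2, hc2, hC2, h2⟩ := upper_sup
  obtain ⟨c3, C3, hc3, hC3, h3⟩ := lower_sub
  obtain ⟨c4, C4, hc4, hC4, h4⟩ := lower_sup
  obtain ⟨c, hc⟩ : ∃ c : ℝ, c = min (min c1 c2) (min c3 c4) := ⟨_, rfl⟩
  obtain ⟨C, hC⟩ : ∃ C : ℝ, C = max (max C1 C2) (max C3 C4) := ⟨_, rfl⟩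
  have k1 : c ≤ c1 := by rw [hc]; exact (min_le_left _ _).trans (min_le_left _ _)
  have k2 : c ≤ c2 := by rw [hc]; exact (min_le_left _ _).trans (min_le_right _ _)
  have k3 : c ≤ c3 := by rw [hc]; exact (min_le_right _ _).trans (min_le_left _ _)
  have k4 : c ≤ c4 := by rw [hc]; exact (min_le_right _ _).trans (min_le_right _ _)
  have l1 : C1 ≤ C := by rw [hC]; exact (le_max_left _ _).trans (le_max_left _ _)
  have l2 : C2 ≤ C := by rw [hC]; exact (le_max_right _ _).trans (le_max_left _ _)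
  have l3 : C3 ≤ C := by rw [hC]; exact (le_max_left _ _).trans (le_max_right _ _)
  have l4 : C4 ≤ C := by rw [hC]; exact (le_max_right _ _).trans (le_max_right _ _)
  have hc0 : 0 < c := by rw [hc]; exact lt_min (lt_min hc1 hc2) (lt_min hc3 hc4)
  have hC0 : 0 < C := lt_of_lt_of_le hC1 l1
  -- comparison of the bounds
  have up : ∀ {c' C' a y : ℝ}, c ≤ c' → C' ≤ C → 0 < a → 0 ≤ y →
      C' * a ^ (-(5 / 91) : ℝ) * Real.exp (-(c' * y)) ≤
        C * a ^ (-(5 / 91) : ℝ) * Real.exp (-(c * y)) := by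
    intro c' C' a y hc' hC' ha hy
    apply mul_le_mul _ _ (Real.exp_pos _).le (by positivity)
    · exact mul_le_mul_of_nonneg_right hC' (by positivity)
    · apply Real.exp_le_exp.2
      rw [neg_le_neg_iff]
      exact mul_le_mul_of_nonneg_right hc' hy
  have lo : ∀ {c' C' a y : ℝ}, 0 < c' → c ≤ c' → C' ≤ C → 0 < a → 0 ≤ y →
      c * a ^ (-(5 / 91) : ℝ) * Real.exp (-(C * y)) ≤
        c' * a ^ (-(5 / 91) : ℝ) * Real.exp (-(C' * y)) := by
    intro c' C' a y hc'0 hc' hC' ha hy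
    apply mul_le_mul _ _ (Real.exp_pos _).le (by positivity)
    · exact mul_le_mul_of_nonneg_right hc' (by positivity)
    · apply Real.exp_le_exp.2
      rw [neg_le_neg_iff]
      exact mul_le_mul_of_nonneg_right hC' hy
  refine ⟨c, C, hc0, hC0, ?_, ?_⟩
  · intro p hp a ha
    have ha0 : 0 < a := by linarith
    have hy : 0 ≤ a * (1 / 2 - (p : ℝ)) ^ (91 / 36 : ℝ) :=
      mul_nonneg ha0.le (Real.rpow_nonneg (by linarith) _)
    constructor
    · intro hp4
      obtain ⟨M0, hM0⟩ := h3 p hp4 hp a ha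
      exact (lo hc3 k3 l3 ha0 hy).trans ((hM0 (boxE M0) (le_refl _)).trans
        (sz_lower' p hp (boxE M0)))
    · apply sz_upper p ha0
      intro M
      refine ⟨0, fun S _ => ?_⟩
      exact (Pr_mono (okq p.2.1 p.2.2) fun F _ hF => hF.1).trans
        ((h1 p p.2.1 hp a ha S).trans (up k1 l1 ha0 hy))
  · intro p hp a ha
    have ha0 : 0 < a := by linarith
    have hy : 0 ≤ (a * ((p : ℝ) - 1 / 2) ^ (91 / 36 : ℝ)) ^ (1 / 2 : ℝ) :=
      Real.rpow_nonneg (mul_nonneg ha0.le (Real.rpow_nonneg (by linarith) _)) _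
    constructor
    · intro hp4
      obtain ⟨M0, hM0⟩ := h4 p hp hp4 a ha
      exact (lo hc4 k4 l4 ha0 hy).trans ((hM0 (boxE M0) (le_refl _)).trans (sz_lower p M0))
    · apply sz_upper p ha0
      intro M
      obtain ⟨M0, hM0⟩ := h2 p hp p.2.2 a ha M
      exact ⟨M0, fun S hS => (hM0 S hS).trans (up k2 l2 ha0 hy)⟩

end Pool.Agent.N952.CS
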