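import Pool.Agent.N952.CS.Mom
import Pool.Agent.N952.CS.Anim

/-!
Blocks: crossings and numbers of far-reaching vertices in many blocks.
-/

set_option autoImplicit false

namespace Pool.Agent.N952.CS
open Finset H974 Pool.Agent.H160R2.CV Pool.Agent.H160R2.CV.Quad Pool.Agent.Y244.PC

/-! ### geometry of the blocks -/

/-- centre of the block `z` -/
def cc (n : ℕ) (z : Vtx) : Vtx := ((2 * (n : ℤ) + 1) * z.1, (2 * (n : ℤ) + 1) * z.2)

/-- the block `z` -/
noncomputable def bq (n : ℕ) (z : Vtx) : Finset Vtx := (bx n).image (fun v => v + cc n z)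

theorem mem_bq {n : ℕ} {z x : Vtx} : x ∈ bq n z ↔ nv (x - cc n z) ≤ n := by
  unfold bq
  rw [mem_image]
  constructor
  · rintro ⟨v, hv, rfl⟩
    rw [add_sub_cancel_right]
    exact VolAux.mem_bx.1 hv
  · intro h
    exact ⟨x - cc n z, VolAux.mem_bx.2 h, sub_add_cancel _ _⟩

theorem card_bq (n : ℕ) (z : Vtx) : (bq n z).card = (2 * n + 1) ^ 2 := by
  unfold bq
  rw [card_image_of_injective _ (add_left_injective _), card_bx']

/-- the index of the block of `x` -/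
def bi (n : ℕ) (x : Vtx) : Vtx :=
  ((x.1 + n) / (2 * (n : ℤ) + 1), (x.2 + n) / (2 * (n : ℤ) + 1))

theorem idx (n : ℕ) (a : ℤ) : -(n : ℤ) ≤ a - (2 * (n : ℤ) + 1) * ((a + n) / (2 * (n : ℤ) + 1)) ∧
    a - (2 * (n : ℤ) + 1) * ((a + n) / (2 * (n : ℤ) + 1)) ≤ n := by
  have h := Int.emod_add_mul_ediv (a + n) (2 * (n : ℤ) + 1)
  have h1 := Int.emod_nonneg (a + n) (show (2 * (n : ℤ) + 1) ≠ 0 by omega)
  have h2 := Int.emod_lt_of_pos (a + n) (show 0 < (2 * (n : ℤ) + 1) by omega)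
  constructor <;> linarith

theorem bi_spec (n : ℕ) (x : Vtx) : x ∈ bq n (bi n x) := by
  rw [mem_bq]
  have h1 := idx n x.1
  have h2 := idx n x.2
  unfold nv cc bi
  simp only [Prod.fst_sub, Prod.snd_sub]
  omega

theorem idx_unique {n : ℕ} {a z : ℤ} (h1 : -(n : ℤ) ≤ a - (2 * (n : ℤ) + 1) * z)
    (h2 : a - (2 * (n : ℤ) + 1) * z ≤ n) : z = (a + n) / (2 * (n : ℤ) + 1) := by
  symm
  rw [Int.ediv_eq_iff_of_pos (by omega)]
  constructor <;> nlinarith

theorem bi_unique {n : ℕ} {x z : Vtx} (h : x ∈ bq n z) : z = bi n x := by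
  rw [mem_bq] at h
  unfold nv cc at h
  simp only [Prod.fst_sub, Prod.snd_sub] at h
  unfold bi
  have e1 := idx_unique (n := n) (a := x.1) (z := z.1) (by omega) (by omega)
  have e2 := idx_unique (n := n) (a := x.2) (z := z.2) (by omega) (by omega)
  rw [← e1, ← e2]

theorem idx_adj {n : ℕ} {a b : ℤ} (h : |a - b| ≤ 1) :
    |(a + n) / (2 * (n : ℤ) + 1) - (b + n) / (2 * (n : ℤ) + 1)| ≤ 1 := by
  rw [abs_le] at h ⊢
  have h1 := idx n a
  have h2 := idx n b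
  have hn : (0 : ℤ) ≤ n := by positivity
  constructor
  · by_contra h3
    push Not at h3
    have h4 : (a + n) / (2 * (n : ℤ) + 1) - (b + n) / (2 * (n : ℤ) + 1) ≤ -2 := by omega
    nlinarith
  · by_contra h3
    push Not at h3
    have h4 : 2 ≤ (a + n) / (2 * (n : ℤ) + 1) - (b + n) / (2 * (n : ℤ) + 1) := by omega
    nlinarith

theorem bi_adj {n : ℕ} {x y : Vtx} (h : nv (x - y) ≤ 1) : nv (bi n x - bi n y) ≤ 1 := by
  unfold nv at h ⊢
  simp only [Prod.fst_sub, Prod.snd_sub] at h ⊢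
  have h1 := idx_adj (n := n) (a := x.1) (b := y.1) (by rw [abs_le]; omega)
  have h2 := idx_adj (n := n) (a := x.2) (b := y.2) (by rw [abs_le]; omega)
  rw [abs_le] at h1 h2
  unfold bi
  simp only
  omega

theorem bi_zero (n : ℕ) : bi n (0, 0) = (0, 0) := by
  have : ((0, 0) : Vtx) ∈ bq n (0, 0) := by
    rw [mem_bq]; unfold cc nv; simp
  exact (bi_unique this).symm

/-- the colour of a block -/
def col (z : Vtx) : ℤ × ℤ := (z.1 % 3, z.2 % 3)

/-- the colours -/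
noncomputable def cols : Finset (ℤ × ℤ) := Finset.Ico 0 3 ×ˢ Finset.Ico 0 3

theorem col_mem (z : Vtx) : col z ∈ cols := by
  unfold col cols
  rw [mem_product, mem_Ico, mem_Ico]
  omega

theorem card_cols : cols.card = 9 := by
  unfold cols
  rw [card_product]
  rfl

theorem nv_col {z z' : Vtx} (h : col z = col z') (hne : z ≠ z') : 3 ≤ nv (z - z') := by
  unfold col at h
  rw [Prod.mk.injEq] at h
  have h1 : ¬ (z.1 = z'.1 ∧ z.2 = z'.2) := fun h2 => hne (Prod.ext h2.1 h2.2)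
  unfold nv
  simp only [Prod.fst_sub, Prod.snd_sub]
  omega

theorem nv_cc {n : ℕ} {z z' : Vtx} {k : ℕ} (h : k ≤ nv (z - z')) :
    k * (2 * n + 1) ≤ nv (cc n z - cc n z') := by
  have e : nv (cc n z - cc n z') = nv (z - z') * (2 * n + 1) := by
    unfold nv cc
    simp only [Prod.fst_sub, Prod.snd_sub]
    have e2 : (2 * (n : ℤ) + 1).natAbs = 2 * n + 1 := by omega
    rw [← mul_sub, ← mul_sub, Int.natAbs_mul, Int.natAbs_mul, e2, Nat.mul_max_mul_left, mul_comm]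
  rw [e]
  exact Nat.mul_le_mul_right _ h

/-- the edges around the block `z` -/
noncomputable def TT (n : ℕ) (z : Vtx) : Finset Edg := bo (cc n z) (2 * n + 1)

theorem TT_disj {n : ℕ} {z z' : Vtx} (h : col z = col z') (hne : z ≠ z') :
    Disjoint (TT n z) (TT n z') := by
  apply bo_disj
  have := nv_cc (n := n) (nv_col h hne)
  omega

theorem bo_sub {x y : Vtx} {m n : ℕ} (h : nv (x - y) + m ≤ n) : bo x m ⊆ bo y n := by
  unfold nv at h
  simp only [Prod.fst_sub, Prod.snd_sub] at h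
  unfold bo
  apply RE_subset <;> omega

/-! ### local events -/

theorem YY_local {n : ℕ} {z : Vtx} (F : Finset Edg) :
    YY n (bq n z) F = YY n (bq n z) (F ∩ TT n z) := by
  unfold YY
  apply Finset.sum_congr rfl
  intro x hx
  apply ind_congr
  refine LA_loc ?_ F
  apply bo_sub
  rw [mem_bq] at hx
  omega

/-- the annulus around the block `z` is crossed -/
def CB (n : ℕ) (z : Vtx) (F : Finset Edg) : Prop :=
  ¬ Blk (n : ℤ) ((2 * n + 1 : ℕ) : ℤ) (sh (cc n z) F)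

theorem annE_sub' (n m : ℕ) : annE n m ⊆ boxE m := Finset.sdiff_subset

theorem CB_local {n : ℕ} {z : Vtx} (F : Finset Edg) : CB n z F ↔ CB n z (F ∩ TT n z) := by
  unfold CB TT
  rw [sh_inter, sh_bo]
  rw [Blk_local (n := n) (m := 2 * n + 1) (by omega) (annE_sub' _ _) (sh (cc n z) F)]

theorem nblk_mono {R1 R2 : ℤ} {F G : Finset Edg} (h : F ⊆ G) (hF : ¬ Blk R1 R2 F) :
    ¬ Blk R1 R2 G := by
  intro hG
  apply hF
  refine ⟨fun h1 => hG.1 ?_, fun h1 => hG.2 ?_⟩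
  · exact h1.imp (LRc.mono h) (LRc.mono h)
  · exact h1.imp (TBc.mono h) (TBc.mono h)

theorem CB_mono {n : ℕ} {z : Vtx} {F G : Finset Edg} (h : F ⊆ G) (hF : CB n z F) : CB n z G :=
  nblk_mono (sh_mono h) hF

theorem not_blk_of_reach {F : Finset Edg} {R1 R2 : ℤ} (h2 : R1 < R2) {w v : Vtx}
    (hw : inR (-R1) R1 (-R1) R1 w)
    (h : Reach (↑F : Set Edg) w v) (hv : v.1 ≤ -R2 ∨ R2 ≤ v.1 ∨ v.2 ≤ -R2 ∨ R2 ≤ v.2) :
    ¬ Blk R1 R2 F := by
  unfold inR at hw
  obtain ⟨w', k1, k2, k3⟩ := first_exit (a := -R2) (b := R2) (c := -R2) (d := R2)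
    (by unfold inR; omega) h hv
  rintro ⟨hb1, hb2⟩
  rcases k2 with k2 | k2 | k2 | k2
  · apply hb1
    right
    obtain ⟨y1, y2, m1, m2, m3, -⟩ := sub_LR (a := -R2) (b := -R1) (c := -R2) (d := R2) (by omega)
      (by rintro x y ⟨-, h⟩ _ _; simp only [mem_coe, mem_RE_true] at h; omega)
      (by rintro x y ⟨-, h⟩ _ _; simp only [mem_coe, mem_RE_false] at h; omega)
      k3.symm k2.le (show -R1 ≤ w.1 by omega)
    exact ⟨y1, y2, m1, m2, m3.mono (by rintro e ⟨⟨h4, -⟩, h5⟩; exact ⟨h4, h5⟩)⟩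
  · apply hb1
    left
    obtain ⟨y1, y2, m1, m2, m3, -⟩ := sub_LR (a := R1) (b := R2) (c := -R2) (d := R2) (by omega)
      (by rintro x y ⟨-, h⟩ _ _; simp only [mem_coe, mem_RE_true] at h; omega)
      (by rintro x y ⟨-, h⟩ _ _; simp only [mem_coe, mem_RE_false] at h; omega)
      k3 (show w.1 ≤ R1 by omega) k2.ge
    exact ⟨y1, y2, m1, m2, m3.mono (by rintro e ⟨⟨h4, -⟩, h5⟩; exact ⟨h4, h5⟩)⟩
  · apply hb2
    right
    obtain ⟨y1, y2, m1, m2, m3, -⟩ := sub_TB (a := -R2) (b := R2) (c := -R2) (d := -R1) (by omega)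
      (by rintro x y ⟨-, h⟩ _ _; simp only [mem_coe, mem_RE_false] at h; omega)
      (by rintro x y ⟨-, h⟩ _ _; simp only [mem_coe, mem_RE_true] at h; omega)
      k3.symm k2.le (show -R1 ≤ w.2 by omega)
    exact ⟨y1, y2, m1, m2, m3.mono (by rintro e ⟨⟨h4, -⟩, h5⟩; exact ⟨h4, h5⟩)⟩
  · apply hb2
    left
    obtain ⟨y1, y2, m1, m2, m3, -⟩ := sub_TB (a := -R2) (b := R2) (c := R1) (d := R2) (by omega)
      (by rintro x y ⟨-, h⟩ _ _; simp only [mem_coe, mem_RE_false] at h; omega)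
      (by rintro x y ⟨-, h⟩ _ _; simp only [mem_coe, mem_RE_true] at h; omega)
      k3 (show w.2 ≤ R1 by omega) k2.ge
    exact ⟨y1, y2, m1, m2, m3.mono (by rintro e ⟨⟨h4, -⟩, h5⟩; exact ⟨h4, h5⟩)⟩

theorem CB_of_reach {n : ℕ} {z u y : Vtx} {F : Finset Edg} (hu : nv (u - cc n z) ≤ n)
    (hy : 2 * n + 1 ≤ nv (y - cc n z)) (h : Reach (↑F) u y) : CB n z F := by
  unfold CB
  refine not_blk_of_reach (w := u - cc n z) (v := y - cc n z) (by push_cast; omega) ?_ ?_ ?_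
  · unfold nv at hu
    unfold inR
    omega
  · rw [sh_reach, sub_add_cancel, sub_add_cancel]
    exact h
  · unfold nv at hy
    push_cast
    omega

/-! ### probabilities -/

theorem Pr_exists_le {ι : Type*} {p : Edg → ℝ} (hp : Ok p) (S : Finset Edg) (I : Finset ι)
    (A : ι → Finset Edg → Prop) :
    Pr p S (fun F => ∃ i ∈ I, A i F) ≤ ∑ i ∈ I, Pr p S (A i) := by
  unfold Pr
  rw [← Ex_sum]
  apply Ex_mono hp
  intro F _
  by_cases h : ∃ i ∈ I, A i F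
  · rw [ind_of h]
    obtain ⟨i, hi, hA⟩ := h
    calc (1 : ℝ) = ind (A i F) := (ind_of hA).symm
      _ ≤ _ := Finset.single_le_sum (f := fun i => ind (A i F)) (fun _ _ => ind_nonneg _) hi
  · rw [ind_not_of h]
    exact Finset.sum_nonneg fun _ _ => ind_nonneg _

theorem markov_exp {p : Edg → ℝ} (hp : Ok p) (S : Finset Edg) (Y : Finset Edg → ℝ) {l a : ℝ}
    (hl : 0 ≤ l) : Pr p S (fun F => a ≤ Y F) ≤
      Real.exp (-(l * a)) * Ex p S (fun F => Real.exp (l * Y F)) := by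
  unfold Pr
  rw [← Ex_mul_left]
  apply Ex_mono hp
  intro F _
  rw [← Real.exp_add]
  by_cases h : a ≤ Y F
  · rw [ind_of h]
    apply Real.one_le_exp
    nlinarith
  · rw [ind_not_of h]
    positivity

/-- the standing assumptions at the scale `n` -/
structure Sc (q A l : ℝ) (n : ℕ) : Prop where
  h0 : 0 ≤ q
  h1 : q ≤ 1
  hAB : AB q A n
  hl0 : 0 ≤ l
  hl : ∀ z : Vtx, l * DD (2 * A) n (bq n z) ≤ 1 / 2

theorem class_sum {q A l : ℝ} {n : ℕ} (h : Sc q A l n) {Γ : Finset Vtx} {S : Finset Edg}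
    (hS : ∀ z ∈ Γ, TT n z ⊆ S) (hcol : ∀ z ∈ Γ, ∀ z' ∈ Γ, col z = col z') (a : ℝ) :
    Pr (fun _ => q) S (fun F => a ≤ ∑ z ∈ Γ, YY n (bq n z) F) ≤
      Real.exp (-(l * a)) * 2 ^ Γ.card := by
  refine (markov_exp (okq h.h0 h.h1) S _ h.hl0).trans ?_
  apply mul_le_mul_of_nonneg_left _ (Real.exp_pos _).le
  have e : Ex (fun _ => q) S (fun F => Real.exp (l * ∑ z ∈ Γ, YY n (bq n z) F)) =
      ∏ z ∈ Γ, Ex (fun _ => q) S (fun F => Real.exp (l * YY n (bq n z) F)) := by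
    rw [← Ex_indep_prod Γ (fun z F => Real.exp (l * YY n (bq n z) F)) (TT n) hS
      (fun z hz z' hz' hne => TT_disj (hcol z hz z' hz') hne)
      (fun z _ F => by rw [YY_local F])]
    apply Ex_congr
    intro F _
    rw [Finset.mul_sum, Real.exp_sum]
  rw [e]
  calc ∏ z ∈ Γ, Ex (fun _ => q) S (fun F => Real.exp (l * YY n (bq n z) F))
      ≤ ∏ z ∈ Γ, (2 : ℝ) := Finset.prod_le_prod
        (fun _ _ => Ex_nonneg (okq h.h0 h.h1) fun _ _ => (Real.exp_pos _).le)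
        (fun z _ => exp_moment h.h0 h.h1 h.hAB (bq n z) S h.hl0 (h.hl z))
    _ = _ := by rw [Finset.prod_const]

/-- the sum over many blocks -/
theorem all_sum {q A l : ℝ} {n : ℕ} (h : Sc q A l n) {Γ : Finset Vtx} {S : Finset Edg}
    (hS : ∀ z ∈ Γ, TT n z ⊆ S) (a : ℝ) :
    Pr (fun _ => q) S (fun F => a ≤ ∑ z ∈ Γ, YY n (bq n z) F) ≤
      9 * Real.exp (-(l * a / 9)) * 2 ^ Γ.card := by
  have ok := okq h.h0 h.h1
  calc Pr (fun _ => q) S (fun F => a ≤ ∑ z ∈ Γ, YY n (bq n z) F)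
      ≤ Pr (fun _ => q) S (fun F => ∃ c ∈ cols,
          a / 9 ≤ ∑ z ∈ Γ.filter (fun z => col z = c), YY n (bq n z) F) := by
        apply Pr_mono ok
        intro F _ hF
        by_contra hc
        push Not at hc
        have e : ∑ z ∈ Γ, YY n (bq n z) F =
            ∑ c ∈ cols, ∑ z ∈ Γ.filter (fun z => col z = c), YY n (bq n z) F :=
          (Finset.sum_fiberwise_of_maps_to (fun z _ => col_mem z) _).symm
        have h2 : ∑ c ∈ cols, ∑ z ∈ Γ.filter (fun z => col z = c), YY n (bq n z) F <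
            ∑ c ∈ cols, a / 9 := by
          apply Finset.sum_lt_sum_of_nonempty _ hc
          exact ⟨(0, 0), by unfold cols; simp⟩
        rw [Finset.sum_const, card_cols, nsmul_eq_mul, ← e] at h2
        push_cast at h2
        linarith
    _ ≤ ∑ c ∈ cols, Pr (fun _ => q) S (fun F =>
          a / 9 ≤ ∑ z ∈ Γ.filter (fun z => col z = c), YY n (bq n z) F) :=
        Pr_exists_le ok S cols _
    _ ≤ ∑ c ∈ cols, Real.exp (-(l * a / 9)) * 2 ^ Γ.card := by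
        apply Finset.sum_le_sum
        intro c _
        refine (class_sum h (fun z hz => hS z (mem_filter.1 hz).1) (fun z hz z' hz' => ?_) _).trans ?_
        · rw [(mem_filter.1 hz).2, (mem_filter.1 hz').2]
        · rw [mul_div_assoc]
          apply mul_le_mul_of_nonneg_left _ (Real.exp_pos _).le
          exact pow_le_pow_right₀ (by norm_num) (card_filter_le _ _)
    _ = _ := by
        rw [Finset.sum_const, card_cols, nsmul_eq_mul]
        push_cast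
        ring

/-- many crossed annuli -/
theorem all_cross {q ε : ℝ} {n : ℕ} (h0 : 0 ≤ q) (h1 : q ≤ 1) (he0 : 0 ≤ ε) (he1 : ε ≤ 1)
    (hCB : ∀ S, annE n (2 * n + 1) ⊆ S →
      Pr (fun _ => q) S (fun F => ¬ Blk (n : ℤ) ((2 * n + 1 : ℕ) : ℤ) F) ≤ ε ^ 18)
    {Γ : Finset Vtx} {S : Finset Edg} (hS : ∀ z ∈ Γ, TT n z ⊆ S) :
    Pr (fun _ => q) S (fun F => ∀ z ∈ Γ, CB n z F) ≤ ε ^ (2 * Γ.card) := by
  classical
  have ok := okq h0 h1
  have hc : ∃ c ∈ cols, Γ.card ≤ 9 * (Γ.filter (fun z => col z = c)).card := by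
    by_contra hc
    push Not at hc
    have e : Γ.card = ∑ c ∈ cols, (Γ.filter (fun z => col z = c)).card :=
      Finset.card_eq_sum_card_fiberwise (fun z _ => col_mem z)
    have h2 : ∑ c ∈ cols, 9 * (Γ.filter (fun z => col z = c)).card < ∑ c ∈ cols, Γ.card := by
      apply Finset.sum_lt_sum_of_nonempty _ hc
      exact ⟨(0, 0), by unfold cols; simp⟩
    rw [← Finset.mul_sum, ← e, Finset.sum_const, card_cols, smul_eq_mul] at h2
    omega
  obtain ⟨c, _, hc⟩ := hc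
  obtain ⟨Γc, hΓc⟩ : ∃ Γc, Γc = Γ.filter (fun z => col z = c) := ⟨_, rfl⟩
  rw [← hΓc] at hc
  have hsub : Γc ⊆ Γ := by rw [hΓc]; exact filter_subset _ _
  calc Pr (fun _ => q) S (fun F => ∀ z ∈ Γ, CB n z F)
      ≤ Pr (fun _ => q) S (fun F => ∀ z ∈ Γc, CB n z F) :=
        Pr_mono ok fun F _ hF z hz => hF z (hsub hz)
    _ = ∏ z ∈ Γc, Pr (fun _ => q) S (CB n z) := by
        apply indep_prod Γc (fun z => CB n z) (TT n) (fun z hz => hS z (hsub hz))
        · intro z hz z' hz' hne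
          rw [hΓc] at hz hz'
          exact TT_disj (by rw [(mem_filter.1 hz).2, (mem_filter.1 hz').2]) hne
        · intro z _ F
          exact CB_local F
    _ ≤ ∏ z ∈ Γc, ε ^ 18 := by
        apply Finset.prod_le_prod (fun _ _ => Pr_nonneg ok _ _)
        intro z hz
        have e : Pr (fun _ => q) S (CB n z) = Pr (fun _ => q) (sh (cc n z) S)
            (fun F => ¬ Blk (n : ℤ) ((2 * n + 1 : ℕ) : ℤ) F) :=
          ((trl (-(cc n z).1) (-(cc n z).2)).pr q S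
            (fun F => ¬ Blk (n : ℤ) ((2 * n + 1 : ℕ) : ℤ) F)).symm
        rw [e]
        apply hCB
        refine (annE_sub' _ _).trans ?_
        rw [← sh_bo (cc n z) (2 * n + 1)]
        exact sh_mono (hS z (hsub hz))
    _ = ε ^ (18 * Γc.card) := by rw [Finset.prod_const, ← pow_mul]
    _ ≤ ε ^ (2 * Γ.card) := pow_le_pow_of_le_one he0 he1 (by omega)

/-- crossed annuli with many far-reaching vertices -/
theorem pair_est {q A l ε : ℝ} {n : ℕ} (h : Sc q A l n) (he0 : 0 ≤ ε) (he1 : ε ≤ 1)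
    (hCB : ∀ S, annE n (2 * n + 1) ⊆ S →
      Pr (fun _ => q) S (fun F => ¬ Blk (n : ℤ) ((2 * n + 1 : ℕ) : ℤ) F) ≤ ε ^ 18)
    {Γ : Finset Vtx} {S : Finset Edg} (hS : ∀ z ∈ Γ, TT n z ⊆ S) (a : ℝ) :
    Pr (fun _ => q) S (fun F => (∀ z ∈ Γ, CB n z F) ∧ a ≤ ∑ z ∈ Γ, YY n (bq n z) F) ≤
      3 * Real.exp (-(l * a / 18)) * (2 * ε) ^ Γ.card := by
  have ok := okq h.h0 h.h1
  have h1 : Pr (fun _ => q) S (fun F => (∀ z ∈ Γ, CB n z F) ∧ a ≤ ∑ z ∈ Γ, YY n (bq n z) F) ≤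
      ε ^ (2 * Γ.card) := (Pr_mono ok fun F _ hF => hF.1).trans (all_cross h.h0 h.h1 he0 he1 hCB hS)
  have h2 : Pr (fun _ => q) S (fun F => (∀ z ∈ Γ, CB n z F) ∧ a ≤ ∑ z ∈ Γ, YY n (bq n z) F) ≤
      9 * Real.exp (-(l * a / 9)) * 2 ^ Γ.card :=
    (Pr_mono ok fun F _ hF => hF.2).trans (all_sum h hS a)
  obtain ⟨x, hx⟩ : ∃ x, x = Pr (fun _ => q) S
    (fun F => (∀ z ∈ Γ, CB n z F) ∧ a ≤ ∑ z ∈ Γ, YY n (bq n z) F) := ⟨_, rfl⟩
  rw [← hx] at h1 h2 ⊢
  have hx0 : 0 ≤ x := by rw [hx]; exact Pr_nonneg ok _ _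
  have he : Real.exp (-(l * a / 9)) = Real.exp (-(l * a / 18)) ^ 2 := by
    rw [← Real.exp_nat_mul]; congr 1; push_cast; ring
  have hE := Real.exp_pos (-(l * a / 18))
  have h3 : x ^ 2 ≤ (3 * Real.exp (-(l * a / 18)) * (2 * ε) ^ Γ.card) ^ 2 := by
    calc x ^ 2 = x * x := sq x
      _ ≤ ε ^ (2 * Γ.card) * (9 * Real.exp (-(l * a / 9)) * 2 ^ Γ.card) :=
          mul_le_mul h1 h2 hx0 (by positivity)
      _ ≤ ε ^ (2 * Γ.card) * (9 * Real.exp (-(l * a / 9)) * (2 ^ Γ.card) ^ 2) := by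
          apply mul_le_mul_of_nonneg_left _ (by positivity)
          apply mul_le_mul_of_nonneg_left _ (by positivity)
          have : (1 : ℝ) ≤ 2 ^ Γ.card := one_le_pow₀ (by norm_num)
          nlinarith
      _ = _ := by rw [he, mul_pow 2 ε, pow_mul']; ring
  exact le_of_sq_le_sq' hx0 h3 (by positivity)
where
  le_of_sq_le_sq' {x y : ℝ} (_hx : 0 ≤ x) (h : x ^ 2 ≤ y ^ 2) (hy : 0 ≤ y) : x ≤ y :=
    (abs_le_of_sq_le_sq' h hy).2

end Pool.Agent.N952.CS
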