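import Pool.Agent.N952.CS.Super

/-!
Finite clusters at and above the critical point: upper bound.
-/

set_option autoImplicit false

namespace Pool.Agent.N952.CS
open Finset H974 Pool.Agent.H160R2.CV Pool.Agent.H160R2.CV.Quad Pool.Agent.Y244.PC

theorem VolAt_le {a b : ℝ} (h : a ≤ b) {x : Vtx} {F : Finset Edg} (hF : VolAt b x F) :
    VolAt a x F := by
  obtain ⟨T, h1, h2⟩ := hF
  exact ⟨T, h.trans h1, h2⟩

/-- the volume of the finite clusters at and above the critical point -/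
theorem upper_sup : ∃ c C : ℝ, 0 < c ∧ 0 < C ∧ ∀ q : ℝ, 1 / 2 ≤ q → q ≤ 1 → ∀ a : ℝ, 1 ≤ a →
    ∀ M : ℕ, ∃ M0 : ℕ, ∀ S : Finset Edg, boxE M0 ⊆ S →
    Pr (fun _ => q) S (fun F => VolAt a (0, 0) F ∧ ¬ Far (0, 0) M F) ≤
      C * a ^ (-(5 / 91) : ℝ) *
        Real.exp (-(c * (a * (q - 1 / 2) ^ (91 / 36 : ℝ)) ^ (1 / 2 : ℝ))) := by
  obtain ⟨A, hA1, hA⟩ := ab_up (K := 12) (by norm_num)
  obtain ⟨cl, Cl, hcl, hCl, hlong⟩ := sup_long
  obtain ⟨cs, Cs, hcs, hCs, hsub⟩ := upper_sub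
  obtain ⟨B, hB⟩ : ∃ B : ℝ, B = 1555200 * A := ⟨_, rfl⟩
  have hB1 : 1 ≤ B := by rw [hB]; linarith
  obtain ⟨c2, hc2⟩ : ∃ c2 : ℝ, c2 = cl * (2 / 3) * (1 / (172800 * A)) ^ (1 / 2 : ℝ) := ⟨_, rfl⟩
  have hc20 : 0 < c2 := by rw [hc2]; positivity
  obtain ⟨c1, hc1⟩ : ∃ c1 : ℝ, c1 = min (1 / (76800 * A)) c2 := ⟨_, rfl⟩
  have hc10 : 0 < c1 := by rw [hc1]; exact lt_min (by positivity) hc20
  have hc1a : c1 ≤ 1 / (76800 * A) := by rw [hc1]; exact min_le_left _ _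
  have hc1b : c1 ≤ c2 := by rw [hc1]; exact min_le_right _ _
  obtain ⟨c, hc⟩ : ∃ c : ℝ, c = c1 / 2 * (1 / (3 : ℝ) ^ (91 / 48 : ℝ)) ^ (1 / 2 : ℝ) := ⟨_, rfl⟩
  have hc0 : 0 < c := by rw [hc]; positivity
  obtain ⟨D, hD⟩ : ∃ D : ℝ, D = 1280000 * A ^ 2 + 200 * A + Cl * A := ⟨_, rfl⟩
  have hD0 : 0 < D := by rw [hD]; positivity
  refine ⟨c, Cs + 400000 * A ^ 2 * B * Real.exp (c * (9 * B)) + D * (2 / c1), hc0,
    by positivity, ?_⟩
  intro q h0 h1 a ha M
  have hq0 : 0 ≤ q := by linarith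
  have ok := okq hq0 h1
  have ha0 : 0 < a := by linarith
  have hap : 0 < a ^ (-(5 / 91) : ℝ) := by positivity
  rcases eq_or_lt_of_le h0 with heq | hlt
  · refine ⟨0, fun S _ => ?_⟩
    have h2 := hsub q hq0 heq.symm.le a ha S
    have e : (1 / 2 - q) ^ (91 / 36 : ℝ) = 0 := by
      rw [← heq, sub_self]
      exact Real.zero_rpow (by norm_num)
    have e' : (q - 1 / 2) ^ (91 / 36 : ℝ) = 0 := by
      rw [← heq, sub_self]
      exact Real.zero_rpow (by norm_num)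
    rw [e, mul_zero, mul_zero, neg_zero, Real.exp_zero, mul_one] at h2
    rw [e', mul_zero, Real.zero_rpow (by norm_num), mul_zero, neg_zero, Real.exp_zero, mul_one]
    refine (Pr_mono ok fun F _ hF => hF.1).trans (h2.trans ?_)
    apply mul_le_mul_of_nonneg_right _ hap.le
    have : 0 ≤ 400000 * A ^ 2 * B * Real.exp (c * (9 * B)) + D * (2 / c1) := by positivity
    linarith
  obtain ⟨t, ht⟩ : ∃ t : ℝ, t = q - 1 / 2 := ⟨_, rfl⟩
  rw [← ht]
  have ht0 : 0 < t := by rw [ht]; linarith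
  have ht1 : t ≤ 1 := by rw [ht]; linarith
  have htp : 0 < t ^ (4 / 3 : ℝ) := by positivity
  have htp1 : t ^ (4 / 3 : ℝ) ≤ 1 := Real.rpow_le_one ht0.le ht1 (by norm_num)
  have htn : t ^ (-(4 / 3) : ℝ) * t ^ (4 / 3 : ℝ) = 1 := by
    rw [← Real.rpow_add ht0]; norm_num
  obtain ⟨n, hn⟩ : ∃ n : ℕ, n = ⌈t ^ (-(4 / 3) : ℝ)⌉₊ := ⟨_, rfl⟩
  have hn1 : t ^ (-(4 / 3) : ℝ) ≤ n := by rw [hn]; exact Nat.le_ceil _
  have hn2 : (n : ℝ) < t ^ (-(4 / 3) : ℝ) + 1 := by rw [hn]; exact Nat.ceil_lt_add_one (by positivity)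
  have hnt : 1 ≤ (n : ℝ) * t ^ (4 / 3 : ℝ) := by
    rw [← htn]; exact mul_le_mul_of_nonneg_right hn1 htp.le
  obtain ⟨X, hX⟩ : ∃ X : ℝ, X = (n : ℝ) + 1 := ⟨_, rfl⟩
  have hn0 : (0 : ℝ) ≤ n := by positivity
  have hX1 : 1 ≤ X := by rw [hX]; linarith
  have hX0 : 0 < X := by linarith
  have hXt : X * t ^ (4 / 3 : ℝ) ≤ 3 := by
    have h2 : X ≤ t ^ (-(4 / 3) : ℝ) + 2 := by rw [hX]; linarith
    calc X * t ^ (4 / 3 : ℝ) ≤ (t ^ (-(4 / 3) : ℝ) + 2) * t ^ (4 / 3 : ℝ) :=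
          mul_le_mul_of_nonneg_right h2 htp.le
      _ = 1 + 2 * t ^ (4 / 3 : ℝ) := by rw [add_mul, htn]
      _ ≤ 3 := by linarith
  have hAB : AB q A (4 * n + 2) := by
    apply hA q h0 h1
    rw [← ht]
    have h2 : ((4 * n + 2 : ℕ) : ℝ) ≤ 4 * X := by rw [hX]; push_cast; linarith
    calc ((4 * n + 2 : ℕ) : ℝ) * t ^ (4 / 3 : ℝ) ≤ 4 * X * t ^ (4 / 3 : ℝ) :=
          mul_le_mul_of_nonneg_right h2 htp.le
      _ ≤ 12 := by linarith
  have hABn : AB q A n := fun m hm => hAB m (by omega)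
  have hABn1 : AB q A (n + 1) := fun m hm => hAB m (by omega)
  have hXs : 0 < X ^ (91 / 48 : ℝ) := by positivity
  have hXs1 : 1 ≤ X ^ (91 / 48 : ℝ) := Real.one_le_rpow hX1 (by norm_num)
  have h3s : (3 : ℝ) ^ (91 / 48 : ℝ) ≤ 9 := by
    calc (3 : ℝ) ^ (91 / 48 : ℝ) ≤ (3 : ℝ) ^ (2 : ℝ) :=
          Real.rpow_le_rpow_of_exponent_le (by norm_num) (by norm_num)
      _ = 9 := by norm_num
  rcases le_or_gt a (B * X ^ (91 / 48 : ℝ)) with hcase | hcase
  · -- up to the correlation length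
    refine ⟨0, fun S _ => ?_⟩
    obtain ⟨a', ha'⟩ : ∃ a' : ℝ, a' = min a (X ^ (91 / 48 : ℝ)) := ⟨_, rfl⟩
    have ha'1 : 1 ≤ a' := by rw [ha']; exact le_min ha hXs1
    have ha'2 : a' ≤ X ^ (91 / 48 : ℝ) := by rw [ha']; exact min_le_right _ _
    have ha'3 : a' ≤ a := by rw [ha']; exact min_le_left _ _
    have ha'4 : a / B ≤ a' := by
      rw [ha']
      apply le_min
      · exact div_le_self ha0.le hB1
      · rw [div_le_iff₀ (by linarith)]
        linarith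
    have h2 := single hq0 h1 hABn1 S ha'1 (by push_cast; rw [← hX]; exact ha'2)
    have h3 : a' ^ (-(5 / 91) : ℝ) ≤ B * a ^ (-(5 / 91) : ℝ) := by
      calc a' ^ (-(5 / 91) : ℝ) ≤ (a / B) ^ (-(5 / 91) : ℝ) :=
            Real.rpow_le_rpow_of_nonpos (by positivity) ha'4 (by norm_num)
        _ = a ^ (-(5 / 91) : ℝ) * B ^ (5 / 91 : ℝ) := by
            rw [Real.div_rpow ha0.le (by linarith), Real.rpow_neg (by linarith : (0 : ℝ) ≤ B),
              div_inv_eq_mul]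
        _ ≤ a ^ (-(5 / 91) : ℝ) * B := by
            apply mul_le_mul_of_nonneg_left _ hap.le
            calc B ^ (5 / 91 : ℝ) ≤ B ^ (1 : ℝ) :=
                  Real.rpow_le_rpow_of_exponent_le hB1 (by norm_num)
              _ = B := Real.rpow_one B
        _ = _ := by ring
    have h4 : a * t ^ (91 / 36 : ℝ) ≤ 9 * B := by
      have h5 : t ^ (91 / 36 : ℝ) = (t ^ (4 / 3 : ℝ)) ^ (91 / 48 : ℝ) := by
        rw [← Real.rpow_mul ht0.le]; norm_num
      calc a * t ^ (91 / 36 : ℝ) ≤ B * X ^ (91 / 48 : ℝ) * t ^ (91 / 36 : ℝ) :=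
            mul_le_mul_of_nonneg_right hcase (by positivity)
        _ = B * (X * t ^ (4 / 3 : ℝ)) ^ (91 / 48 : ℝ) := by
            rw [h5, Real.mul_rpow hX0.le (by positivity)]; ring
        _ ≤ B * (3 : ℝ) ^ (91 / 48 : ℝ) := by
            apply mul_le_mul_of_nonneg_left _ (by linarith)
            exact Real.rpow_le_rpow (by positivity) hXt (by norm_num)
        _ ≤ B * 9 := mul_le_mul_of_nonneg_left h3s (by linarith)
        _ = _ := by ring
    have h5 : (a * t ^ (91 / 36 : ℝ)) ^ (1 / 2 : ℝ) ≤ 9 * B := by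
      calc (a * t ^ (91 / 36 : ℝ)) ^ (1 / 2 : ℝ) ≤ (9 * B) ^ (1 / 2 : ℝ) :=
            Real.rpow_le_rpow (by positivity) h4 (by norm_num)
        _ ≤ (9 * B) ^ (1 : ℝ) :=
            Real.rpow_le_rpow_of_exponent_le (by linarith) (by norm_num)
        _ = 9 * B := Real.rpow_one _
    have h6 : 1 ≤ Real.exp (c * (9 * B)) *
        Real.exp (-(c * (a * t ^ (91 / 36 : ℝ)) ^ (1 / 2 : ℝ))) := by
      rw [← Real.exp_add]
      apply Real.one_le_exp
      nlinarith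
    calc Pr (fun _ => q) S (fun F => VolAt a (0, 0) F ∧ ¬ Far (0, 0) M F)
        ≤ Pr (fun _ => q) S (VolAt a' (0, 0)) :=
          Pr_mono ok fun F _ hF => VolAt_le ha'3 hF.1
      _ ≤ 400000 * A ^ 2 * a' ^ (-(5 / 91) : ℝ) := h2
      _ ≤ 400000 * A ^ 2 * (B * a ^ (-(5 / 91) : ℝ)) :=
          mul_le_mul_of_nonneg_left h3 (by positivity)
      _ = 400000 * A ^ 2 * (B * a ^ (-(5 / 91) : ℝ)) * 1 := by ring
      _ ≤ 400000 * A ^ 2 * (B * a ^ (-(5 / 91) : ℝ)) * (Real.exp (c * (9 * B)) *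
          Real.exp (-(c * (a * t ^ (91 / 36 : ℝ)) ^ (1 / 2 : ℝ)))) :=
          mul_le_mul_of_nonneg_left h6 (by positivity)
      _ = 400000 * A ^ 2 * B * Real.exp (c * (9 * B)) * a ^ (-(5 / 91) : ℝ) *
          Real.exp (-(c * (a * t ^ (91 / 36 : ℝ)) ^ (1 / 2 : ℝ))) := by ring
      _ ≤ _ := by
          apply mul_le_mul_of_nonneg_right _ (Real.exp_pos _).le
          apply mul_le_mul_of_nonneg_right _ hap.le
          have : 0 ≤ D * (2 / c1) := by positivity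
          linarith
  · -- beyond the correlation length
    have haX : X ^ (91 / 48 : ℝ) ≤ a := by nlinarith
    have ha1 : 1 < a := by nlinarith
    obtain ⟨y, hy⟩ : ∃ y : ℝ, y = a / X ^ (91 / 48 : ℝ) := ⟨_, rfl⟩
    have hyB : B < y := by rw [hy, lt_div_iff₀ hXs]; exact hcase
    have hy1 : 1 ≤ y := by linarith
    have hy12 : y ^ (1 / 2 : ℝ) ≤ y := by
      calc y ^ (1 / 2 : ℝ) ≤ y ^ (1 : ℝ) := Real.rpow_le_rpow_of_exponent_le hy1 (by norm_num)
        _ = y := Real.rpow_one y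
    have hyp : 0 ≤ y ^ (1 / 2 : ℝ) := by positivity
    have hr := rate_ge hA1 n
    rw [← hX] at hr
    obtain ⟨w, hw⟩ : ∃ w : ℝ, w = rate A n * a / 600 := ⟨_, rfl⟩
    have hwy : 1 / (172800 * A) * y ≤ w := by
      have h2 : 1 / (288 * A * X ^ (91 / 48 : ℝ)) * a ≤ rate A n * a :=
        mul_le_mul_of_nonneg_right hr ha0.le
      have h3 : 1 / (172800 * A) * y = 1 / (288 * A * X ^ (91 / 48 : ℝ)) * a / 600 := by
        rw [hy]; field_simp; norm_num
      rw [h3, hw]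
      linarith
    have hw9 : 9 ≤ w := by
      refine le_trans ?_ hwy
      rw [one_div, ← div_eq_inv_mul, le_div_iff₀ (by positivity)]
      rw [hB] at hyB
      linarith
    have hsq : 3 ≤ Real.sqrt w := by
      rw [show (3 : ℝ) = Real.sqrt 9 by rw [show (9 : ℝ) = 3 ^ 2 by norm_num]; exact (Real.sqrt_sq (by norm_num)).symm]
      exact Real.sqrt_le_sqrt hw9
    obtain ⟨L, hL⟩ : ∃ L : ℕ, L = ⌊Real.sqrt w⌋₊ := ⟨_, rfl⟩
    have hL1 : (L : ℝ) ≤ Real.sqrt w := by rw [hL]; exact Nat.floor_le (Real.sqrt_nonneg _)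
    have hL2 : Real.sqrt w < (L : ℝ) + 1 := by rw [hL]; exact Nat.lt_floor_add_one _
    have hL3 : 3 ≤ L := by rw [hL]; exact Nat.le_floor (by exact_mod_cast hsq)
    have hL0 : (0 : ℝ) ≤ L := by positivity
    have hLw : (L : ℝ) ^ 2 ≤ rate A n * a / 600 := by
      rw [← hw]
      calc (L : ℝ) ^ 2 ≤ Real.sqrt w ^ 2 := pow_le_pow_left₀ hL0 hL1 2
        _ = w := Real.sq_sqrt (by linarith)
    have hN1 : 2 ≤ n * L := by
      have h2 : 1 ≤ n := by
        have : (0 : ℝ) < n := by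
          by_contra hc
          have h3 : (n : ℝ) = 0 := le_antisymm (not_lt.1 hc) hn0
          rw [h3, zero_mul] at hnt
          linarith
        exact_mod_cast this
      nlinarith
    have hN1t : (L : ℝ) ≤ ((n * L : ℕ) : ℝ) * t ^ (4 / 3 : ℝ) := by
      push_cast
      nlinarith
    have hN1t' : 1 ≤ ((n * L : ℕ) : ℝ) * (q - 1 / 2) ^ (4 / 3 : ℝ) := by
      rw [← ht]
      have : (3 : ℝ) ≤ L := by exact_mod_cast hL3
      linarith
    obtain ⟨M0, hM0⟩ := hlong q A n h0 h1 hABn (n * L) hN1 hN1t' M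
    refine ⟨max M0 ((2 * n + 1) * L), fun S hS => ?_⟩
    have hlongS := hM0 S ((boxE_mono (le_max_left _ _)).trans hS)
    have hmid := sup_mid hq0 h1 hABn hL3 hLw ((boxE_mono (le_max_right _ _)).trans hS)
    have hnear := near_part hq0 h1 hAB S ha1 (by rw [← hX]; exact haX)
    rw [← hX] at hnear hmid hlongS
    rw [← ht] at hlongS
    obtain ⟨W, hW⟩ : ∃ W : ℝ, W = Real.exp (-(c1 * y ^ (1 / 2 : ℝ))) := ⟨_, rfl⟩
    have hXp : 0 < X ^ (-(5 / 48) : ℝ) := by positivity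
    have k1 : Real.exp (-(a / (76800 * A * X ^ (91 / 48 : ℝ)))) ≤ W := by
      rw [hW]
      apply Real.exp_le_exp.2
      rw [neg_le_neg_iff]
      have h2 : a / (76800 * A * X ^ (91 / 48 : ℝ)) = 1 / (76800 * A) * y := by
        rw [hy]; field_simp
      rw [h2]
      calc c1 * y ^ (1 / 2 : ℝ) ≤ 1 / (76800 * A) * y ^ (1 / 2 : ℝ) :=
            mul_le_mul_of_nonneg_right hc1a hyp
        _ ≤ _ := mul_le_mul_of_nonneg_left hy12 (by positivity)
    have k2 : Real.exp (-(rate A n * a / 36)) ≤ W := by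
      refine le_trans ?_ k1
      apply Real.exp_le_exp.2
      rw [neg_le_neg_iff]
      have h2 : 1 / (288 * A * X ^ (91 / 48 : ℝ)) * a ≤ rate A n * a :=
        mul_le_mul_of_nonneg_right hr ha0.le
      have h3 : a / (76800 * A * X ^ (91 / 48 : ℝ)) =
          10368 / 76800 * (1 / (288 * A * X ^ (91 / 48 : ℝ)) * a / 36) := by
        field_simp; norm_num
      have h4 : 0 ≤ 1 / (288 * A * X ^ (91 / 48 : ℝ)) * a / 36 := by positivity
      rw [h3]
      nlinarith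
    have k3 : Real.exp (-(cl * (((n * L : ℕ) : ℝ) * t ^ (4 / 3 : ℝ)))) ≤ W := by
      rw [hW]
      apply Real.exp_le_exp.2
      rw [neg_le_neg_iff]
      have h2 : Real.sqrt w * (2 / 3) ≤ L := by linarith
      have h3 : (1 / (172800 * A)) ^ (1 / 2 : ℝ) * y ^ (1 / 2 : ℝ) ≤ Real.sqrt w := by
        rw [← Real.mul_rpow (by positivity) (by linarith), ← Real.sqrt_eq_rpow]
        exact Real.sqrt_le_sqrt hwy
      calc c1 * y ^ (1 / 2 : ℝ) ≤ c2 * y ^ (1 / 2 : ℝ) := mul_le_mul_of_nonneg_right hc1b hyp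
        _ = cl * ((1 / (172800 * A)) ^ (1 / 2 : ℝ) * y ^ (1 / 2 : ℝ) * (2 / 3)) := by
            rw [hc2]; ring
        _ ≤ cl * (Real.sqrt w * (2 / 3)) := by
            apply mul_le_mul_of_nonneg_left _ hcl.le
            exact mul_le_mul_of_nonneg_right h3 (by norm_num)
        _ ≤ cl * L := mul_le_mul_of_nonneg_left h2 hcl.le
        _ ≤ _ := mul_le_mul_of_nonneg_left hN1t hcl.le
    have hconv := conv (r := 1 / 2) hX0 haX ht0.le (by norm_num : (0 : ℝ) < 3) hXt hc10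
      (by norm_num)
    rw [← hy, ← hW] at hconv
    have e7 : c1 / 2 * ((1 / (3 : ℝ) ^ (91 / 48 : ℝ)) ^ (1 / 2 : ℝ) *
        (a * t ^ (91 / 36 : ℝ)) ^ (1 / 2 : ℝ)) = c * (a * t ^ (91 / 36 : ℝ)) ^ (1 / 2 : ℝ) := by
      rw [hc]; ring
    rw [e7] at hconv
    have hW0 : 0 < W := by rw [hW]; exact Real.exp_pos _
    calc Pr (fun _ => q) S (fun F => VolAt a (0, 0) F ∧ ¬ Far (0, 0) M F)
        ≤ Pr (fun _ => q) S (fun F => (VolAt a (0, 0) F ∧ ¬ Far (0, 0) (4 * n + 2) F) ∨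
            ((VolAt a (0, 0) F ∧ Far (0, 0) (4 * n + 2) F ∧ ¬ Far (0, 0) ((2 * n + 1) * L) F) ∨
            (LA (0, 0) n F ∧ Far (0, 0) (2 * (n * L)) F ∧ ¬ Far (0, 0) M F))) := by
          apply Pr_mono ok
          rintro F _ ⟨hV, hM⟩
          by_cases h2 : Far (0, 0) (4 * n + 2) F
          · by_cases h3 : Far (0, 0) ((2 * n + 1) * L) F
            · right; right
              refine ⟨LA_of_far (by omega) h2, Far_anti ?_ h3, hM⟩
              nlinarith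
            · right; left
              exact ⟨hV, h2, h3⟩
          · left
            exact ⟨hV, h2⟩
      _ ≤ _ := Pr_or_le ok S _ _
      _ ≤ 1280000 * A ^ 2 * X ^ (-(5 / 48) : ℝ) * W +
          (200 * A * X ^ (-(5 / 48) : ℝ) * W + Cl * A * X ^ (-(5 / 48) : ℝ) * W) := by
          apply add_le_add
          · exact hnear.trans (mul_le_mul_of_nonneg_left k1 (by positivity))
          · refine (Pr_or_le ok S _ _).trans (add_le_add ?_ ?_)
            · exact hmid.trans (mul_le_mul_of_nonneg_left k2 (by positivity))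
            · exact hlongS.trans (mul_le_mul_of_nonneg_left k3 (by positivity))
      _ = D * (X ^ (-(5 / 48) : ℝ) * W) := by rw [hD]; ring
      _ ≤ D * (2 / c1 * (a ^ (-(5 / 91) : ℝ) *
          Real.exp (-(c * (a * t ^ (91 / 36 : ℝ)) ^ (1 / 2 : ℝ))))) :=
          mul_le_mul_of_nonneg_left hconv hD0.le
      _ = D * (2 / c1) * a ^ (-(5 / 91) : ℝ) *
          Real.exp (-(c * (a * t ^ (91 / 36 : ℝ)) ^ (1 / 2 : ℝ))) := by ring
      _ ≤ _ := by
          apply mul_le_mul_of_nonneg_right _ (Real.exp_pos _).le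
          apply mul_le_mul_of_nonneg_right _ hap.le
          have : 0 ≤ 400000 * A ^ 2 * B * Real.exp (c * (9 * B)) := by positivity
          linarith

end Pool.Agent.N952.CS
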