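import Pool.Agent.N952.CS.Row
import Pool.Agent.N952.CS.SupUp

/-!
The volume of the cluster at and below the critical point: lower bound.
-/

set_option autoImplicit false

namespace Pool.Agent.N952.CS
open Finset H974 Pool.Agent.H160R2.CV Pool.Agent.H160R2.CV.Quad Pool.Agent.Y244.PC

theorem four_pow_le : (4 : ℝ) ^ (5 / 48 : ℝ) ≤ 2 := by
  calc (4 : ℝ) ^ (5 / 48 : ℝ) ≤ (4 : ℝ) ^ (1 / 2 : ℝ) :=
        Real.rpow_le_rpow_of_exponent_le (by norm_num) (by norm_num)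
    _ = 2 := by
        rw [← Real.sqrt_eq_rpow, show (4 : ℝ) = 2 ^ 2 by norm_num]
        exact Real.sqrt_sq (by norm_num)

theorem four_mul_pow {x : ℝ} (hx : 0 < x) :
    x ^ (-(5 / 48) : ℝ) / 2 ≤ (4 * x) ^ (-(5 / 48) : ℝ) := by
  rw [Real.mul_rpow (by norm_num) hx.le, Real.rpow_neg (by norm_num : (0 : ℝ) ≤ 4),
    inv_mul_eq_div]
  apply div_le_div_of_nonneg_left (by positivity) (by positivity) four_pow_le

/-- the volume of the cluster at and below the critical point, lower bound -/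
theorem lower_sub : ∃ c C : ℝ, 0 < c ∧ 0 < C ∧ ∀ q : ℝ, 1 / 4 ≤ q → q ≤ 1 / 2 → ∀ a : ℝ, 1 ≤ a →
    ∃ M0 : ℕ, ∀ S : Finset Edg, boxE M0 ⊆ S →
    c * a ^ (-(5 / 91) : ℝ) * Real.exp (-(C * (a * (1 / 2 - q) ^ (91 / 36 : ℝ)))) ≤
      Pr (fun _ => q) S (VolAt a (0, 0)) := by
  obtain ⟨κ, a0, C0, hκ, ha0, hC0, hnear⟩ := Pool.Agent.W424.NC.nearG
  obtain ⟨A, hA1, hA⟩ := ab_low
  obtain ⟨b, hb⟩ : ∃ b : ℝ, b = min (a0 / 2) 1 := ⟨_, rfl⟩
  have hb0 : 0 < b := by rw [hb]; exact lt_min (by positivity) one_pos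
  have hb1 : b ≤ 1 := by rw [hb]; exact min_le_right _ _
  have hba : b ≤ a0 / 2 := by rw [hb]; exact min_le_left _ _
  have hκ1 : κ ≤ 1 / 2 := by
    obtain ⟨m, -, -, hW, -⟩ := hnear (1 / 2) 1 (by norm_num) (by norm_num) (le_refl _)
    exact hW.kle
  obtain ⟨c2, hc2⟩ : ∃ c2 : ℝ, c2 = b ^ 2 / (10368 * A ^ 2) := ⟨_, rfl⟩
  have hc20 : 0 < c2 := by rw [hc2]; positivity
  have hc21 : c2 ≤ 1 := by
    rw [hc2, div_le_one (by positivity)]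
    nlinarith [sq_nonneg A]
  obtain ⟨l1, hl1⟩ : ∃ l1 : ℝ, l1 = Real.log (1 / κ) := ⟨_, rfl⟩
  obtain ⟨l2, hl2⟩ : ∃ l2 : ℝ, l2 = Real.log (1 / (κ ^ 4 * c2)) := ⟨_, rfl⟩
  have hl10 : 0 ≤ l1 := by
    rw [hl1]; apply Real.log_nonneg
    rw [le_div_iff₀ hκ]; linarith
  have hκc : κ ^ 4 * c2 ≤ 1 := by
    have : κ ^ 4 ≤ 1 := pow_le_one₀ hκ.le (by linarith)
    nlinarith
  have hl20 : 0 ≤ l2 := by
    rw [hl2]; apply Real.log_nonneg
    rw [le_div_iff₀ (by positivity)]; linarith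
  obtain ⟨Λ, hΛ⟩ : ∃ Λ : ℝ, Λ = 6 * l1 + l2 := ⟨_, rfl⟩
  have hΛ0 : 0 ≤ Λ := by rw [hΛ]; positivity
  obtain ⟨D, hD⟩ : ∃ D : ℝ, D = 2 * C0 ^ (91 / 48 : ℝ) / b := ⟨_, rfl⟩
  have hD0 : 0 < D := by rw [hD]; positivity
  refine ⟨b ^ 2 / 8 * κ * Real.exp (-(2 * Λ)), Λ * D + 1, by positivity, by positivity, ?_⟩
  intro q h0 h1 a ha
  have hq0 : 0 ≤ q := by linarith
  obtain ⟨t, ht⟩ : ∃ t : ℝ, t = 1 / 2 - q := ⟨_, rfl⟩
  have ht0 : 0 ≤ t := by rw [ht]; linarith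
  rw [← ht]
  have hx1 : 1 ≤ 2 * a / b := by rw [le_div_iff₀ hb0]; linarith
  obtain ⟨n, hn⟩ : ∃ n : ℕ, n = ⌈(2 * a / b) ^ (48 / 91 : ℝ)⌉₊ := ⟨_, rfl⟩
  have hn1 : (2 * a / b) ^ (48 / 91 : ℝ) ≤ n := by rw [hn]; exact Nat.le_ceil _
  have hn2 : (n : ℝ) < (2 * a / b) ^ (48 / 91 : ℝ) + 1 := by
    rw [hn]; exact Nat.ceil_lt_add_one (by positivity)
  have hx2 : 1 ≤ (2 * a / b) ^ (48 / 91 : ℝ) := Real.one_le_rpow hx1 (by norm_num)
  have hn3 : 1 ≤ n := by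
    have : (1 : ℝ) ≤ n := hx2.trans hn1
    exact_mod_cast this
  have hn4 : 2 * a / b ≤ (n : ℝ) ^ (91 / 48 : ℝ) := by
    calc 2 * a / b = ((2 * a / b) ^ (48 / 91 : ℝ)) ^ (91 / 48 : ℝ) := by
          rw [← Real.rpow_mul (by positivity)]; norm_num
      _ ≤ _ := Real.rpow_le_rpow (by positivity) hn1 (by norm_num)
  obtain ⟨m, hm1, hmn, hW, harm, hcase⟩ := hnear q n h0 h1 hn3
  have hm0 : (0 : ℝ) < m := by exact_mod_cast hm1
  have hm1' : (1 : ℝ) ≤ m := by exact_mod_cast hm1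
  have hms : 0 < (m : ℝ) ^ (91 / 48 : ℝ) := by positivity
  obtain ⟨M, hM⟩ : ∃ M : ℕ, M = ⌈2 * a / (b * (m : ℝ) ^ (91 / 48 : ℝ))⌉₊ := ⟨_, rfl⟩
  have hMge : 2 * a / (b * (m : ℝ) ^ (91 / 48 : ℝ)) ≤ M := by rw [hM]; exact Nat.le_ceil _
  have hM1 : 1 ≤ M := by
    rw [hM]; exact Nat.one_le_ceil_iff.2 (by positivity)
  have hMle : (M : ℝ) ≤ D * (a * t ^ (91 / 36 : ℝ)) + 1 := by
    rcases hcase with rfl | hcase
    · have h2 : 2 * a / (b * (m : ℝ) ^ (91 / 48 : ℝ)) ≤ 1 := by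
        rw [div_le_one (by positivity)]
        rw [div_le_iff₀ hb0] at hn4
        linarith
      have h3 : M ≤ 1 := by rw [hM]; exact Nat.ceil_le.2 (by exact_mod_cast h2)
      have h4 : (M : ℝ) ≤ 1 := by exact_mod_cast h3
      have h5 : 0 ≤ D * (a * t ^ (91 / 36 : ℝ)) := by positivity
      linarith
    · have h2 : (M : ℝ) < 2 * a / (b * (m : ℝ) ^ (91 / 48 : ℝ)) + 1 := by
        rw [hM]; exact Nat.ceil_lt_add_one (by positivity)
      have h3 : 1 ≤ C0 ^ (91 / 48 : ℝ) * ((m : ℝ) ^ (91 / 48 : ℝ) * t ^ (91 / 36 : ℝ)) := by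
        have h4 : t ^ (91 / 36 : ℝ) = (t ^ (4 / 3 : ℝ)) ^ (91 / 48 : ℝ) := by
          rw [← Real.rpow_mul ht0]; norm_num
        rw [h4, ← Real.mul_rpow hm0.le (by positivity), ← Real.mul_rpow hC0.le (by positivity)]
        apply Real.one_le_rpow _ (by norm_num)
        rw [← ht] at hcase
        exact hcase
      have h5 : 2 * a / (b * (m : ℝ) ^ (91 / 48 : ℝ)) ≤ D * (a * t ^ (91 / 36 : ℝ)) := by
        rw [div_le_iff₀ (by positivity)]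
        calc 2 * a = 2 * a * 1 := by ring
          _ ≤ 2 * a * (C0 ^ (91 / 48 : ℝ) * ((m : ℝ) ^ (91 / 48 : ℝ) * t ^ (91 / 36 : ℝ))) :=
              mul_le_mul_of_nonneg_left h3 (by linarith)
          _ = _ := by rw [hD]; field_simp
      linarith
  -- the arms
  have harm4 : b * ((m : ℝ) + 1) ^ (-(5 / 48) : ℝ) ≤ arm q (4 * m) := by
    have h2 := harm (4 * m) (by omega) (le_refl _)
    have h3 : ((4 * m : ℕ) : ℝ) ^ (-(5 / 48) : ℝ) ≥ (4 * ((m : ℝ) + 1)) ^ (-(5 / 48) : ℝ) := by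
      push_cast
      exact Real.rpow_le_rpow_of_nonpos (by positivity) (by linarith) (by norm_num)
    have h4 := four_mul_pow (x := (m : ℝ) + 1) (by positivity)
    calc b * ((m : ℝ) + 1) ^ (-(5 / 48) : ℝ) ≤ a0 / 2 * ((m : ℝ) + 1) ^ (-(5 / 48) : ℝ) :=
          mul_le_mul_of_nonneg_right hba (by positivity)
      _ = a0 * (((m : ℝ) + 1) ^ (-(5 / 48) : ℝ) / 2) := by ring
      _ ≤ a0 * (4 * ((m : ℝ) + 1)) ^ (-(5 / 48) : ℝ) := mul_le_mul_of_nonneg_left h4 ha0.le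
      _ ≤ a0 * ((4 * m : ℕ) : ℝ) ^ (-(5 / 48) : ℝ) := mul_le_mul_of_nonneg_left h3 ha0.le
      _ ≤ _ := h2
  refine ⟨3 * m * M + 5 * m, fun S hS => ?_⟩
  have hrow := row_prob (A := A) hm1 hM1 hW (hA q hq0 h1 m) hb0 harm4 hS
  rw [← hc2, ← hl1] at hrow
  have hvol : a ≤ M * (b / 2 * ((2 * (m : ℝ) + 1) ^ 2 * ((m : ℝ) + 1) ^ (-(5 / 48) : ℝ))) := by
    have h2 : (m : ℝ) ^ (91 / 48 : ℝ) ≤
        (2 * (m : ℝ) + 1) ^ 2 * ((m : ℝ) + 1) ^ (-(5 / 48) : ℝ) := by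
      calc (m : ℝ) ^ (91 / 48 : ℝ) ≤ ((m : ℝ) + 1) ^ (91 / 48 : ℝ) :=
            Real.rpow_le_rpow hm0.le (by linarith) (by norm_num)
        _ = ((m : ℝ) + 1) ^ 2 * ((m : ℝ) + 1) ^ (-(5 / 48) : ℝ) := by
            rw [← Real.rpow_natCast ((m : ℝ) + 1) 2, ← Real.rpow_add (by positivity)]
            norm_num
        _ ≤ _ := by
            apply mul_le_mul_of_nonneg_right _ (by positivity)
            nlinarith
    have h3 : 2 * a ≤ M * (b * (m : ℝ) ^ (91 / 48 : ℝ)) := by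
      rwa [div_le_iff₀ (by positivity)] at hMge
    have hM0 : (0 : ℝ) ≤ M := by positivity
    calc a = 2 * a / 2 := by ring
      _ ≤ M * (b * (m : ℝ) ^ (91 / 48 : ℝ)) / 2 := by linarith
      _ = M * (b / 2 * (m : ℝ) ^ (91 / 48 : ℝ)) := by ring
      _ ≤ _ := by
          apply mul_le_mul_of_nonneg_left _ hM0
          exact mul_le_mul_of_nonneg_left h2 (by positivity)
  have ok := okq hq0 (by linarith : q ≤ 1)
  have hrow2 := hrow.trans (Pr_mono ok fun F _ hF => VolAt_le hvol hF)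
  refine le_trans ?_ hrow2
  -- the lower bound
  have e1 : b ^ 2 / 8 * a ^ (-(5 / 91) : ℝ) ≤ arm q (4 * m) := by
    refine le_trans ?_ harm4
    have h2 : (m : ℝ) + 1 ≤ 4 * (2 * a / b) ^ (48 / 91 : ℝ) := by
      have : (m : ℝ) ≤ n := by exact_mod_cast hmn
      linarith
    have h3 : (4 * (2 * a / b) ^ (48 / 91 : ℝ)) ^ (-(5 / 48) : ℝ) ≤
        ((m : ℝ) + 1) ^ (-(5 / 48) : ℝ) :=
      Real.rpow_le_rpow_of_nonpos (by positivity) h2 (by norm_num)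
    have h4 := four_mul_pow (x := (2 * a / b) ^ (48 / 91 : ℝ)) (by positivity)
    have h5 : ((2 * a / b) ^ (48 / 91 : ℝ)) ^ (-(5 / 48) : ℝ) = (2 * a / b) ^ (-(5 / 91) : ℝ) := by
      rw [← Real.rpow_mul (by positivity)]; norm_num
    have h6 : b / 4 * a ^ (-(5 / 91) : ℝ) ≤ (2 * a / b) ^ (-(5 / 91) : ℝ) := by
      have h7 : 2 * a / b = (b / 2)⁻¹ * a := by field_simp
      rw [h7, Real.mul_rpow (by positivity) (by linarith)]
      apply mul_le_mul_of_nonneg_right _ (by positivity)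
      rw [Real.inv_rpow (by positivity), Real.rpow_neg (by positivity), inv_inv]
      have h8 : (b / 2) ^ (1 : ℝ) ≤ (b / 2) ^ (5 / 91 : ℝ) :=
        Real.rpow_le_rpow_of_exponent_ge (by positivity) (by linarith) (by norm_num)
      rw [Real.rpow_one] at h8
      linarith
    rw [h5] at h4
    calc b ^ 2 / 8 * a ^ (-(5 / 91) : ℝ) = b * ((b / 4 * a ^ (-(5 / 91) : ℝ)) / 2) := by ring
      _ ≤ b * (((2 * a / b) ^ (-(5 / 91) : ℝ)) / 2) := by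
          apply mul_le_mul_of_nonneg_left _ hb0.le
          linarith
      _ ≤ b * ((m : ℝ) + 1) ^ (-(5 / 48) : ℝ) :=
          mul_le_mul_of_nonneg_left (h4.trans h3) hb0.le
  have e2 : κ * Real.exp (-(2 * Λ)) * Real.exp (-((Λ * D + 1) * (a * t ^ (91 / 36 : ℝ)))) ≤
      κ * Real.exp (-(2 * l1) * (3 * (M + 1))) * ((κ ^ 4) ^ M * c2 ^ M) := by
    have h2 : (κ ^ 4) ^ M * c2 ^ M = Real.exp (-(l2 * M)) := by
      rw [← mul_pow, hl2]
      have h3 : κ ^ 4 * c2 = Real.exp (-Real.log (1 / (κ ^ 4 * c2))) := by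
        rw [one_div, Real.log_inv, neg_neg, Real.exp_log (by positivity)]
      nth_rewrite 1 [h3]
      rw [← Real.exp_nat_mul]
      congr 1
      ring
    rw [h2, mul_assoc, mul_assoc, ← Real.exp_add, ← Real.exp_add]
    apply mul_le_mul_of_nonneg_left _ hκ.le
    apply Real.exp_le_exp.2
    have hM0 : (1 : ℝ) ≤ M := by exact_mod_cast hM1
    have h5 : 0 ≤ a * t ^ (91 / 36 : ℝ) := by positivity
    have h6 : Λ * (M + 1) ≤ Λ * (D * (a * t ^ (91 / 36 : ℝ)) + 2) :=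
      mul_le_mul_of_nonneg_left (by linarith) hΛ0
    have h7 : 6 * l1 * (M + 1) + l2 * M ≤ Λ * (M + 1) := by rw [hΛ]; nlinarith
    nlinarith
  calc b ^ 2 / 8 * κ * Real.exp (-(2 * Λ)) * a ^ (-(5 / 91) : ℝ) *
        Real.exp (-((Λ * D + 1) * (a * t ^ (91 / 36 : ℝ))))
      = (b ^ 2 / 8 * a ^ (-(5 / 91) : ℝ)) * (κ * Real.exp (-(2 * Λ)) *
        Real.exp (-((Λ * D + 1) * (a * t ^ (91 / 36 : ℝ))))) := by ring
    _ ≤ arm q (4 * m) * (κ * Real.exp (-(2 * l1) * (3 * (M + 1))) * ((κ ^ 4) ^ M * c2 ^ M)) :=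
        mul_le_mul e1 e2 (by positivity) (arm_nonneg hq0 (by linarith) _)
    _ = _ := by ring

end Pool.Agent.N952.CS
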