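import Pool.Agent.N952.CS.LowSub

/-!
Finite clusters at and above the critical point: lower bound.
-/

set_option autoImplicit false

namespace Pool.Agent.N952.CS
open Finset H974 Pool.Agent.H160R2.CV Pool.Agent.H160R2.CV.Quad Pool.Agent.Y244.PC

/-- the probability that an annulus is not crossed -/
theorem pr_Blk_ge {q : ℝ} (h0 : 0 ≤ q) (h1 : q ≤ 1) {n m : ℕ} (hnm : n < m) {S : Finset Edg}
    (hS : annE n m ⊆ S) : (1 - hh q ((m : ℤ) - n) (2 * m)) ^ 4 ≤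
      Pr (fun _ => q) S (Blk (n : ℤ) (m : ℤ)) := by
  have ok := okq h0 h1
  obtain ⟨s1, s2, s3, s4⟩ := ann_sub hnm
  have e1 := pr_LRc q (s1.trans hS)
  have e2 := pr_LRc q (s2.trans hS)
  have e3 := pr_TBc q (s3.trans hS)
  have e4 := pr_TBc q (s4.trans hS)
  have d1 : (m : ℤ) - -m = 2 * m := by ring
  have d2 : -(n : ℤ) - -m = m - n := by ring
  rw [d1] at e1 e2 e3 e4
  rw [d2] at e2 e4
  obtain ⟨x, hx⟩ : ∃ x : ℝ, x = 1 - hh q ((m : ℤ) - n) (2 * m) := ⟨_, rfl⟩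
  have hx0 : 0 ≤ x := by rw [hx]; linarith [hh_le_one h0 h1 ((m : ℤ) - n) (2 * m)]
  have i1 := Pr_harris_dd ok (S := S) (LRc_incr S (n : ℤ) m (-m) m) (LRc_incr S (-(m : ℤ)) (-n) (-m) m)
  have i2 := Pr_harris_dd ok (S := S) (TBc_incr S (-(m : ℤ)) m n m) (TBc_incr S (-(m : ℤ)) m (-m) (-n))
  rw [e1, e2, ← hx] at i1
  rw [e3, e4, ← hx] at i2
  have i3 := Pr_harris_dd ok (S := S)
    (A := fun F => LRc (n : ℤ) m (-m) m F ∨ LRc (-(m : ℤ)) (-n) (-m) m F)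
    (B := fun F => TBc (-(m : ℤ)) m n m F ∨ TBc (-(m : ℤ)) m (-m) (-n) F)
    (fun F G h _ hF => hF.imp (LRc.mono h) (LRc.mono h))
    (fun F G h _ hF => hF.imp (TBc.mono h) (TBc.mono h))
  have f1 : 1 - Pr (fun _ => q) S (fun F => LRc (n : ℤ) m (-m) m F ∨ LRc (-(m : ℤ)) (-n) (-m) m F) =
      Pr (fun _ => q) S (fun F => ¬ LRc (n : ℤ) m (-m) m F ∧ ¬ LRc (-(m : ℤ)) (-n) (-m) m F) := by
    rw [← Pr_not]
    apply Pr_congr
    intro F _
    exact not_or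
  have f2 : 1 - Pr (fun _ => q) S (fun F => TBc (-(m : ℤ)) m n m F ∨ TBc (-(m : ℤ)) m (-m) (-n) F) =
      Pr (fun _ => q) S (fun F => ¬ TBc (-(m : ℤ)) m n m F ∧ ¬ TBc (-(m : ℤ)) m (-m) (-n) F) := by
    rw [← Pr_not]
    apply Pr_congr
    intro F _
    exact not_or
  rw [f1, f2] at i3
  rw [← hx]
  calc x ^ 4 = (x * x) * (x * x) := by ring
    _ ≤ _ := mul_le_mul i1 i2 (by positivity) (Pr_nonneg ok _ _)
    _ ≤ _ := i3

/-- a large finite cluster -/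
theorem block_sup {q A b : ℝ} {n r : ℕ} (h0 : 1 / 2 ≤ q) (h1 : q ≤ 1) (hr : 1 ≤ r)
    (hAB : AB q A n) (hnr : n ≤ r) (hb : 0 < b)
    (harm : b * ((n : ℝ) + 1) ^ (-(5 / 48) : ℝ) ≤ arm q (4 * r))
    {S : Finset Edg} (hS : boxE (15 * r) ⊆ S) :
    arm q (4 * r) * kap * (b ^ 2 / (10368 * A ^ 2)) *
      (1 - hh q (((10 * r : ℕ)) : ℤ) (((30 * r : ℕ)) : ℤ)) ^ 4 ≤
      Pr (fun _ => q) S (fun F => VolAt (b / 2 * ((2 * (r : ℝ) + 1) ^ 2 *
        ((n : ℝ) + 1) ^ (-(5 / 48) : ℝ))) (0, 0) F ∧ ¬ Far (0, 0) (15 * r) F) := by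
  have hq0 : 0 ≤ q := by linarith
  have ok := okq hq0 h1
  have hA := AB_one_le hAB
  obtain ⟨v, hv⟩ : ∃ v : ℝ, v = b / 2 * ((2 * (r : ℝ) + 1) ^ 2 *
    ((n : ℝ) + 1) ^ (-(5 / 48) : ℝ)) := ⟨_, rfl⟩
  rw [← hv]
  have s5 : boxE (5 * r) ⊆ S := (boxE_mono (by omega)).trans hS
  have s3 : boxE (3 * r) ⊆ S := (boxE_mono (by omega)).trans hS
  have p1 : arm q (4 * r) ≤ Pr (fun _ => q) S (LA (0, 0) (4 * r)) := by
    rw [pr_LA_eq]
    refine Finset.Subset.trans ?_ s5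
    apply bo_sub_boxE <;> simp <;> omega
  have p2 : kap ≤ Pr (fun _ => q) S (Circ (r : ℤ) ((3 * r : ℕ) : ℤ)) :=
    pr_CircP ok (fun _ => h0) (by omega) s3
  have p3 : b ^ 2 / (10368 * A ^ 2) ≤ Pr (fun _ => q) S (fun F => v ≤ YY (4 * r) (bx r) F) := by
    rw [hv]
    exact cnt_low hq0 h1 hAB hnr hb harm s5
  have p4 : (1 - hh q (((10 * r : ℕ)) : ℤ) (((30 * r : ℕ)) : ℤ)) ^ 4 ≤
      Pr (fun _ => q) S (Blk ((5 * r : ℕ) : ℤ) ((15 * r : ℕ) : ℤ)) := by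
    have h2 := pr_Blk_ge hq0 h1 (n := 5 * r) (m := 15 * r) (by omega) (S := S)
      ((annE_sub' _ _).trans hS)
    have e1 : ((15 * r : ℕ) : ℤ) - ((5 * r : ℕ) : ℤ) = ((10 * r : ℕ) : ℤ) := by push_cast; ring
    have e2 : 2 * ((15 * r : ℕ) : ℤ) = ((30 * r : ℕ) : ℤ) := by push_cast; ring
    rw [e1, e2] at h2
    exact h2
  obtain ⟨E1, hE1⟩ : ∃ E1 : Finset Edg → Prop, E1 = fun F => LA (0, 0) (4 * r) F ∧
    (Circ (r : ℤ) ((3 * r : ℕ) : ℤ) F ∧ v ≤ YY (4 * r) (bx r) F) := ⟨_, rfl⟩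
  have hcircinc : IncrE S (Circ (r : ℤ) ((3 * r : ℕ) : ℤ)) := fun F G h _ hF => hF.mono h
  have hcntinc : IncrE S (fun F => v ≤ YY (4 * r) (bx r) F) :=
    fun F G h _ hF => le_trans hF (YY_mono h)
  have i1 := Pr_harris ok (S := S) hcircinc hcntinc
  have i2 := Pr_harris ok (S := S) (A := LA (0, 0) (4 * r))
    (B := fun F => Circ (r : ℤ) ((3 * r : ℕ) : ℤ) F ∧ v ≤ YY (4 * r) (bx r) F)
    (fun F G h _ hF => LA_inc _ _ F G h hF)
    (fun F G h hG hF => ⟨hcircinc F G h hG hF.1, hcntinc F G h hG hF.2⟩)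
  have hE1p : arm q (4 * r) * (kap * (b ^ 2 / (10368 * A ^ 2))) ≤ Pr (fun _ => q) S E1 := by
    rw [hE1]
    refine le_trans ?_ i2
    apply mul_le_mul p1 _ (by have := kap_pos; positivity) (Pr_nonneg ok _ _)
    refine le_trans ?_ i1
    exact mul_le_mul p2 p3 (by positivity) (Pr_nonneg ok _ _)
  have hE1loc : ∀ F, E1 F ↔ E1 (F ∩ boxE (5 * r)) := by
    intro F
    rw [hE1]
    simp only
    have l1 : LA (0, 0) (4 * r) F ↔ LA (0, 0) (4 * r) (F ∩ boxE (5 * r)) := by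
      apply LA_loc
      apply bo_sub_boxE <;> simp <;> omega
    have l2 : Circ (r : ℤ) ((3 * r : ℕ) : ℤ) F ↔
        Circ (r : ℤ) ((3 * r : ℕ) : ℤ) (F ∩ boxE (5 * r)) := by
      have hsub : RE (-((3 * r : ℕ) : ℤ)) ((3 * r : ℕ) : ℤ) (-((3 * r : ℕ) : ℤ))
          ((3 * r : ℕ) : ℤ) ⊆ boxE (5 * r) := by
        unfold boxE
        apply RE_subset <;> push_cast <;> omega
      unfold Circ
      rw [LRc_local (F := F) ((LRE_subset_RE.trans ((RE_subset le_rfl le_rfl (by omega) le_rfl))).trans hsub),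
        LRc_local (F := F) ((LRE_subset_RE.trans ((RE_subset le_rfl le_rfl le_rfl (by omega)))).trans hsub),
        TBc_local (F := F) ((TBE_subset_RE.trans ((RE_subset (by omega) le_rfl le_rfl le_rfl))).trans hsub),
        TBc_local (F := F) ((TBE_subset_RE.trans ((RE_subset le_rfl (by omega) le_rfl le_rfl))).trans hsub)]
    have l3 : YY (4 * r) (bx r) F = YY (4 * r) (bx r) (F ∩ boxE (5 * r)) := by
      unfold YY
      apply Finset.sum_congr rfl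
      intro x hx
      apply ind_congr
      refine LA_loc ?_ F
      rw [VolAux.mem_bx] at hx
      unfold nv at hx
      apply bo_sub_boxE <;> push_cast <;> omega
    rw [← l1, ← l2, ← l3]
  have hind : Pr (fun _ => q) S (fun F => E1 F ∧ Blk ((5 * r : ℕ) : ℤ) ((15 * r : ℕ) : ℤ) F) =
      Pr (fun _ => q) S E1 * Pr (fun _ => q) S (Blk ((5 * r : ℕ) : ℤ) ((15 * r : ℕ) : ℤ)) := by
    apply Pr_indep (S := boxE (5 * r)) (T := annE (5 * r) (15 * r)) s5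
      ((annE_sub' _ _).trans hS)
    · unfold annE
      exact Finset.disjoint_sdiff
    · intro F _
      exact hE1loc F
    · intro F _
      exact Blk_local (by omega) (le_refl _) F
  calc arm q (4 * r) * kap * (b ^ 2 / (10368 * A ^ 2)) *
      (1 - hh q (((10 * r : ℕ)) : ℤ) (((30 * r : ℕ)) : ℤ)) ^ 4
      = arm q (4 * r) * (kap * (b ^ 2 / (10368 * A ^ 2))) *
      (1 - hh q (((10 * r : ℕ)) : ℤ) (((30 * r : ℕ)) : ℤ)) ^ 4 := by ring
    _ ≤ Pr (fun _ => q) S E1 * Pr (fun _ => q) S (Blk ((5 * r : ℕ) : ℤ) ((15 * r : ℕ) : ℤ)) :=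
        mul_le_mul hE1p p4 (by positivity) (Pr_nonneg ok _ _)
    _ = _ := hind.symm
    _ ≤ _ := by
        apply Pr_mono ok
        rintro F _ ⟨hF, hB⟩
        rw [hE1] at hF
        obtain ⟨hA0, hC, hY⟩ := hF
        constructor
        · have hsh0 : sh (0, 0) F = F := by
            have h3 := sh_inter (0, 0) F F
            ext e
            unfold sh
            rw [LSym.mem_mp]
            obtain ⟨x, y, bb⟩ := e
            simp
          obtain ⟨h, hh⟩ := hub (z := (0, 0)) (r := r) (R := 3 * r) (by omega) (F := F)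
            (by rw [hsh0]; exact hC)
          obtain ⟨T, hT, hTu⟩ := Cnt_set (z := (0, 0)) (v := v) (r := r) (F := F)
            (by unfold Cnt; rw [hsh0]; exact hY)
          have h00 : Reach (↑F : Set Edg) (0, 0) h := by
            obtain ⟨w, hw, hrw⟩ := far_of_LA hA0
            rw [sub_zero'] at hw
            exact hh (0, 0) w (by unfold nv; simp) (by rw [sub_zero']; omega) hrw
          refine ⟨T, hT, fun u hu => ?_⟩
          obtain ⟨k1, y, hy, hry⟩ := hTu u hu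
          refine h00.trans (hh u y k1 ?_ hry).symm
          rw [sub_zero'] at k1 ⊢
          have h1 := nv_tri y 0 u
          rw [sub_zero] at h1
          have h2 : nv (0 - u) = nv u := by rw [nvc, sub_zero]
          omega
        · rintro ⟨u, hu, hru⟩
          rw [sub_zero'] at hu
          exact not_blk_of_arm (by positivity) (by push_cast; omega) hru
            (by unfold nv at hu; push_cast; omega) hB

/-- the volume of the finite clusters at and above the critical point, lower bound -/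
theorem lower_sup : ∃ c C : ℝ, 0 < c ∧ 0 < C ∧ ∀ q : ℝ, 1 / 2 ≤ q → q ≤ 3 / 4 → ∀ a : ℝ, 1 ≤ a →
    ∃ M0 : ℕ, ∀ S : Finset Edg, boxE M0 ⊆ S →
    c * a ^ (-(5 / 91) : ℝ) * Real.exp (-(C * (a * (q - 1 / 2) ^ (91 / 36 : ℝ)) ^ (1 / 2 : ℝ))) ≤
      Pr (fun _ => q) S (fun F => VolAt a (0, 0) F ∧ ¬ Far (0, 0) M0 F) := by
  obtain ⟨A, hA1, hA⟩ := ab_up (K := 10) (by norm_num)
  obtain ⟨ca, Ca, hca, hCa, hcrit⟩ := Pool.Agent.W424.NC.arm_crit
  obtain ⟨ct, hct, htheta⟩ := Pool.Agent.Y554.NC.theta_lower'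
  obtain ⟨c3, C3, hc3, hC3, hwin⟩ := Pool.Agent.W424.NC.win_lower_dual 3 (by norm_num)
  obtain ⟨b, hb⟩ : ∃ b : ℝ, b = min (min (ca / 2) ct) 1 := ⟨_, rfl⟩
  have hb0 : 0 < b := by rw [hb]; exact lt_min (lt_min (by positivity) hct) one_pos
  have hb1 : b ≤ 1 := by rw [hb]; exact min_le_right _ _
  have hbc : b ≤ ca / 2 := by rw [hb]; exact (min_le_left _ _).trans (min_le_left _ _)
  have hbt : b ≤ ct := by rw [hb]; exact (min_le_left _ _).trans (min_le_right _ _)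
  have hkap := kap_pos
  obtain ⟨c2, hc2⟩ : ∃ c2 : ℝ, c2 = b ^ 2 / (10368 * A ^ 2) := ⟨_, rfl⟩
  have hc20 : 0 < c2 := by rw [hc2]; positivity
  refine ⟨b ^ 2 / 8 * kap * c2 * c3 ^ 4 * Real.exp (-(400 * C3)), 80 * C3 / b,
    by positivity, by positivity, ?_⟩
  intro q h0 h1 a ha
  have hq0 : 0 ≤ q := by linarith
  have hq1 : q ≤ 1 := by linarith
  have ha0 : 0 < a := by linarith
  obtain ⟨t, ht⟩ : ∃ t : ℝ, t = q - 1 / 2 := ⟨_, rfl⟩
  have ht0 : 0 ≤ t := by rw [ht]; linarith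
  have ht1 : t ≤ 1 := by rw [ht]; linarith
  rw [← ht]
  -- annulus
  have hann : ∀ r : ℕ, 1 ≤ r → (c3 ^ 4 * Real.exp (-(40 * C3 * (r * t ^ (4 / 3 : ℝ))))) ≤
      (1 - hh q (((10 * r : ℕ)) : ℤ) (((30 * r : ℕ)) : ℤ)) ^ 4 := by
    intro r hr
    have h2 := hwin (1 - q) (by linarith) (by linarith) (10 * r) (30 * r) (by omega) (by omega)
      (by omega) (by omega)
    have e3 : 1 - (1 - q) = q := by ring
    have e4 : 1 / 2 - (1 - q) = t := by rw [ht]; ring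
    rw [e3, e4] at h2
    refine le_trans (le_of_eq ?_) (pow_le_pow_left₀ (by positivity) h2 4)
    rw [mul_pow, ← Real.exp_nat_mul]
    congr 2
    push_cast
    ring
  have hpow : b / 4 * a ^ (-(5 / 91) : ℝ) ≤ (2 * a / b) ^ (-(5 / 91) : ℝ) := by
    have h7 : 2 * a / b = (b / 2)⁻¹ * a := by field_simp
    rw [h7, Real.mul_rpow (by positivity) (by linarith)]
    apply mul_le_mul_of_nonneg_right _ (by positivity)
    rw [Real.inv_rpow (by positivity), Real.rpow_neg (by positivity), inv_inv]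
    have h8 : (b / 2) ^ (1 : ℝ) ≤ (b / 2) ^ (5 / 91 : ℝ) :=
      Real.rpow_le_rpow_of_exponent_ge (by positivity) (by linarith) (by norm_num)
    rw [Real.rpow_one] at h8
    linarith
  have hx1 : 1 ≤ 2 * a / b := by rw [le_div_iff₀ hb0]; linarith
  -- the small case
  have hsmall : (2 * a / b) ^ (48 / 91 : ℝ) * t ^ (4 / 3 : ℝ) ≤ 5 → ∃ M0 : ℕ, ∀ S : Finset Edg,
      boxE M0 ⊆ S → b ^ 2 / 8 * kap * c2 * c3 ^ 4 * Real.exp (-(400 * C3)) *
      a ^ (-(5 / 91) : ℝ) * Real.exp (-(80 * C3 / b * (a * t ^ (91 / 36 : ℝ)) ^ (1 / 2 : ℝ))) ≤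
      Pr (fun _ => q) S (fun F => VolAt a (0, 0) F ∧ ¬ Far (0, 0) M0 F) := by
    intro hsm
    obtain ⟨x, hx⟩ : ∃ x : ℝ, x = (2 * a / b) ^ (48 / 91 : ℝ) := ⟨_, rfl⟩
    have hx2 : 1 ≤ x := by rw [hx]; exact Real.one_le_rpow hx1 (by norm_num)
    rw [← hx] at hsm
    obtain ⟨r, hr⟩ : ∃ r : ℕ, r = ⌈x⌉₊ := ⟨_, rfl⟩
    have hr1 : x ≤ r := by rw [hr]; exact Nat.le_ceil _
    have hr2 : (r : ℝ) < x + 1 := by rw [hr]; exact Nat.ceil_lt_add_one (by linarith)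
    have hr3 : 1 ≤ r := by
      have : (1 : ℝ) ≤ r := hx2.trans hr1
      exact_mod_cast this
    have hr0 : (0 : ℝ) < r := by exact_mod_cast hr3
    have hrt : (r : ℝ) * t ^ (4 / 3 : ℝ) ≤ 10 := by
      have : (r : ℝ) * t ^ (4 / 3 : ℝ) ≤ 2 * x * t ^ (4 / 3 : ℝ) :=
        mul_le_mul_of_nonneg_right (by linarith) (by positivity)
      linarith
    have hAB : AB q A r := hA q h0 hq1 r (by rw [← ht]; exact hrt)
    have harm : b * ((r : ℝ) + 1) ^ (-(5 / 48) : ℝ) ≤ arm q (4 * r) := by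
      have h2 := (hcrit (4 * r) (by omega)).1
      have h3 : arm (1 / 2) (4 * r) ≤ arm q (4 * r) :=
        arm_mono_param (by norm_num) h0 hq1 (4 * r)
      have h4 : ((4 * r : ℕ) : ℝ) ^ (-(5 / 48) : ℝ) ≥ (4 * ((r : ℝ) + 1)) ^ (-(5 / 48) : ℝ) := by
        push_cast
        exact Real.rpow_le_rpow_of_nonpos (by positivity) (by linarith) (by norm_num)
      have h5 := four_mul_pow (x := (r : ℝ) + 1) (by positivity)
      calc b * ((r : ℝ) + 1) ^ (-(5 / 48) : ℝ) ≤ ca / 2 * ((r : ℝ) + 1) ^ (-(5 / 48) : ℝ) :=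
            mul_le_mul_of_nonneg_right hbc (by positivity)
        _ = ca * (((r : ℝ) + 1) ^ (-(5 / 48) : ℝ) / 2) := by ring
        _ ≤ ca * (4 * ((r : ℝ) + 1)) ^ (-(5 / 48) : ℝ) := mul_le_mul_of_nonneg_left h5 hca.le
        _ ≤ ca * ((4 * r : ℕ) : ℝ) ^ (-(5 / 48) : ℝ) := mul_le_mul_of_nonneg_left h4 hca.le
        _ ≤ _ := h2.trans h3
    refine ⟨15 * r, fun S hS => ?_⟩
    have hbl := block_sup h0 hq1 hr3 hAB (le_refl r) hb0 harm hS
    rw [← hc2] at hbl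
    have hvol : a ≤ b / 2 * ((2 * (r : ℝ) + 1) ^ 2 * ((r : ℝ) + 1) ^ (-(5 / 48) : ℝ)) := by
      have h2 : x ^ (91 / 48 : ℝ) = 2 * a / b := by
        rw [hx, ← Real.rpow_mul (by positivity)]; norm_num
      have h3 : 2 * a / b ≤ (2 * (r : ℝ) + 1) ^ 2 * ((r : ℝ) + 1) ^ (-(5 / 48) : ℝ) := by
        rw [← h2]
        calc x ^ (91 / 48 : ℝ) ≤ ((r : ℝ) + 1) ^ (91 / 48 : ℝ) :=
              Real.rpow_le_rpow (by linarith) (by linarith) (by norm_num)
          _ = ((r : ℝ) + 1) ^ 2 * ((r : ℝ) + 1) ^ (-(5 / 48) : ℝ) := by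
              rw [← Real.rpow_natCast ((r : ℝ) + 1) 2, ← Real.rpow_add (by positivity)]
              norm_num
          _ ≤ _ := by
              apply mul_le_mul_of_nonneg_right _ (by positivity)
              nlinarith
      calc a = b / 2 * (2 * a / b) := by field_simp
        _ ≤ _ := mul_le_mul_of_nonneg_left h3 (by positivity)
    have ok := okq hq0 hq1
    refine le_trans ?_ (hbl.trans (Pr_mono ok fun F _ hF => ⟨VolAt_le hvol hF.1, hF.2⟩))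
    have hann' := hann r hr3
    have e1 : b ^ 2 / 8 * a ^ (-(5 / 91) : ℝ) ≤ arm q (4 * r) := by
      refine le_trans ?_ harm
      have h2 : (r : ℝ) + 1 ≤ 4 * x := by linarith
      have h3 : (4 * x) ^ (-(5 / 48) : ℝ) ≤ ((r : ℝ) + 1) ^ (-(5 / 48) : ℝ) :=
        Real.rpow_le_rpow_of_nonpos (by positivity) h2 (by norm_num)
      have h4 := four_mul_pow (x := x) (by linarith)
      have h5 : x ^ (-(5 / 48) : ℝ) = (2 * a / b) ^ (-(5 / 91) : ℝ) := by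
        rw [hx, ← Real.rpow_mul (by positivity)]; norm_num
      rw [h5] at h4
      calc b ^ 2 / 8 * a ^ (-(5 / 91) : ℝ) = b * ((b / 4 * a ^ (-(5 / 91) : ℝ)) / 2) := by ring
        _ ≤ b * (((2 * a / b) ^ (-(5 / 91) : ℝ)) / 2) := by
            apply mul_le_mul_of_nonneg_left _ hb0.le
            linarith
        _ ≤ b * ((r : ℝ) + 1) ^ (-(5 / 48) : ℝ) :=
            mul_le_mul_of_nonneg_left (h4.trans h3) hb0.le
    have e2 : c3 ^ 4 * Real.exp (-(400 * C3)) ≤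
        (1 - hh q (((10 * r : ℕ)) : ℤ) (((30 * r : ℕ)) : ℤ)) ^ 4 := by
      refine le_trans ?_ hann'
      apply mul_le_mul_of_nonneg_left _ (by positivity)
      apply Real.exp_le_exp.2
      nlinarith
    have e3 : Real.exp (-(80 * C3 / b * (a * t ^ (91 / 36 : ℝ)) ^ (1 / 2 : ℝ))) ≤ 1 := by
      apply Real.exp_le_one_iff.2
      rw [Left.neg_nonpos_iff]
      positivity
    calc b ^ 2 / 8 * kap * c2 * c3 ^ 4 * Real.exp (-(400 * C3)) *
          a ^ (-(5 / 91) : ℝ) * Real.exp (-(80 * C3 / b * (a * t ^ (91 / 36 : ℝ)) ^ (1 / 2 : ℝ)))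
        ≤ b ^ 2 / 8 * kap * c2 * c3 ^ 4 * Real.exp (-(400 * C3)) * a ^ (-(5 / 91) : ℝ) * 1 :=
          mul_le_mul_of_nonneg_left e3 (by positivity)
      _ = (b ^ 2 / 8 * a ^ (-(5 / 91) : ℝ)) * kap * c2 * (c3 ^ 4 * Real.exp (-(400 * C3))) := by
          ring
      _ ≤ _ := by
          apply mul_le_mul _ e2 (by positivity)
            (mul_nonneg (mul_nonneg (arm_nonneg hq0 hq1 _) hkap.le) hc20.le)
          apply mul_le_mul_of_nonneg_right _ hc20.le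
          exact mul_le_mul_of_nonneg_right e1 hkap.le
  rcases eq_or_lt_of_le ht0 with htz | htp
  · apply hsmall
    rw [← htz, Real.zero_rpow (by norm_num)]
    norm_num
  have hT : 0 < t ^ (4 / 3 : ℝ) := by positivity
  have hT1 : t ^ (4 / 3 : ℝ) ≤ 1 := Real.rpow_le_one ht0 ht1 (by norm_num)
  have htn : t ^ (-(4 / 3) : ℝ) * t ^ (4 / 3 : ℝ) = 1 := by
    rw [← Real.rpow_add htp]; norm_num
  have htn1 : 1 ≤ t ^ (-(4 / 3) : ℝ) := by
    by_contra hc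
    push Not at hc
    nlinarith
  obtain ⟨n, hn⟩ : ∃ n : ℕ, n = ⌈t ^ (-(4 / 3) : ℝ)⌉₊ := ⟨_, rfl⟩
  have hn1 : t ^ (-(4 / 3) : ℝ) ≤ n := by rw [hn]; exact Nat.le_ceil _
  have hn2 : (n : ℝ) < t ^ (-(4 / 3) : ℝ) + 1 := by rw [hn]; exact Nat.ceil_lt_add_one (by positivity)
  have hn3 : (1 : ℝ) ≤ n := htn1.trans hn1
  have hnt : (n : ℝ) * t ^ (4 / 3 : ℝ) ≤ 2 := by
    have : (n : ℝ) * t ^ (4 / 3 : ℝ) ≤ (t ^ (-(4 / 3) : ℝ) + 1) * t ^ (4 / 3 : ℝ) :=
      mul_le_mul_of_nonneg_right hn2.le hT.le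
    rw [add_mul, htn] at this
    linarith
  obtain ⟨g, hg⟩ : ∃ g : ℝ, g = ((n : ℝ) + 1) ^ (-(5 / 48) : ℝ) := ⟨_, rfl⟩
  have hg0 : 0 < g := by rw [hg]; positivity
  rcases lt_or_ge a (2 * b * g * (n : ℝ) ^ 2) with hcase | hcase
  · -- small
    apply hsmall
    have h2 : 2 * a / b ≤ 4 * (n : ℝ) ^ (91 / 48 : ℝ) := by
      rw [div_le_iff₀ hb0]
      have h3 : g ≤ (n : ℝ) ^ (-(5 / 48) : ℝ) := by
        rw [hg]
        exact Real.rpow_le_rpow_of_nonpos (by linarith) (by linarith) (by norm_num)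
      have h4 : (n : ℝ) ^ (91 / 48 : ℝ) = (n : ℝ) ^ (-(5 / 48) : ℝ) * (n : ℝ) ^ 2 := by
        rw [← Real.rpow_natCast (n : ℝ) 2, ← Real.rpow_add (by linarith)]
        norm_num
      have h5 : g * (n : ℝ) ^ 2 ≤ (n : ℝ) ^ (91 / 48 : ℝ) := by
        rw [h4]; exact mul_le_mul_of_nonneg_right h3 (by positivity)
      nlinarith
    have h3 : (2 * a / b) ^ (48 / 91 : ℝ) ≤ 5 / 2 * n := by
      calc (2 * a / b) ^ (48 / 91 : ℝ) ≤ (4 * (n : ℝ) ^ (91 / 48 : ℝ)) ^ (48 / 91 : ℝ) :=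
            Real.rpow_le_rpow (by positivity) h2 (by norm_num)
        _ = (4 : ℝ) ^ (48 / 91 : ℝ) * n := by
            rw [Real.mul_rpow (by norm_num) (by positivity), ← Real.rpow_mul (by positivity)]
            norm_num
        _ ≤ 5 / 2 * n := by
            apply mul_le_mul_of_nonneg_right _ (by linarith)
            have h6 : (4 : ℝ) ^ (48 / 91 : ℝ) ≤ (4 : ℝ) ^ (13 / 24 : ℝ) :=
              Real.rpow_le_rpow_of_exponent_le (by norm_num) (by norm_num)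
            have h7 : (4 : ℝ) ^ (13 / 24 : ℝ) ≤ 5 / 2 := by
              have h8 : ((4 : ℝ) ^ (13 / 24 : ℝ)) ^ (24 : ℝ) ≤ (5 / 2 : ℝ) ^ (24 : ℝ) := by
                rw [← Real.rpow_mul (by norm_num)]
                norm_num
              exact (Real.rpow_le_rpow_iff (by positivity) (by norm_num) (by norm_num)).1 h8
            linarith
    calc (2 * a / b) ^ (48 / 91 : ℝ) * t ^ (4 / 3 : ℝ) ≤ 5 / 2 * n * t ^ (4 / 3 : ℝ) :=
          mul_le_mul_of_nonneg_right h3 hT.le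
      _ ≤ 5 := by linarith
  · -- large
    obtain ⟨x, hx⟩ : ∃ x : ℝ, x = Real.sqrt (a / (2 * b * g)) := ⟨_, rfl⟩
    have hxn : (n : ℝ) ≤ x := by
      rw [hx]
      apply Real.le_sqrt_of_sq_le
      rw [le_div_iff₀ (by positivity)]
      linarith
    have hx2 : x ^ 2 = a / (2 * b * g) := by rw [hx]; exact Real.sq_sqrt (by positivity)
    obtain ⟨r, hr⟩ : ∃ r : ℕ, r = ⌈x⌉₊ := ⟨_, rfl⟩
    have hr1 : x ≤ r := by rw [hr]; exact Nat.le_ceil _
    have hr2 : (r : ℝ) < x + 1 := by rw [hr]; exact Nat.ceil_lt_add_one (by linarith)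
    have hr3 : 1 ≤ r := by
      have : (1 : ℝ) ≤ r := by linarith
      exact_mod_cast this
    have hnr : n ≤ r := by
      have : (n : ℝ) ≤ r := hxn.trans hr1
      exact_mod_cast this
    have hAB : AB q A n := hA q h0 hq1 n (by rw [← ht]; linarith)
    have harm : b * ((n : ℝ) + 1) ^ (-(5 / 48) : ℝ) ≤ arm q (4 * r) := by
      have hpu : ∃ p : unitInterval, (p : ℝ) = q := ⟨⟨q, hq0, hq1⟩, rfl⟩
      obtain ⟨p, hp⟩ := hpu
      have h2 := htheta p (by rw [hp]; linarith)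
      have h3 := theta_le_arm p (4 * r)
      rw [hp] at h2 h3
      rw [← ht] at h2
      have h4 : ((n : ℝ) + 1) ^ (-(5 / 48) : ℝ) ≤ t ^ (5 / 36 : ℝ) := by
        calc ((n : ℝ) + 1) ^ (-(5 / 48) : ℝ) ≤ (t ^ (-(4 / 3) : ℝ)) ^ (-(5 / 48) : ℝ) :=
              Real.rpow_le_rpow_of_nonpos (by positivity) (by linarith) (by norm_num)
          _ = t ^ (5 / 36 : ℝ) := by rw [← Real.rpow_mul ht0]; norm_num
      calc b * ((n : ℝ) + 1) ^ (-(5 / 48) : ℝ) ≤ ct * t ^ (5 / 36 : ℝ) :=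
            mul_le_mul hbt h4 (by positivity) hct.le
        _ ≤ _ := h2.trans h3
    refine ⟨15 * r, fun S hS => ?_⟩
    have hbl := block_sup h0 hq1 hr3 hAB hnr hb0 harm hS
    rw [← hc2, ← hg] at hbl
    rw [← hg] at harm
    have hvol : a ≤ b / 2 * ((2 * (r : ℝ) + 1) ^ 2 * g) := by
      have h2 : x ^ 2 ≤ (r : ℝ) ^ 2 := pow_le_pow_left₀ (by linarith) hr1 2
      rw [hx2, div_le_iff₀ (by positivity)] at h2
      have h3 : (0 : ℝ) ≤ r := by positivity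
      have h4 : 4 * (r : ℝ) ^ 2 ≤ (2 * (r : ℝ) + 1) ^ 2 := by nlinarith
      calc a ≤ (r : ℝ) ^ 2 * (2 * b * g) := h2
        _ = b / 2 * (4 * (r : ℝ) ^ 2 * g) := by ring
        _ ≤ _ := by
            apply mul_le_mul_of_nonneg_left _ (by positivity)
            exact mul_le_mul_of_nonneg_right h4 hg0.le
    have ok := okq hq0 hq1
    refine le_trans ?_ (hbl.trans (Pr_mono ok fun F _ hF => ⟨VolAt_le hvol hF.1, hF.2⟩))
    have hann' := hann r hr3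
    have e1 : b ^ 2 / 8 * a ^ (-(5 / 91) : ℝ) ≤ arm q (4 * r) := by
      refine le_trans ?_ harm
      -- `(n + 1) ^ (91 / 48) ≤ 2 a / b`
      have h2 : ((n : ℝ) + 1) ^ (91 / 48 : ℝ) ≤ 2 * a / b := by
        have h4 : ((n : ℝ) + 1) ^ (91 / 48 : ℝ) = ((n : ℝ) + 1) ^ 2 * g := by
          rw [hg, ← Real.rpow_natCast ((n : ℝ) + 1) 2, ← Real.rpow_add (by positivity)]
          norm_num
        rw [h4, le_div_iff₀ hb0]
        have h5 : ((n : ℝ) + 1) ^ 2 ≤ 4 * (n : ℝ) ^ 2 := by nlinarith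
        have h6 : 0 < g * b := by positivity
        nlinarith
      have h3 : (2 * a / b) ^ (-(5 / 91) : ℝ) ≤ g := by
        calc (2 * a / b) ^ (-(5 / 91) : ℝ) ≤ (((n : ℝ) + 1) ^ (91 / 48 : ℝ)) ^ (-(5 / 91) : ℝ) :=
              Real.rpow_le_rpow_of_nonpos (by positivity) h2 (by norm_num)
          _ = g := by rw [hg, ← Real.rpow_mul (by positivity)]; norm_num
      calc b ^ 2 / 8 * a ^ (-(5 / 91) : ℝ) ≤ b * (b / 4 * a ^ (-(5 / 91) : ℝ)) := by
            have : 0 ≤ b ^ 2 * a ^ (-(5 / 91) : ℝ) := by positivity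
            nlinarith
        _ ≤ b * g := mul_le_mul_of_nonneg_left (hpow.trans h3) hb0.le
    have hrt : (r : ℝ) * t ^ (4 / 3 : ℝ) ≤ 2 / b * (a * t ^ (91 / 36 : ℝ)) ^ (1 / 2 : ℝ) := by
      have h2 : (r : ℝ) ≤ 2 * x := by linarith
      have h3 : t ^ (5 / 36 : ℝ) ≤ 2 * g := by
        have h4 : (n : ℝ) + 1 ≤ 4 * t ^ (-(4 / 3) : ℝ) := by linarith
        have h5 : (4 * t ^ (-(4 / 3) : ℝ)) ^ (-(5 / 48) : ℝ) ≤ g := by
          rw [hg]
          exact Real.rpow_le_rpow_of_nonpos (by positivity) h4 (by norm_num)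
        have h6 := four_mul_pow (x := t ^ (-(4 / 3) : ℝ)) (by positivity)
        have h7 : (t ^ (-(4 / 3) : ℝ)) ^ (-(5 / 48) : ℝ) = t ^ (5 / 36 : ℝ) := by
          rw [← Real.rpow_mul ht0]; norm_num
        rw [h7] at h6
        linarith
      have h4 : (x * t ^ (4 / 3 : ℝ)) ^ 2 ≤ (1 / b * (a * t ^ (91 / 36 : ℝ)) ^ (1 / 2 : ℝ)) ^ 2 := by
        have e5 : ((a * t ^ (91 / 36 : ℝ)) ^ (1 / 2 : ℝ)) ^ 2 = a * t ^ (91 / 36 : ℝ) := by
          rw [← Real.sqrt_eq_rpow]; exact Real.sq_sqrt (by positivity)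
        have e6 : (t ^ (4 / 3 : ℝ)) ^ 2 = t ^ (5 / 36 : ℝ) * t ^ (91 / 36 : ℝ) := by
          rw [← Real.rpow_natCast (t ^ (4 / 3 : ℝ)) 2, ← Real.rpow_mul ht0, ← Real.rpow_add htp]
          norm_num
        rw [mul_pow, mul_pow, hx2, e5, e6]
        have h8 : a / (2 * b * g) * t ^ (5 / 36 : ℝ) ≤ a / b := by
          rw [div_mul_eq_mul_div, div_le_div_iff₀ (by positivity) hb0]
          nlinarith [mul_pos ha0 hb0]
        have h9 : a / b ≤ (1 / b) ^ 2 * a := by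
          have : (1 / b) ^ 2 * a - a / b = a / b * (1 / b - 1) := by field_simp
          have h10 : 0 ≤ 1 / b - 1 := by
            rw [sub_nonneg, le_div_iff₀ hb0]; linarith
          have h11 : 0 ≤ a / b := by positivity
          nlinarith
        have h12 : 0 < t ^ (91 / 36 : ℝ) := by positivity
        calc a / (2 * b * g) * (t ^ (5 / 36 : ℝ) * t ^ (91 / 36 : ℝ))
            = (a / (2 * b * g) * t ^ (5 / 36 : ℝ)) * t ^ (91 / 36 : ℝ) := by ring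
          _ ≤ ((1 / b) ^ 2 * a) * t ^ (91 / 36 : ℝ) :=
              mul_le_mul_of_nonneg_right (h8.trans h9) h12.le
          _ = _ := by ring
      have h5 : x * t ^ (4 / 3 : ℝ) ≤ 1 / b * (a * t ^ (91 / 36 : ℝ)) ^ (1 / 2 : ℝ) :=
        (abs_le_of_sq_le_sq' h4 (by positivity)).2
      calc (r : ℝ) * t ^ (4 / 3 : ℝ) ≤ 2 * x * t ^ (4 / 3 : ℝ) :=
            mul_le_mul_of_nonneg_right h2 hT.le
        _ = 2 * (x * t ^ (4 / 3 : ℝ)) := by ring
        _ ≤ 2 * (1 / b * (a * t ^ (91 / 36 : ℝ)) ^ (1 / 2 : ℝ)) := by linarith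
        _ = _ := by ring
    have e2 : c3 ^ 4 * Real.exp (-(80 * C3 / b * (a * t ^ (91 / 36 : ℝ)) ^ (1 / 2 : ℝ))) ≤
        (1 - hh q (((10 * r : ℕ)) : ℤ) (((30 * r : ℕ)) : ℤ)) ^ 4 := by
      refine le_trans ?_ hann'
      apply mul_le_mul_of_nonneg_left _ (by positivity)
      apply Real.exp_le_exp.2
      rw [neg_le_neg_iff]
      calc 40 * C3 * (r * t ^ (4 / 3 : ℝ)) ≤
            40 * C3 * (2 / b * (a * t ^ (91 / 36 : ℝ)) ^ (1 / 2 : ℝ)) :=
            mul_le_mul_of_nonneg_left hrt (by positivity)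
        _ = _ := by ring
    have e3 : Real.exp (-(400 * C3)) ≤ 1 := by
      apply Real.exp_le_one_iff.2
      linarith
    calc b ^ 2 / 8 * kap * c2 * c3 ^ 4 * Real.exp (-(400 * C3)) *
          a ^ (-(5 / 91) : ℝ) * Real.exp (-(80 * C3 / b * (a * t ^ (91 / 36 : ℝ)) ^ (1 / 2 : ℝ)))
        = b ^ 2 / 8 * kap * c2 * c3 ^ 4 * a ^ (-(5 / 91) : ℝ) *
          Real.exp (-(80 * C3 / b * (a * t ^ (91 / 36 : ℝ)) ^ (1 / 2 : ℝ))) *
          Real.exp (-(400 * C3)) := by ring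
      _ ≤ b ^ 2 / 8 * kap * c2 * c3 ^ 4 * a ^ (-(5 / 91) : ℝ) *
          Real.exp (-(80 * C3 / b * (a * t ^ (91 / 36 : ℝ)) ^ (1 / 2 : ℝ))) * 1 :=
          mul_le_mul_of_nonneg_left e3 (by positivity)
      _ = (b ^ 2 / 8 * a ^ (-(5 / 91) : ℝ)) * kap * c2 * (c3 ^ 4 *
          Real.exp (-(80 * C3 / b * (a * t ^ (91 / 36 : ℝ)) ^ (1 / 2 : ℝ)))) := by ring
      _ ≤ _ := by
          apply mul_le_mul _ e2 (by positivity)
            (mul_nonneg (mul_nonneg (arm_nonneg hq0 hq1 _) hkap.le) hc20.le)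
          apply mul_le_mul_of_nonneg_right _ hc20.le
          exact mul_le_mul_of_nonneg_right e1 hkap.le

end Pool.Agent.N952.CS
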