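import Pool.Agent.N952.CS.Moment
import Pool.Agent.Y554.NC.Theta

/-!
The magnetization `1 - E[exp (-h |C|)]`.
-/

set_option autoImplicit false

namespace Pool.Agent.N952.CS
open Finset H974 Pool.Agent.H160R2.CV Pool.Agent.H160R2.CV.Quad Pool.Agent.Y244.PC MeasureTheory Filter

open Classical in
/-- `exp (-h |C|)`, which is `0` if the cluster is infinite -/
noncomputable def zf (h : ℝ) (ω : sqLattice.edgeSet → Bool) : ℝ :=
  if (cluster0 ω).Finite then Real.exp (-(h * ((cluster0 ω).ncard : ℝ))) else 0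

theorem fin_iff (ω : sqLattice.edgeSet → Bool) : (cluster0 ω).Finite ↔ 1 ≤ sz ω := by
  constructor
  · intro hfin
    have h2 : (0, 0) ∈ cluster0 ω := (open_reach ω _ _).2 (Reach.refl _ _)
    have h3 : 0 < (cluster0 ω).ncard := (Set.ncard_pos hfin).2 ⟨_, h2⟩
    show (1 : ℝ) ≤ ((cluster0 ω).ncard : ℝ)
    exact_mod_cast h3
  · intro h
    by_contra hc
    have : (cluster0 ω).ncard = 0 := Set.Infinite.ncard hc
    unfold sz at h
    rw [this] at h
    norm_num at h

theorem inf_sz {ω : sqLattice.edgeSet → Bool} (h : ¬ (cluster0 ω).Finite) : sz ω = 0 := by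
  unfold sz
  rw [Set.Infinite.ncard h]
  simp

theorem measurableSet_fin : MeasurableSet {ω : sqLattice.edgeSet → Bool | (cluster0 ω).Finite} := by
  have : {ω : sqLattice.edgeSet → Bool | (cluster0 ω).Finite} = {ω | 1 ≤ sz ω} := by
    ext ω; exact fin_iff ω
  rw [this]
  exact meas_le_sz 1

theorem measurable_zf (h : ℝ) : Measurable (zf h) := by
  classical
  unfold zf
  refine Measurable.ite measurableSet_fin ?_ measurable_const
  exact (measurable_sz.const_mul h).neg.exp

theorem zf_nonneg (h : ℝ) (ω : sqLattice.edgeSet → Bool) : 0 ≤ zf h ω := by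
  unfold zf
  split_ifs
  · exact (Real.exp_pos _).le
  · exact le_refl _

theorem zf_le {h : ℝ} (hh : 0 ≤ h) (ω : sqLattice.edgeSet → Bool) : zf h ω ≤ 1 := by
  unfold zf
  split_ifs
  · rw [Real.exp_le_one_iff]
    have : 0 ≤ h * ((cluster0 ω).ncard : ℝ) := by positivity
    linarith
  · norm_num

theorem integrable_zf {h : ℝ} (hh : 0 ≤ h) (p : unitInterval) : Integrable (zf h) (bondLaw p) := by
  refine Integrable.of_bound (measurable_zf h).aestronglyMeasurable 1 ?_
  refine Filter.Eventually.of_forall fun ω => ?_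
  rw [Real.norm_eq_abs, abs_of_nonneg (zf_nonneg h ω)]
  exact zf_le hh ω

/-- the magnetization -/
noncomputable def mag (p : unitInterval) (h : ℝ) : ℝ := 1 - ∫ ω, zf h ω ∂(bondLaw p)

theorem mag_eq {h : ℝ} (hh : 0 ≤ h) (p : unitInterval) :
    mag p h = ∫ ω, (1 - zf h ω) ∂(bondLaw p) := by
  rw [integral_sub (integrable_const 1) (integrable_zf hh p)]
  simp [mag]

/-- `min 1 (h |C|)` -/
noncomputable def mf (h : ℝ) (ω : sqLattice.edgeSet → Bool) : ℝ := min 1 (h * sz ω)

theorem mf_nonneg {h : ℝ} (hh : 0 ≤ h) (ω : sqLattice.edgeSet → Bool) : 0 ≤ mf h ω :=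
  le_min (by norm_num) (mul_nonneg hh (sz_nonneg ω))

theorem measurable_mf (h : ℝ) : Measurable (mf h) := measurable_const.min (measurable_sz.const_mul h)

theorem integrable_mf {h : ℝ} (hh : 0 ≤ h) (p : unitInterval) : Integrable (mf h) (bondLaw p) := by
  refine Integrable.of_bound (measurable_mf h).aestronglyMeasurable 1 ?_
  refine Filter.Eventually.of_forall fun ω => ?_
  rw [Real.norm_eq_abs, abs_of_nonneg (mf_nonneg hh ω)]
  exact min_le_left _ _

theorem mag_le {h : ℝ} (hh : 0 ≤ h) (p : unitInterval) :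
    mag p h ≤ theta p + ∫ ω, mf h ω ∂(bondLaw p) := by
  rw [mag_eq hh]
  have hI : MeasurableSet {ω : sqLattice.edgeSet → Bool | (cluster0 ω).Infinite} :=
    measurableSet_fin.compl
  have e : theta p = ∫ ω, ({ω : sqLattice.edgeSet → Bool | (cluster0 ω).Infinite}.indicator
      (fun _ => (1 : ℝ))) ω ∂(bondLaw p) := by
    rw [integral_indicator hI]
    simp [theta]
  rw [e, ← integral_add ((integrable_const (1 : ℝ)).indicator hI) (integrable_mf hh p)]
  apply integral_mono ((integrable_const 1).sub (integrable_zf hh p))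
    (((integrable_const (1 : ℝ)).indicator hI).add (integrable_mf hh p))
  intro ω
  simp only [Pi.add_apply, Pi.sub_apply]
  by_cases hfin : (cluster0 ω).Finite
  · have h1 : zf h ω = Real.exp (-(h * sz ω)) := by unfold zf sz; rw [if_pos hfin]
    have h2 : ω ∉ {ω : sqLattice.edgeSet → Bool | (cluster0 ω).Infinite} := fun hc => hc hfin
    rw [Set.indicator_of_notMem h2, h1, zero_add]
    unfold mf
    apply le_min
    · have := Real.exp_pos (-(h * sz ω))
      linarith
    · have := Real.add_one_le_exp (-(h * sz ω))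
      linarith
  · have h2 : ω ∈ {ω : sqLattice.edgeSet → Bool | (cluster0 ω).Infinite} := hfin
    rw [Set.indicator_of_mem h2]
    have h3 := zf_nonneg h ω
    have h4 := mf_nonneg hh ω
    linarith

theorem theta_le_mag {h : ℝ} (hh : 0 ≤ h) (p : unitInterval) : theta p ≤ mag p h := by
  rw [mag_eq hh]
  have hI : MeasurableSet {ω : sqLattice.edgeSet → Bool | (cluster0 ω).Infinite} :=
    measurableSet_fin.compl
  have e : theta p = ∫ ω, ({ω : sqLattice.edgeSet → Bool | (cluster0 ω).Infinite}.indicator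
      (fun _ => (1 : ℝ))) ω ∂(bondLaw p) := by
    rw [integral_indicator hI]
    simp [theta]
  rw [e]
  apply integral_mono ((integrable_const (1 : ℝ)).indicator hI)
    ((integrable_const 1).sub (integrable_zf hh p))
  intro ω
  simp only [Pi.sub_apply]
  by_cases hfin : (cluster0 ω).Finite
  · have h2 : ω ∉ {ω : sqLattice.edgeSet → Bool | (cluster0 ω).Infinite} := fun hc => hc hfin
    rw [Set.indicator_of_notMem h2]
    have := zf_le hh ω
    linarith
  · have h2 : ω ∈ {ω : sqLattice.edgeSet → Bool | (cluster0 ω).Infinite} := hfin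
    rw [Set.indicator_of_mem h2]
    have h1 : zf h ω = 0 := by unfold zf; rw [if_neg hfin]
    rw [h1]
    simp

/-- `1 - exp (-x) ≥ (1 - exp (-1)) min (1, x)` -/
theorem one_sub_exp_ge {x : ℝ} (hx : 0 ≤ x) :
    (1 - Real.exp (-1)) * min 1 x ≤ 1 - Real.exp (-x) := by
  have he : Real.exp (-1) ≤ 1 := by rw [Real.exp_le_one_iff]; norm_num
  rcases le_or_gt 1 x with h1 | h1
  · rw [min_eq_left h1, mul_one]
    have : Real.exp (-x) ≤ Real.exp (-1) := Real.exp_le_exp.2 (by linarith)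
    linarith
  · rw [min_eq_right h1.le]
    have hc := convexOn_exp.2 (Set.mem_univ (0 : ℝ)) (Set.mem_univ (-1 : ℝ))
      (show (0 : ℝ) ≤ 1 - x by linarith) hx (by ring)
    simp only [smul_eq_mul, mul_zero, zero_add, Real.exp_zero, mul_one, mul_neg] at hc
    linarith

theorem mag_ge {h a : ℝ} (hh : 0 ≤ h) (ha : 0 < a) (p : unitInterval) :
    (1 - Real.exp (-1)) * min 1 (h * a) * (bondLaw p).real {ω | a ≤ sz ω} ≤ mag p h := by
  rw [mag_eq hh]
  have he : Real.exp (-1) ≤ 1 := by rw [Real.exp_le_one_iff]; norm_num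
  have hI := meas_le_sz a
  have e : (1 - Real.exp (-1)) * min 1 (h * a) * (bondLaw p).real {ω | a ≤ sz ω} =
      ∫ ω, ({ω | a ≤ sz ω}.indicator (fun _ => (1 - Real.exp (-1)) * min 1 (h * a))) ω
        ∂(bondLaw p) := by
    rw [integral_indicator hI]
    simp [mul_comm]
  rw [e]
  apply integral_mono ((integrable_const _).indicator hI)
    ((integrable_const 1).sub (integrable_zf hh p))
  intro ω
  simp only [Pi.sub_apply]
  by_cases haω : a ≤ sz ω
  · have h2 : ω ∈ {ω | a ≤ sz ω} := haω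
    rw [Set.indicator_of_mem h2]
    by_cases hfin : (cluster0 ω).Finite
    · have h1 : zf h ω = Real.exp (-(h * sz ω)) := by unfold zf sz; rw [if_pos hfin]
      rw [h1]
      refine le_trans ?_ (one_sub_exp_ge (mul_nonneg hh (sz_nonneg ω)))
      apply mul_le_mul_of_nonneg_left _ (by linarith)
      exact min_le_min (le_refl _) (mul_le_mul_of_nonneg_left haω hh)
    · exfalso
      rw [inf_sz hfin] at haω
      linarith
  · have h2 : ω ∉ {ω | a ≤ sz ω} := haω
    rw [Set.indicator_of_notMem h2]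
    have := zf_le hh ω
    linarith

/-- the truncated mean, by the mean -/
theorem mf_le_mean {h B : ℝ} (hh : 0 ≤ h) (hB : 0 ≤ B) (p : unitInterval)
    (hm : ∫⁻ ω, ENNReal.ofReal (sz ω ^ (1 : ℝ)) ∂(bondLaw p) ≤ ENNReal.ofReal B) :
    ∫ ω, mf h ω ∂(bondLaw p) ≤ h * B := by
  have h1 := ofReal_integral_eq_lintegral_ofReal (integrable_mf hh p)
    (Filter.Eventually.of_forall (mf_nonneg hh))
  have h2 : ∫⁻ ω, ENNReal.ofReal (mf h ω) ∂(bondLaw p) ≤
      ENNReal.ofReal h * ∫⁻ ω, ENNReal.ofReal (sz ω ^ (1 : ℝ)) ∂(bondLaw p) := by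
    rw [← lintegral_const_mul _ (measurable_sz.pow_const 1).ennreal_ofReal]
    apply lintegral_mono
    intro ω
    simp only [Real.rpow_one]
    rw [← ENNReal.ofReal_mul hh]
    exact ENNReal.ofReal_le_ofReal (min_le_right _ _)
  have h3 : ENNReal.ofReal (∫ ω, mf h ω ∂(bondLaw p)) ≤ ENNReal.ofReal (h * B) := by
    rw [h1, ENNReal.ofReal_mul hh]
    exact h2.trans (mul_le_mul_right hm _)
  exact (ENNReal.ofReal_le_ofReal_iff (mul_nonneg hh hB)).1 h3

/-- the truncated mean, at criticality -/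
theorem mf_le_crit : ∃ C : ℝ, 0 < C ∧ ∀ p : unitInterval, ∀ h : ℝ, 0 < h →
    ∫ ω, mf h ω ∂(bondLaw p) ≤ C * h ^ (5 / 91 : ℝ) := by
  obtain ⟨c, C, hc, hC, hT⟩ := tail_all
  refine ⟨C * (91 / 86), by positivity, fun p h hh => ?_⟩
  obtain ⟨β, hβ, hb⟩ := hT p
  have h1 := ofReal_integral_eq_lintegral_ofReal (integrable_mf hh.le p)
    (Filter.Eventually.of_forall (mf_nonneg hh.le))
  rw [lintegral_eq_lintegral_meas_le _ (Filter.Eventually.of_forall (mf_nonneg hh.le))
    (measurable_mf h).aemeasurable] at h1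
  have hint : IntervalIntegrable (fun t : ℝ => C * h ^ (5 / 91 : ℝ) * t ^ (-(5 / 91) : ℝ))
      volume 0 1 :=
    (intervalIntegral.intervalIntegrable_rpow' (by norm_num)).const_mul _
  have h2 : ∫⁻ t in Set.Ioi (0 : ℝ), bondLaw p {ω | t ≤ mf h ω} ≤
      ∫⁻ t in Set.Ioc (0 : ℝ) 1, ENNReal.ofReal (C * h ^ (5 / 91 : ℝ) * t ^ (-(5 / 91) : ℝ)) := by
    rw [← Set.Ioc_union_Ioi_eq_Ioi (show (0 : ℝ) ≤ 1 by norm_num)]
    refine (lintegral_union_le _ _ _).trans ?_
    have hz : ∫⁻ t in Set.Ioi (1 : ℝ), bondLaw p {ω | t ≤ mf h ω} = 0 := by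
      rw [setLIntegral_congr_fun (g := fun _ => 0) measurableSet_Ioi]
      · simp
      · intro t ht
        have : {ω | t ≤ mf h ω} = ∅ := by
          ext ω
          simp only [Set.mem_ofPred_eq, Set.mem_empty_iff_false, iff_false, not_le]
          exact lt_of_le_of_lt (min_le_left _ _) ht
        simp only [this, measure_empty]
    rw [hz, add_zero]
    apply setLIntegral_mono' measurableSet_Ioc
    intro t ht
    rw [← ENNReal.ofReal_toReal (measure_ne_top (bondLaw p) {ω | t ≤ mf h ω})]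
    apply ENNReal.ofReal_le_ofReal
    have ht0 : 0 < t := ht.1
    have h3 := hb (t / h) (by positivity)
    have h4 : (bondLaw p).real {ω | t ≤ mf h ω} ≤ (bondLaw p).real {ω | t / h ≤ sz ω} := by
      refine measureReal_mono ?_
      intro ω hω
      have : t ≤ h * sz ω := le_trans hω (min_le_right _ _)
      show t / h ≤ sz ω
      rw [div_le_iff₀ hh]
      linarith
    refine h4.trans (h3.trans ?_)
    have h5 : Real.exp (-(c * (t / h * |(p : ℝ) - 1 / 2| ^ (91 / 36 : ℝ)) ^ β)) ≤ 1 := by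
      rw [Real.exp_le_one_iff]
      have : 0 ≤ c * (t / h * |(p : ℝ) - 1 / 2| ^ (91 / 36 : ℝ)) ^ β := by positivity
      linarith
    have h6 : (t / h) ^ (-(5 / 91) : ℝ) = h ^ (5 / 91 : ℝ) * t ^ (-(5 / 91) : ℝ) := by
      rw [Real.div_rpow ht0.le hh.le, Real.rpow_neg hh.le, div_inv_eq_mul, mul_comm]
    calc C * (t / h) ^ (-(5 / 91) : ℝ) *
          Real.exp (-(c * (t / h * |(p : ℝ) - 1 / 2| ^ (91 / 36 : ℝ)) ^ β)) ≤
          C * (t / h) ^ (-(5 / 91) : ℝ) * 1 := mul_le_mul_of_nonneg_left h5 (by positivity)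
      _ = C * h ^ (5 / 91 : ℝ) * t ^ (-(5 / 91) : ℝ) := by rw [h6]; ring
  have h3 : ∫⁻ t in Set.Ioc (0 : ℝ) 1,
      ENNReal.ofReal (C * h ^ (5 / 91 : ℝ) * t ^ (-(5 / 91) : ℝ)) =
      ENNReal.ofReal (C * (91 / 86) * h ^ (5 / 91 : ℝ)) := by
    rw [← ofReal_integral_eq_lintegral_ofReal
      ((intervalIntegrable_iff_integrableOn_Ioc_of_le (by norm_num)).1 hint)]
    · congr 1
      rw [← intervalIntegral.integral_of_le (by norm_num), intervalIntegral.integral_const_mul,
        integral_rpow (Or.inl (by norm_num))]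
      have e1 : (1 : ℝ) ^ (-(5 / 91) + 1 : ℝ) = 1 := Real.one_rpow _
      have e2 : (0 : ℝ) ^ (-(5 / 91) + 1 : ℝ) = 0 := Real.zero_rpow (by norm_num)
      rw [e1, e2]
      ring
    · rw [Filter.EventuallyLE, ae_restrict_iff' measurableSet_Ioc]
      refine Filter.Eventually.of_forall fun t ht => ?_
      have ht0 : 0 < t := ht.1
      simp only [Pi.zero_apply]
      positivity
  rw [h3] at h2
  rw [← h1] at h2
  exact (ENNReal.ofReal_le_ofReal_iff (by positivity)).1 h2

/-- **the magnetization** -/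
theorem magnet : ∃ c C : ℝ, 0 < c ∧ 0 < C ∧
    (∀ p : unitInterval, (p : ℝ) < 1 / 2 → ∀ h : ℝ, 0 < h → h ≤ 1 →
      c * min (h ^ (5 / 91 : ℝ)) (h * (1 / 2 - (p : ℝ)) ^ (-(43 / 18) : ℝ)) ≤ mag p h ∧
      mag p h ≤ C * min (h ^ (5 / 91 : ℝ)) (h * (1 / 2 - (p : ℝ)) ^ (-(43 / 18) : ℝ))) ∧
    (∀ p : unitInterval, (1 / 2 : ℝ) ≤ p → ∀ h : ℝ, 0 < h → h ≤ 1 →
      c * max (h ^ (5 / 91 : ℝ)) (((p : ℝ) - 1 / 2) ^ (5 / 36 : ℝ)) ≤ mag p h ∧
      mag p h ≤ C * max (h ^ (5 / 91 : ℝ)) (((p : ℝ) - 1 / 2) ^ (5 / 36 : ℝ))) := by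
  obtain ⟨c1, hc1, h1⟩ := Pool.Agent.Y554.NC.theta_lower'
  obtain ⟨C1, hC1, h2⟩ := Pool.Agent.Y554.NC.theta_upper
  obtain ⟨c2, hc2, h3⟩ := tail_lower_scale
  obtain ⟨C2, hC2, h4⟩ := moment_upper (s := 1) (by norm_num)
  obtain ⟨C3, hC3, h5⟩ := mf_le_crit
  have hE : 0 < 1 - Real.exp (-1) := by
    have : Real.exp (-1) < 1 := by rw [Real.exp_lt_one_iff]; norm_num
    linarith
  obtain ⟨E, hEE⟩ : ∃ E : ℝ, E = 1 - Real.exp (-1) := ⟨_, rfl⟩
  rw [← hEE] at hE
  obtain ⟨q, hq⟩ : ∃ q : ℝ, q = (1 / 4 : ℝ) ^ (43 / 18 : ℝ) := ⟨_, rfl⟩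
  have hq0 : 0 < q := by rw [hq]; positivity
  obtain ⟨r, hr⟩ : ∃ r : ℝ, r = (1 / 4 : ℝ) ^ (5 / 36 : ℝ) := ⟨_, rfl⟩
  have hr0 : 0 < r := by rw [hr]; positivity
  have hr1 : r ≤ 1 := by rw [hr]; exact Real.rpow_le_one (by norm_num) (by norm_num) (by norm_num)
  refine ⟨min (min (E * c2) (E * q)) (min (c1 * r) c1), max (max C2 C3) (C1 + C3),
    by positivity, by positivity, ?_, ?_⟩
  · intro p hp h hh hh1
    have hd : 0 < 1 / 2 - (p : ℝ) := by linarith
    have hpn : (p : ℝ) ≠ 1 / 2 := by linarith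
    have habs : |(p : ℝ) - 1 / 2| = 1 / 2 - (p : ℝ) := by
      rw [abs_sub_comm, abs_of_nonneg hd.le]
    have h3' := h3 p
    have h4' := h4 p hpn
    rw [habs] at h3' h4'
    have hth : theta p = 0 := theta_half_le hp.le
    have hd1 : 1 / 2 - (p : ℝ) ≤ 1 := by have := p.2.1; linarith
    have hgeA := fun a (ha : 0 < a) => mag_ge (h := h) (a := a) hh.le ha p
    rw [← hEE] at hgeA
    have htail1 := one_le_tail p hp.le
    obtain ⟨d, hdd⟩ : ∃ d : ℝ, d = 1 / 2 - (p : ℝ) := ⟨_, rfl⟩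
    rw [← hdd] at hd hd1 h3' h4' ⊢
    constructor
    · rcases le_or_gt (1 / 4 : ℝ) p with hp4 | hp4
      · have h3'' := h3' hp4 (by linarith)
        obtain ⟨τ, hτ⟩ : ∃ τ : ℝ, τ = d ^ (91 / 36 : ℝ) := ⟨_, rfl⟩
        have hτ0 : 0 < τ := by rw [hτ]; positivity
        have hτ1 : τ ≤ 1 := by rw [hτ]; exact Real.rpow_le_one hd.le hd1 (by norm_num)
        rw [← hτ] at h3''
        have hcc : min (min (E * c2) (E * q)) (min (c1 * r) c1) ≤ E * c2 :=
          (min_le_left _ _).trans (min_le_left _ _)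
        rcases le_or_gt τ h with hτh | hτh
        · -- `a = 1 / h`
          have ha1 : 1 ≤ h⁻¹ := (one_le_inv₀ hh).2 hh1
          have h6 := h3'' h⁻¹ ha1 (by
            rw [inv_mul_le_iff₀ hh]; linarith)
          have h7 := hgeA h⁻¹ (inv_pos.2 hh)
          rw [mul_inv_cancel₀ hh.ne', min_self, mul_one] at h7
          refine le_trans ?_ h7
          have e1 : (h⁻¹) ^ (-(5 / 91) : ℝ) = h ^ (5 / 91 : ℝ) := by
            rw [Real.inv_rpow hh.le, ← Real.rpow_neg hh.le, neg_neg]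
          rw [e1] at h6
          calc min (min (E * c2) (E * q)) (min (c1 * r) c1) *
                min (h ^ (5 / 91 : ℝ)) (h * d ^ (-(43 / 18) : ℝ)) ≤
                (E * c2) * h ^ (5 / 91 : ℝ) :=
                mul_le_mul hcc (min_le_left _ _) (by positivity) (by positivity)
            _ = E * (c2 * h ^ (5 / 91 : ℝ)) := by ring
            _ ≤ _ := mul_le_mul_of_nonneg_left h6 hE.le
        · -- `a = 1 / τ`
          have ha1 : 1 ≤ τ⁻¹ := (one_le_inv₀ hτ0).2 hτ1
          have h6 := h3'' τ⁻¹ ha1 (by rw [inv_mul_cancel₀ hτ0.ne'])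
          have h7 := hgeA τ⁻¹ (inv_pos.2 hτ0)
          have hmin : min 1 (h * τ⁻¹) = h * τ⁻¹ := by
            apply min_eq_right
            rw [← div_eq_mul_inv, div_le_one hτ0]
            exact hτh.le
          rw [hmin] at h7
          refine le_trans ?_ h7
          have e1 : τ⁻¹ * (τ⁻¹) ^ (-(5 / 91) : ℝ) = d ^ (-(43 / 18) : ℝ) := by
            nth_rewrite 1 [← Real.rpow_one τ⁻¹]
            rw [← Real.rpow_add (inv_pos.2 hτ0), Real.inv_rpow hτ0.le,
              ← Real.rpow_neg hτ0.le, hτ, ← Real.rpow_mul hd.le]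
            congr 1
            norm_num
          calc min (min (E * c2) (E * q)) (min (c1 * r) c1) *
                min (h ^ (5 / 91 : ℝ)) (h * d ^ (-(43 / 18) : ℝ)) ≤
                (E * c2) * (h * d ^ (-(43 / 18) : ℝ)) :=
                mul_le_mul hcc (min_le_right _ _) (by positivity) (by positivity)
            _ = E * (h * τ⁻¹) * (c2 * (τ⁻¹) ^ (-(5 / 91) : ℝ)) := by rw [← e1]; ring
            _ ≤ _ := mul_le_mul_of_nonneg_left h6 (by positivity)
      · have h7 := hgeA 1 one_pos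
        rw [mul_one, min_eq_right hh1] at h7
        refine le_trans ?_ h7
        have hcc : min (min (E * c2) (E * q)) (min (c1 * r) c1) ≤ E * q :=
          (min_le_left _ _).trans (min_le_right _ _)
        have hd4 : 1 / 4 ≤ d := by rw [hdd]; linarith
        have e1 : d ^ (-(43 / 18) : ℝ) ≤ (1 / 4 : ℝ) ^ (-(43 / 18) : ℝ) :=
          Real.rpow_le_rpow_of_nonpos (by norm_num) hd4 (by norm_num)
        have e2 : q * (1 / 4 : ℝ) ^ (-(43 / 18) : ℝ) = 1 := by
          rw [hq, ← Real.rpow_add (by norm_num)]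
          norm_num
        calc min (min (E * c2) (E * q)) (min (c1 * r) c1) *
              min (h ^ (5 / 91 : ℝ)) (h * d ^ (-(43 / 18) : ℝ)) ≤
              (E * q) * (h * (1 / 4 : ℝ) ^ (-(43 / 18) : ℝ)) := by
              apply mul_le_mul hcc _ (by positivity) (by positivity)
              exact (min_le_right _ _).trans (mul_le_mul_of_nonneg_left e1 hh.le)
          _ = E * h * (q * (1 / 4 : ℝ) ^ (-(43 / 18) : ℝ)) := by ring
          _ = E * h * 1 := by rw [e2]
          _ ≤ _ := mul_le_mul_of_nonneg_left htail1 (by positivity)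
    · have hm := mag_le hh.le p
      rw [hth, zero_add] at hm
      have hCC : max C2 C3 ≤ max (max C2 C3) (C1 + C3) := le_max_left _ _
      have hA : mag p h ≤ max (max C2 C3) (C1 + C3) * h ^ (5 / 91 : ℝ) :=
        (hm.trans (h5 p h hh)).trans (mul_le_mul_of_nonneg_right
          ((le_max_right _ _).trans hCC) (by positivity))
      have hB : mag p h ≤ max (max C2 C3) (C1 + C3) * (h * d ^ (-(43 / 18) : ℝ)) := by
        have h6 := mf_le_mean hh.le (by positivity) p h4'
        have e1 : (5 / 36 - 91 * 1 / 36 : ℝ) = -(43 / 18) := by norm_num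
        rw [e1] at h6
        refine (hm.trans h6).trans ?_
        calc h * (C2 * d ^ (-(43 / 18) : ℝ)) = C2 * (h * d ^ (-(43 / 18) : ℝ)) := by ring
          _ ≤ _ := mul_le_mul_of_nonneg_right ((le_max_left _ _).trans hCC) (by positivity)
      rcases min_choice (h ^ (5 / 91 : ℝ)) (h * d ^ (-(43 / 18) : ℝ)) with hmn | hmn
      · rw [hmn]; exact hA
      · rw [hmn]; exact hB
  · intro p hp h hh hh1
    have hd : 0 ≤ (p : ℝ) - 1 / 2 := by linarith
    have habs : |(p : ℝ) - 1 / 2| = (p : ℝ) - 1 / 2 := abs_of_nonneg hd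
    have h3' := h3 p
    rw [habs] at h3'
    have hd1 : (p : ℝ) - 1 / 2 ≤ 1 := by have := p.2.2; linarith
    have hgeA := fun a (ha : 0 < a) => mag_ge (h := h) (a := a) hh.le ha p
    rw [← hEE] at hgeA
    -- the percolation probability
    have hthL : c1 * ((p : ℝ) - 1 / 2) ^ (5 / 36 : ℝ) ≤ theta p := by
      rcases hp.lt_or_eq with hp' | hp'
      · exact h1 p hp'
      · have : (p : ℝ) - 1 / 2 = 0 := by linarith
        rw [this, Real.zero_rpow (by norm_num), mul_zero]
        exact measureReal_nonneg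
    have hthU : theta p ≤ C1 * ((p : ℝ) - 1 / 2) ^ (5 / 36 : ℝ) := by
      rcases hp.lt_or_eq with hp' | hp'
      · exact h2 p hp'
      · rw [theta_half_le hp'.symm.le]
        positivity
    have hmL := theta_le_mag hh.le p
    obtain ⟨d, hdd⟩ : ∃ d : ℝ, d = (p : ℝ) - 1 / 2 := ⟨_, rfl⟩
    rw [← hdd] at hd hd1 h3' hthL hthU ⊢
    have hh5 : h ^ (5 / 91 : ℝ) ≤ 1 := Real.rpow_le_one hh.le hh1 (by norm_num)
    constructor
    · have hk1 : min (min (E * c2) (E * q)) (min (c1 * r) c1) ≤ E * c2 :=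
        (min_le_left _ _).trans (min_le_left _ _)
      have hk2 : min (min (E * c2) (E * q)) (min (c1 * r) c1) ≤ c1 * r :=
        (min_le_right _ _).trans (min_le_left _ _)
      have hk3 : min (min (E * c2) (E * q)) (min (c1 * r) c1) ≤ c1 :=
        (min_le_right _ _).trans (min_le_right _ _)
      have hB : min (min (E * c2) (E * q)) (min (c1 * r) c1) * d ^ (5 / 36 : ℝ) ≤ mag p h :=
        (mul_le_mul_of_nonneg_right hk3 (by positivity)).trans (hthL.trans hmL)
      have hA : min (min (E * c2) (E * q)) (min (c1 * r) c1) * h ^ (5 / 91 : ℝ) ≤ mag p h := by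
        rcases le_or_gt (p : ℝ) (3 / 4) with hp4 | hp4
        · have h3'' := h3' (by linarith) hp4
          rcases le_or_gt (d ^ (91 / 36 : ℝ)) h with hτh | hτh
          · have ha1 : 1 ≤ h⁻¹ := (one_le_inv₀ hh).2 hh1
            have h6 := h3'' h⁻¹ ha1 (by
              rw [inv_mul_le_iff₀ hh]; linarith)
            have h7 := hgeA h⁻¹ (inv_pos.2 hh)
            rw [mul_inv_cancel₀ hh.ne', min_self, mul_one] at h7
            refine le_trans ?_ h7
            have e1 : (h⁻¹) ^ (-(5 / 91) : ℝ) = h ^ (5 / 91 : ℝ) := by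
              rw [Real.inv_rpow hh.le, ← Real.rpow_neg hh.le, neg_neg]
            rw [e1] at h6
            calc min (min (E * c2) (E * q)) (min (c1 * r) c1) * h ^ (5 / 91 : ℝ) ≤
                  (E * c2) * h ^ (5 / 91 : ℝ) := mul_le_mul_of_nonneg_right hk1 (by positivity)
              _ = E * (c2 * h ^ (5 / 91 : ℝ)) := by ring
              _ ≤ _ := mul_le_mul_of_nonneg_left h6 hE.le
          · refine le_trans ?_ hB
            apply mul_le_mul_of_nonneg_left _ (by positivity)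
            have e1 : d ^ (5 / 36 : ℝ) = (d ^ (91 / 36 : ℝ)) ^ (5 / 91 : ℝ) := by
              rw [← Real.rpow_mul hd]; norm_num
            rw [e1]
            exact Real.rpow_le_rpow hh.le hτh.le (by norm_num)
        · have hd4 : 1 / 4 ≤ d := by rw [hdd]; linarith
          have e1 : r ≤ d ^ (5 / 36 : ℝ) := by
            rw [hr]; exact Real.rpow_le_rpow (by norm_num) hd4 (by norm_num)
          calc min (min (E * c2) (E * q)) (min (c1 * r) c1) * h ^ (5 / 91 : ℝ) ≤
                (c1 * r) * 1 := mul_le_mul hk2 hh5 (by positivity) (by positivity)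
            _ = c1 * r := mul_one _
            _ ≤ c1 * d ^ (5 / 36 : ℝ) := mul_le_mul_of_nonneg_left e1 hc1.le
            _ ≤ _ := hthL.trans hmL
      rcases max_choice (h ^ (5 / 91 : ℝ)) (d ^ (5 / 36 : ℝ)) with hmn | hmn
      · rw [hmn]; exact hA
      · rw [hmn]; exact hB
    · have hm := mag_le hh.le p
      have h6 := h5 p h hh
      have hCC : C1 + C3 ≤ max (max C2 C3) (C1 + C3) := le_max_right _ _
      have k1 : h ^ (5 / 91 : ℝ) ≤ max (h ^ (5 / 91 : ℝ)) (d ^ (5 / 36 : ℝ)) := le_max_left _ _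
      have k2 : d ^ (5 / 36 : ℝ) ≤ max (h ^ (5 / 91 : ℝ)) (d ^ (5 / 36 : ℝ)) := le_max_right _ _
      calc mag p h ≤ C1 * d ^ (5 / 36 : ℝ) + C3 * h ^ (5 / 91 : ℝ) := by linarith
        _ ≤ C1 * max (h ^ (5 / 91 : ℝ)) (d ^ (5 / 36 : ℝ)) +
            C3 * max (h ^ (5 / 91 : ℝ)) (d ^ (5 / 36 : ℝ)) :=
            add_le_add (mul_le_mul_of_nonneg_left k2 hC1.le) (mul_le_mul_of_nonneg_left k1 hC3.le)
        _ = (C1 + C3) * max (h ^ (5 / 91 : ℝ)) (d ^ (5 / 36 : ℝ)) := by ring
        _ ≤ _ := mul_le_mul_of_nonneg_right hCC (by positivity)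

end Pool.Agent.N952.CS
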