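import Pool.Agent.N952.CS.Nn
import Pool.Agent.Y244.PC.Tails
import Pool.Agent.Y244.PC.ManyLow

/-!
Exponential moments of the number of far-reaching vertices.
-/

set_option autoImplicit false

namespace Pool.Agent.N952.CS
open Finset H974 Pool.Agent.H160R2.CV Pool.Agent.H160R2.CV.Quad

/-- all the vertices of `X` have an arm of length `n` -/
def AF (n : ℕ) (X : Finset Vtx) (F : Finset Edg) : Prop := ∀ x ∈ X, LA x n F

theorem pr_LAq {q : ℝ} (h0 : 0 ≤ q) (h1 : q ≤ 1) (S : Finset Edg) (v : Vtx) (m : ℕ) :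
    Pr (fun _ => q) S (LA v m) ≤ arm q m := by
  refine le_trans (Pr_mono (okq h0 h1) ?_) (arm_bound (q := q) h0 h1 S v m)
  rintro F _ ⟨w, -, k2, k3⟩
  exact ⟨w, by omega, k3.mono Set.inter_subset_left⟩

theorem LA_anti {F : Finset Edg} {v : Vtx} {m r : ℕ} (h : m ≤ r) (hF : LA v r F) : LA v m F :=
  LA_of_far h (far_of_LA hF)

theorem AF_incr (S : Finset Edg) (n : ℕ) (X : Finset Vtx) : IncrE S (AF n X) :=
  fun F G h _ hF x hx => LA_inc x n F G h (hF x hx)

/-- the bound for the arms up to scale `n` -/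
def AB (q A : ℝ) (n : ℕ) : Prop := ∀ m ≤ n, arm q m ≤ A * ((m : ℝ) + 1) ^ (-(5 / 48) : ℝ)

theorem half_gg {q A : ℝ} {n : ℕ} (hA : 0 < A) (hAB : AB q A n) {r : ℕ} (hr : r ≤ n) :
    arm q ((r - 1) / 2) ≤ gg (2 * A) r := by
  refine (hAB _ (by omega)).trans ?_
  unfold gg
  have h1 : ((r : ℝ) + 1) / 4 ≤ ((((r - 1) / 2 : ℕ)) : ℝ) + 1 := by
    have : r + 1 ≤ 4 * ((r - 1) / 2 + 1) := by omega
    have h2 : ((r + 1 : ℕ) : ℝ) ≤ ((4 * ((r - 1) / 2 + 1) : ℕ) : ℝ) := by exact_mod_cast this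
    rw [Nat.cast_mul, Nat.cast_add, Nat.cast_add] at h2
    simp only [Nat.cast_one, Nat.cast_ofNat] at h2
    linarith
  have h3 : (((((r - 1) / 2 : ℕ)) : ℝ) + 1) ^ (-(5 / 48) : ℝ) ≤
      (((r : ℝ) + 1) / 4) ^ (-(5 / 48) : ℝ) :=
    Real.rpow_le_rpow_of_nonpos (by positivity) h1 (by norm_num)
  have h4 : (((r : ℝ) + 1) / 4) ^ (-(5 / 48) : ℝ) =
      ((r : ℝ) + 1) ^ (-(5 / 48) : ℝ) * (4 : ℝ) ^ (5 / 48 : ℝ) := by
    rw [Real.div_rpow (by positivity) (by norm_num), Real.rpow_neg (by norm_num : (0 : ℝ) ≤ 4),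
      div_inv_eq_mul]
  have h5 : (4 : ℝ) ^ (5 / 48 : ℝ) ≤ 2 := by
    calc (4 : ℝ) ^ (5 / 48 : ℝ) ≤ (4 : ℝ) ^ (1 / 2 : ℝ) :=
          Real.rpow_le_rpow_of_exponent_le (by norm_num) (by norm_num)
      _ = 2 := by
          rw [← Real.sqrt_eq_rpow, show (4 : ℝ) = 2 ^ 2 by norm_num]
          exact Real.sqrt_sq (by norm_num)
  have h6 : (0 : ℝ) ≤ ((r : ℝ) + 1) ^ (-(5 / 48) : ℝ) := by positivity
  calc A * (((((r - 1) / 2 : ℕ)) : ℝ) + 1) ^ (-(5 / 48) : ℝ)
      ≤ A * (((r : ℝ) + 1) ^ (-(5 / 48) : ℝ) * (4 : ℝ) ^ (5 / 48 : ℝ)) := by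
        rw [← h4]; exact mul_le_mul_of_nonneg_left h3 hA.le
    _ ≤ A * (((r : ℝ) + 1) ^ (-(5 / 48) : ℝ) * 2) :=
        mul_le_mul_of_nonneg_left (mul_le_mul_of_nonneg_left h5 h6) hA.le
    _ = _ := by ring

/-- far-reaching points, the product bound -/
theorem far_prod {q A : ℝ} (h0 : 0 ≤ q) (h1 : q ≤ 1) (hA : 0 < A) {n : ℕ} (hAB : AB q A n)
    (X : Finset Vtx) (S : Finset Edg) :
    Pr (fun _ => q) S (AF n X) ≤ QQ (2 * A) n X := by
  classical
  obtain ⟨ρ, hρ⟩ : ∃ ρ : Vtx → ℕ, ρ = fun x => (rr n X x - 1) / 2 := ⟨_, rfl⟩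
  obtain ⟨U, hU⟩ : ∃ U : Finset Edg, U = S ∪ X.biUnion (fun x => bo x (ρ x)) := ⟨_, rfl⟩
  have ok := okq h0 h1
  have hρn : ∀ x, ρ x ≤ n := fun x => by
    have := rr_le_n n X x
    rw [hρ]; simp only; omega
  have hSU : S ⊆ U := by rw [hU]; exact subset_union_left
  have hbU : ∀ x ∈ X, bo x (ρ x) ⊆ U := by
    intro x hx
    rw [hU]
    exact (subset_biUnion_of_mem (fun x => bo x (ρ x)) hx).trans subset_union_right
  calc Pr (fun _ => q) S (AF n X) ≤ Pr (fun _ => q) U (AF n X) :=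
        Pr_mono_set ok hSU (AF_incr _ _ _)
    _ ≤ Pr (fun _ => q) U (fun F => ∀ x ∈ X, LA x (ρ x) F) :=
        Pr_mono ok fun F _ hF x hx => LA_anti (hρn x) (hF x hx)
    _ = ∏ x ∈ X, Pr (fun _ => q) U (LA x (ρ x)) := by
        apply Pool.Agent.Y244.PC.indep_prod X (fun x => LA x (ρ x)) (fun x => bo x (ρ x)) hbU
        · intro x hx y hy hne
          apply bo_disj
          have h2 := rr_le (n := n) hy (fun h => hne h.symm)
          have h3 := rr_le (n := n) hx hne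
          have h4 : nv (y - x) = nv (x - y) := nvc _ _
          have h5 : 1 ≤ nv (x - y) := by
            by_contra h6
            have h7 : nv (x - y) = 0 := by omega
            exact hne (sub_eq_zero.1 (nv_eq_zero h7))
          rw [hρ]; simp only; omega
        · intro x hx F
          exact LA_loc (le_refl _) F
    _ ≤ ∏ x ∈ X, gg (2 * A) (rr n X x) := by
        apply Finset.prod_le_prod (fun _ _ => Pr_nonneg ok _ _)
        intro x _
        refine (pr_LAq h0 h1 U x _).trans ?_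
        rw [hρ]
        exact half_gg hA hAB (rr_le_n _ _ _)
    _ = _ := rfl

/-- the number of far-reaching vertices of `B` -/
noncomputable def YY (n : ℕ) (B : Finset Vtx) (F : Finset Edg) : ℝ := ∑ x ∈ B, ind (LA x n F)

theorem YY_nonneg (n : ℕ) (B : Finset Vtx) (F : Finset Edg) : 0 ≤ YY n B F :=
  Finset.sum_nonneg fun _ _ => ind_nonneg _

theorem YY_le (n : ℕ) (B : Finset Vtx) (F : Finset Edg) : YY n B F ≤ B.card := by
  calc YY n B F ≤ ∑ x ∈ B, (1 : ℝ) := Finset.sum_le_sum fun _ _ => ind_le_one _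
    _ = B.card := by simp

theorem YY_mono {n : ℕ} {B : Finset Vtx} {F G : Finset Edg} (h : F ⊆ G) : YY n B F ≤ YY n B G :=
  Finset.sum_le_sum fun _ _ => ind_mono (LA_inc _ _ F G h)

theorem ind_AF_insert (n : ℕ) (X : Finset Vtx) (x : Vtx) (F : Finset Edg) :
    ind (LA x n F) * ind (AF n X F) = ind (AF n (insert x X) F) := by
  rw [← ind_and]
  apply ind_congr
  unfold AF
  rw [Finset.forall_mem_insert]

/-- mixed moments -/
theorem Ex_pow {q A : ℝ} (h0 : 0 ≤ q) (h1 : q ≤ 1) (hA : 0 < A) {n : ℕ} (hAB : AB q A n)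
    (B : Finset Vtx) (S : Finset Edg) (k : ℕ) : ∀ X : Finset Vtx,
    Ex (fun _ => q) S (fun F => YY n B F ^ k * ind (AF n X F)) ≤ UQ (2 * A) n B k X := by
  induction k with
  | zero =>
    intro X
    have : Ex (fun _ => q) S (fun F => YY n B F ^ 0 * ind (AF n X F)) =
        Pr (fun _ => q) S (AF n X) := by
      unfold Pr
      apply Ex_congr
      intro F _
      rw [pow_zero, one_mul]
    rw [this]
    exact far_prod h0 h1 hA hAB X S
  | succ k ih =>
    intro X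
    have e : Ex (fun _ => q) S (fun F => YY n B F ^ (k + 1) * ind (AF n X F)) =
        ∑ x ∈ B, Ex (fun _ => q) S (fun F => YY n B F ^ k * ind (AF n (insert x X) F)) := by
      rw [← Ex_sum]
      apply Ex_congr
      intro F _
      calc YY n B F ^ (k + 1) * ind (AF n X F) = YY n B F * (YY n B F ^ k * ind (AF n X F)) := by
            ring
        _ = (∑ x ∈ B, ind (LA x n F)) * (YY n B F ^ k * ind (AF n X F)) := rfl
        _ = _ := by
            rw [Finset.sum_mul]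
            apply Finset.sum_congr rfl
            intro x _
            rw [← ind_AF_insert]
            ring
    rw [e]
    exact Finset.sum_le_sum fun x _ => ih (insert x X)

theorem AB_one_le {q A : ℝ} {n : ℕ} (hAB : AB q A n) : 1 ≤ A := by
  have h := hAB 0 (Nat.zero_le _)
  rw [arm_zero] at h
  simpa using h

/-- moments -/
theorem Ex_pow_le {q A : ℝ} (h0 : 0 ≤ q) (h1 : q ≤ 1) {n : ℕ} (hAB : AB q A n)
    (B : Finset Vtx) (S : Finset Edg) (k : ℕ) (X : Finset Vtx) {m : ℕ} (hm : X.card ≤ m) :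
    Ex (fun _ => q) S (fun F => YY n B F ^ k * ind (AF n X F)) ≤
      DD (2 * A) n B ^ k * ((m + 1).ascFactorial k : ℝ) * QQ (2 * A) n X := by
  have hA := AB_one_le hAB
  exact (Ex_pow h0 h1 (by linarith) hAB B S k X).trans
    (UQ_le (by linarith) n B k X m hm)

theorem AF_empty (n : ℕ) (F : Finset Edg) : AF n ∅ F := fun x hx => absurd hx (Finset.notMem_empty x)

/-- first moment -/
theorem Ex_YY {q A : ℝ} (h0 : 0 ≤ q) (h1 : q ≤ 1) {n : ℕ} (hAB : AB q A n)
    (B : Finset Vtx) (S : Finset Edg) :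
    Ex (fun _ => q) S (YY n B) ≤ DD (2 * A) n B := by
  have h := Ex_pow_le h0 h1 hAB B S 1 ∅ (m := 0) (by simp)
  have e : Ex (fun _ => q) S (fun F => YY n B F ^ 1 * ind (AF n ∅ F)) =
      Ex (fun _ => q) S (YY n B) := by
    apply Ex_congr
    intro F _
    rw [ind_of (AF_empty n F), pow_one, mul_one]
  rw [e, QQ_empty] at h
  simpa using h

/-- second moment -/
theorem Ex_YY2 {q A : ℝ} (h0 : 0 ≤ q) (h1 : q ≤ 1) {n : ℕ} (hAB : AB q A n)
    (B : Finset Vtx) (S : Finset Edg) :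
    Ex (fun _ => q) S (fun F => YY n B F * YY n B F) ≤ 2 * DD (2 * A) n B ^ 2 := by
  have h := Ex_pow_le h0 h1 hAB B S 2 ∅ (m := 0) (by simp)
  have e : Ex (fun _ => q) S (fun F => YY n B F ^ 2 * ind (AF n ∅ F)) =
      Ex (fun _ => q) S (fun F => YY n B F * YY n B F) := by
    apply Ex_congr
    intro F _
    rw [ind_of (AF_empty n F), mul_one, sq]
  rw [e, QQ_empty] at h
  refine h.trans (le_of_eq ?_)
  simp [Nat.ascFactorial]
  ring

/-- the exponential series of an expectation -/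
theorem hasSum_Ex {q : ℝ} (S : Finset Edg) (l : ℝ) (Y g : Finset Edg → ℝ) :
    HasSum (fun k : ℕ => l ^ k / (k.factorial : ℝ) * Ex (fun _ => q) S (fun F => Y F ^ k * g F))
      (Ex (fun _ => q) S (fun F => Real.exp (l * Y F) * g F)) := by
  have h : ∀ F ∈ S.powerset, HasSum (fun k : ℕ => (∏ e ∈ F, q) * (∏ e ∈ S \ F, (1 - q)) *
      ((l * Y F) ^ k / (k.factorial : ℝ) * g F)) ((∏ e ∈ F, q) * (∏ e ∈ S \ F, (1 - q)) *
        (Real.exp (l * Y F) * g F)) := by
    intro F _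
    apply HasSum.mul_left
    apply HasSum.mul_right
    rw [Real.exp_eq_exp_ℝ]
    exact NormedSpace.expSeries_div_hasSum_exp (l * Y F)
  have h2 := hasSum_sum h
  have e : (fun k : ℕ => l ^ k / (k.factorial : ℝ) * Ex (fun _ => q) S (fun F => Y F ^ k * g F)) =
      fun k : ℕ => ∑ F ∈ S.powerset, (∏ e ∈ F, q) * (∏ e ∈ S \ F, (1 - q)) *
        ((l * Y F) ^ k / (k.factorial : ℝ) * g F) := by
    funext k
    unfold Ex
    rw [Finset.mul_sum]
    apply Finset.sum_congr rfl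
    intro F _
    rw [mul_pow]
    ring
  rw [e]
  exact h2

theorem one_asc (k : ℕ) : (0 + 1).ascFactorial k = k.factorial := by
  rw [Nat.zero_add, Nat.one_ascFactorial]

theorem two_asc (k : ℕ) : (1 + 1).ascFactorial k = (k + 1) * k.factorial := by
  have h := Nat.factorial_mul_ascFactorial 1 k
  rw [Nat.factorial_one, one_mul] at h
  rw [h, Nat.add_comm 1 k, Nat.factorial_succ]

/-- exponential moments -/
theorem exp_moment {q A : ℝ} (h0 : 0 ≤ q) (h1 : q ≤ 1) {n : ℕ} (hAB : AB q A n)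
    (B : Finset Vtx) (S : Finset Edg) {l : ℝ} (hl0 : 0 ≤ l) (hl : l * DD (2 * A) n B ≤ 1 / 2) :
    Ex (fun _ => q) S (fun F => Real.exp (l * YY n B F)) ≤ 2 := by
  have h := hasSum_Ex (q := q) S l (YY n B) (fun F => ind (AF n ∅ F))
  have e : Ex (fun _ => q) S (fun F => Real.exp (l * YY n B F) * ind (AF n ∅ F)) =
      Ex (fun _ => q) S (fun F => Real.exp (l * YY n B F)) := by
    apply Ex_congr
    intro F _
    rw [ind_of (AF_empty n F), mul_one]
  rw [e] at h
  have hD : 0 < DD (2 * A) n B := DD_pos (by have := AB_one_le hAB; linarith) n B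
  refine hasSum_le (fun k => ?_) h hasSum_geometric_two
  have h2 := Ex_pow_le h0 h1 hAB B S k ∅ (m := 0) (by simp)
  rw [QQ_empty, mul_one, one_asc] at h2
  have hk : (0 : ℝ) < (k.factorial : ℝ) := by exact_mod_cast Nat.factorial_pos k
  calc l ^ k / (k.factorial : ℝ) * Ex (fun _ => q) S (fun F => YY n B F ^ k * ind (AF n ∅ F))
      ≤ l ^ k / (k.factorial : ℝ) * (DD (2 * A) n B ^ k * (k.factorial : ℝ)) :=
        mul_le_mul_of_nonneg_left h2 (by positivity)
    _ = (l * DD (2 * A) n B) ^ k := by rw [mul_pow]; field_simp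
    _ ≤ (1 / 2) ^ k := pow_le_pow_left₀ (by positivity) hl k

theorem hasSum_succ_half : HasSum (fun k : ℕ => ((k : ℝ) + 1) * (1 / 2 : ℝ) ^ k) 4 := by
  have h1 : HasSum (fun k : ℕ => (k : ℝ) * (1 / 2 : ℝ) ^ k) 2 := by
    have := hasSum_coe_mul_geometric_of_norm_lt_one (r := (1 / 2 : ℝ)) (by norm_num)
    norm_num at this
    convert this using 2
  have h2 : HasSum (fun k : ℕ => (1 / 2 : ℝ) ^ k) 2 := hasSum_geometric_two
  have h3 := h1.add h2
  have e : (fun k : ℕ => ((k : ℝ) + 1) * (1 / 2 : ℝ) ^ k) =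
      fun k : ℕ => (k : ℝ) * (1 / 2 : ℝ) ^ k + (1 / 2 : ℝ) ^ k := by
    funext k; ring
  rw [e]
  convert h3 using 1
  norm_num

/-- exponential moments with one arm -/
theorem exp_moment_arm {q A : ℝ} (h0 : 0 ≤ q) (h1 : q ≤ 1) {n : ℕ} (hAB : AB q A n)
    (B : Finset Vtx) (S : Finset Edg) (v : Vtx) {l : ℝ} (hl0 : 0 ≤ l)
    (hl : l * DD (2 * A) n B ≤ 1 / 2) :
    Ex (fun _ => q) S (fun F => Real.exp (l * YY n B F) * ind (LA v n F)) ≤
      4 * gg (2 * A) n := by
  have h := hasSum_Ex (q := q) S l (YY n B) (fun F => ind (AF n {v} F))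
  have e : Ex (fun _ => q) S (fun F => Real.exp (l * YY n B F) * ind (AF n {v} F)) =
      Ex (fun _ => q) S (fun F => Real.exp (l * YY n B F) * ind (LA v n F)) := by
    apply Ex_congr
    intro F _
    congr 1
    apply ind_congr
    unfold AF
    simp
  rw [e] at h
  have hA0 : (0 : ℝ) < 2 * A := by have := AB_one_le hAB; linarith
  have hD : 0 < DD (2 * A) n B := DD_pos hA0 n B
  have hg := gg_pos hA0 n
  refine hasSum_le (fun k => ?_) h (hasSum_succ_half.mul_right (gg (2 * A) n))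
  have h2 := Ex_pow_le h0 h1 hAB B S k {v} (m := 1) (by simp)
  rw [QQ_single, two_asc] at h2
  have hk : (0 : ℝ) < (k.factorial : ℝ) := by exact_mod_cast Nat.factorial_pos k
  calc l ^ k / (k.factorial : ℝ) * Ex (fun _ => q) S (fun F => YY n B F ^ k * ind (AF n {v} F))
      ≤ l ^ k / (k.factorial : ℝ) *
          (DD (2 * A) n B ^ k * (((k + 1) * k.factorial : ℕ) : ℝ) * gg (2 * A) n) :=
        mul_le_mul_of_nonneg_left h2 (by positivity)
    _ = ((k : ℝ) + 1) * (l * DD (2 * A) n B) ^ k * gg (2 * A) n := by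
        rw [mul_pow]; push_cast; field_simp
    _ ≤ ((k : ℝ) + 1) * (1 / 2) ^ k * gg (2 * A) n := by
        apply mul_le_mul_of_nonneg_right _ hg.le
        exact mul_le_mul_of_nonneg_left (pow_le_pow_left₀ (by positivity) hl k) (by positivity)

end Pool.Agent.N952.CS
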