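import Pool.Agent.N952.CS.Inf
import Mathlib.Analysis.SpecialFunctions.Pow.Integral
import Mathlib.MeasureTheory.Integral.Gamma

/-!
The moments of the size of the finite clusters.
-/

set_option autoImplicit false

namespace Pool.Agent.N952.CS
open Finset H974 Pool.Agent.H160R2.CV Pool.Agent.H160R2.CV.Quad Pool.Agent.Y244.PC MeasureTheory Filter

/-- the tail for all positive thresholds -/
theorem tail_all : ∃ c C : ℝ, 0 < c ∧ 0 < C ∧ ∀ p : unitInterval, ∃ β : ℝ, (β = 1 ∨ β = 1 / 2) ∧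
    ∀ t : ℝ, 0 < t → (bondLaw p).real {ω | t ≤ sz ω} ≤ C * t ^ (-(5 / 91) : ℝ) *
      Real.exp (-(c * (t * |(p : ℝ) - 1 / 2| ^ (91 / 36 : ℝ)) ^ β)) := by
  obtain ⟨c, C, hc, hC, h1, h2⟩ := tails
  refine ⟨c, max C (Real.exp c), hc, lt_max_of_lt_left hC, fun p => ?_⟩
  have hτ0 : 0 ≤ |(p : ℝ) - 1 / 2| ^ (91 / 36 : ℝ) := Real.rpow_nonneg (abs_nonneg _) _
  have hτ1 : |(p : ℝ) - 1 / 2| ^ (91 / 36 : ℝ) ≤ 1 := by
    apply Real.rpow_le_one (abs_nonneg _) _ (by norm_num)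
    rw [abs_le]
    have := p.2.1
    have := p.2.2
    constructor <;> linarith
  have hp1 : (bondLaw p).real Set.univ ≤ 1 := by simp
  have key : ∀ β : ℝ, 0 < β →
      (∀ t : ℝ, 1 ≤ t → (bondLaw p).real {ω | t ≤ sz ω} ≤ C * t ^ (-(5 / 91) : ℝ) *
        Real.exp (-(c * (t * |(p : ℝ) - 1 / 2| ^ (91 / 36 : ℝ)) ^ β))) →
      ∀ t : ℝ, 0 < t → (bondLaw p).real {ω | t ≤ sz ω} ≤ max C (Real.exp c) *
        t ^ (-(5 / 91) : ℝ) * Real.exp (-(c * (t * |(p : ℝ) - 1 / 2| ^ (91 / 36 : ℝ)) ^ β)) := by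
    intro β hβ h t ht
    rcases le_or_gt 1 t with h1t | h1t
    · refine (h t h1t).trans ?_
      apply mul_le_mul_of_nonneg_right _ (Real.exp_pos _).le
      exact mul_le_mul_of_nonneg_right (le_max_left _ _) (by positivity)
    · have h3 : (bondLaw p).real {ω | t ≤ sz ω} ≤ 1 :=
        (measureReal_mono (Set.subset_univ _)).trans hp1
      refine h3.trans ?_
      have h4 : 1 ≤ t ^ (-(5 / 91) : ℝ) :=
        Real.one_le_rpow_of_pos_of_le_one_of_nonpos ht h1t.le (by norm_num)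
      have h5 : (t * |(p : ℝ) - 1 / 2| ^ (91 / 36 : ℝ)) ^ β ≤ 1 := by
        apply Real.rpow_le_one (by positivity) _ hβ.le
        calc t * |(p : ℝ) - 1 / 2| ^ (91 / 36 : ℝ) ≤ 1 * 1 :=
              mul_le_mul h1t.le hτ1 hτ0 (by norm_num)
          _ = 1 := by norm_num
      have h6 : Real.exp (-c) ≤
          Real.exp (-(c * (t * |(p : ℝ) - 1 / 2| ^ (91 / 36 : ℝ)) ^ β)) := by
        apply Real.exp_le_exp.2
        rw [neg_le_neg_iff]
        calc c * (t * |(p : ℝ) - 1 / 2| ^ (91 / 36 : ℝ)) ^ β ≤ c * 1 :=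
              mul_le_mul_of_nonneg_left h5 hc.le
          _ = c := mul_one c
      calc (1 : ℝ) = Real.exp c * 1 * Real.exp (-c) := by
            rw [mul_one, ← Real.exp_add]; simp
        _ ≤ max C (Real.exp c) * t ^ (-(5 / 91) : ℝ) *
            Real.exp (-(c * (t * |(p : ℝ) - 1 / 2| ^ (91 / 36 : ℝ)) ^ β)) := by
          apply mul_le_mul _ h6 (Real.exp_pos _).le (by positivity)
          exact mul_le_mul (le_max_right _ _) h4 (by norm_num) (by positivity)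
  rcases le_or_gt (p : ℝ) (1 / 2) with hp | hp
  · refine ⟨1, Or.inl rfl, key 1 (by norm_num) fun t ht => ?_⟩
    have := (h1 p hp t ht).2
    rw [Real.rpow_one, abs_sub_comm, abs_of_nonneg (by linarith)]
    exact this
  · refine ⟨1 / 2, Or.inr rfl, key (1 / 2) (by norm_num) fun t ht => ?_⟩
    have := (h2 p hp.le t ht).2
    rw [abs_of_nonneg (by linarith)]
    exact this

/-- the integral of the bound -/
theorem gamma_int {s c C τ β : ℝ} (hs : 5 / 91 < s) (hc : 0 < c) (hC : 0 < C) (hτ : 0 < τ)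
    (hβ : 0 < β) :
    ∫⁻ t in Set.Ioi (0 : ℝ), ENNReal.ofReal (C * t ^ (-(5 / 91) : ℝ) *
        Real.exp (-(c * (t * τ) ^ β))) * ENNReal.ofReal (t ^ (s - 1)) =
      ENNReal.ofReal (C * (c ^ (-(s - 5 / 91) / β) * (1 / β) * Real.Gamma ((s - 5 / 91) / β)) *
        τ ^ (-(s - 5 / 91))) := by
  have hb : 0 < c * τ ^ β := by positivity
  have hq : -1 < s - 1 - 5 / 91 := by linarith
  have hint := integrableOn_rpow_mul_exp_neg_mul_rpow hq hβ hb
  have hval := integral_rpow_mul_exp_neg_mul_rpow hβ hq hb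
  have e1 : ∫⁻ t in Set.Ioi (0 : ℝ), ENNReal.ofReal (C * t ^ (-(5 / 91) : ℝ) *
        Real.exp (-(c * (t * τ) ^ β))) * ENNReal.ofReal (t ^ (s - 1)) =
      ∫⁻ t in Set.Ioi (0 : ℝ), ENNReal.ofReal
        (C * (t ^ (s - 1 - 5 / 91) * Real.exp (-(c * τ ^ β) * t ^ β))) := by
    apply setLIntegral_congr_fun measurableSet_Ioi
    intro t ht
    have ht0 : 0 < t := ht
    simp only
    rw [← ENNReal.ofReal_mul (by positivity)]
    congr 1
    rw [Real.mul_rpow ht0.le hτ.le]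
    have e2 : t ^ (s - 1 - 5 / 91) = t ^ (-(5 / 91) : ℝ) * t ^ (s - 1) := by
      rw [← Real.rpow_add ht0]; congr 1; ring
    rw [e2]
    have e3 : -(c * (t ^ β * τ ^ β)) = -(c * τ ^ β) * t ^ β := by ring
    rw [e3]
    ring
  rw [e1, ← ofReal_integral_eq_lintegral_ofReal (hint.const_mul C), integral_const_mul, hval]
  · congr 1
    have e4 : (c * τ ^ β) ^ (-(s - 1 - 5 / 91 + 1) / β) =
        c ^ (-(s - 5 / 91) / β) * τ ^ (-(s - 5 / 91)) := by
      rw [show s - 1 - 5 / 91 + 1 = s - 5 / 91 by ring,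
        Real.mul_rpow hc.le (by positivity), ← Real.rpow_mul hτ.le]
      congr 2
      field_simp
    rw [e4, show s - 1 - 5 / 91 + 1 = s - 5 / 91 by ring]
    ring
  · rw [Filter.EventuallyLE, ae_restrict_iff' measurableSet_Ioi]
    refine Filter.Eventually.of_forall fun t ht => ?_
    have ht0 : 0 < t := ht
    simp only [Pi.zero_apply]
    positivity

/-- upper bound for the moments -/
theorem moment_upper {s : ℝ} (hs : 5 / 91 < s) : ∃ C : ℝ, 0 < C ∧ ∀ p : unitInterval,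
    (p : ℝ) ≠ 1 / 2 → ∫⁻ ω, ENNReal.ofReal (sz ω ^ s) ∂(bondLaw p) ≤
      ENNReal.ofReal (C * |(p : ℝ) - 1 / 2| ^ (5 / 36 - 91 * s / 36)) := by
  obtain ⟨c, C, hc, hC, h⟩ := tail_all
  have hs0 : 0 < s := by linarith
  have hs1 : 0 < s - 5 / 91 := by linarith
  obtain ⟨K, hK⟩ : ∃ K : ℝ → ℝ, K = fun β => s * (C * (c ^ (-(s - 5 / 91) / β) * (1 / β) *
      Real.Gamma ((s - 5 / 91) / β))) := ⟨_, rfl⟩
  have hKpos : ∀ β : ℝ, 0 < β → 0 < K β := by
    intro β hβ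
    rw [hK]
    have := Real.Gamma_pos_of_pos (div_pos hs1 hβ)
    positivity
  have hK1 := hKpos 1 (by norm_num)
  have hK2 := hKpos (1 / 2) (by norm_num)
  refine ⟨K 1 + K (1 / 2), by positivity, fun p hp => ?_⟩
  obtain ⟨β, hβ, hb⟩ := h p
  have hβ0 : 0 < β := by rcases hβ with rfl | rfl <;> norm_num
  have hd : 0 < |(p : ℝ) - 1 / 2| := abs_pos.2 (sub_ne_zero.2 hp)
  obtain ⟨d, hdd⟩ : ∃ d : ℝ, d = |(p : ℝ) - 1 / 2| := ⟨_, rfl⟩
  rw [← hdd] at hd hb ⊢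
  obtain ⟨τ, hτ⟩ : ∃ τ : ℝ, τ = d ^ (91 / 36 : ℝ) := ⟨_, rfl⟩
  have hτ0 : 0 < τ := by rw [hτ]; positivity
  rw [← hτ] at hb
  rw [lintegral_rpow_eq_lintegral_meas_le_mul _ (Filter.Eventually.of_forall sz_nonneg)
    measurable_sz.aemeasurable hs0]
  have step : ∫⁻ t in Set.Ioi (0 : ℝ), bondLaw p {ω | t ≤ sz ω} * ENNReal.ofReal (t ^ (s - 1)) ≤
      ∫⁻ t in Set.Ioi (0 : ℝ), ENNReal.ofReal (C * t ^ (-(5 / 91) : ℝ) *
        Real.exp (-(c * (t * τ) ^ β))) * ENNReal.ofReal (t ^ (s - 1)) := by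
    apply setLIntegral_mono' measurableSet_Ioi
    intro t ht
    apply mul_le_mul_left
    rw [← ENNReal.ofReal_toReal (measure_ne_top (bondLaw p) {ω | t ≤ sz ω})]
    exact ENNReal.ofReal_le_ofReal (hb t ht)
  refine (mul_le_mul_right step _).trans ?_
  rw [gamma_int hs hc hC hτ0 hβ0, ← ENNReal.ofReal_mul hs0.le]
  apply ENNReal.ofReal_le_ofReal
  have e1 : τ ^ (-(s - 5 / 91)) = d ^ (5 / 36 - 91 * s / 36) := by
    rw [hτ, ← Real.rpow_mul hd.le]
    congr 1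
    ring
  rw [e1]
  have e2 : s * (C * (c ^ (-(s - 5 / 91) / β) * (1 / β) * Real.Gamma ((s - 5 / 91) / β)) *
      d ^ (5 / 36 - 91 * s / 36)) = K β * d ^ (5 / 36 - 91 * s / 36) := by
    rw [hK]; ring
  rw [e2]
  apply mul_le_mul_of_nonneg_right _ (by positivity)
  rcases hβ with rfl | rfl
  · linarith
  · linarith

/-- Markov's inequality -/
theorem markov (p : unitInterval) {s a : ℝ} (hs : 0 < s) (ha : 0 < a) :
    ENNReal.ofReal (a ^ s * (bondLaw p).real {ω | a ≤ sz ω}) ≤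
      ∫⁻ ω, ENNReal.ofReal (sz ω ^ s) ∂(bondLaw p) := by
  have h1 := mul_meas_ge_le_lintegral (μ := bondLaw p)
    (f := fun ω => ENNReal.ofReal (sz ω ^ s)) ((measurable_sz.pow_const s).ennreal_ofReal)
    (ENNReal.ofReal (a ^ s))
  rw [ENNReal.ofReal_mul (by positivity)]
  refine le_trans ?_ h1
  apply mul_le_mul_right
  unfold Measure.real
  rw [ENNReal.ofReal_toReal (measure_ne_top _ _)]
  apply measure_mono
  intro ω hω
  exact ENNReal.ofReal_le_ofReal (Real.rpow_le_rpow ha.le hω hs.le)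

theorem one_le_tail (p : unitInterval) (hp : (p : ℝ) ≤ 1 / 2) :
    1 ≤ (bondLaw p).real {ω | 1 ≤ sz ω} := by
  have h0 : (bondLaw p).real {ω | (cluster0 ω).Infinite} = 0 := theta_half_le hp
  have h1 : (Set.univ : Set (sqLattice.edgeSet → Bool)) ⊆
      {ω | 1 ≤ sz ω} ∪ {ω | (cluster0 ω).Infinite} := by
    intro ω _
    by_cases hinf : (cluster0 ω).Infinite
    · exact Or.inr hinf
    · left
      have hfin := Set.not_infinite.1 hinf
      have h2 : (0, 0) ∈ cluster0 ω := (open_reach ω _ _).2 (Reach.refl _ _)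
      have h3 : 0 < (cluster0 ω).ncard := (Set.ncard_pos hfin).2 ⟨_, h2⟩
      show (1 : ℝ) ≤ ((cluster0 ω).ncard : ℝ)
      exact_mod_cast h3
  have h2 := (measureReal_mono (μ := bondLaw p) h1).trans (measureReal_union_le _ _)
  rw [h0, add_zero] at h2
  simpa using h2

/-- lower bound for the tail at the correlation scale -/
theorem tail_lower_scale : ∃ c : ℝ, 0 < c ∧ ∀ p : unitInterval, 1 / 4 ≤ (p : ℝ) →
    (p : ℝ) ≤ 3 / 4 → ∀ a : ℝ, 1 ≤ a → a * |(p : ℝ) - 1 / 2| ^ (91 / 36 : ℝ) ≤ 1 →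
      c * a ^ (-(5 / 91) : ℝ) ≤ (bondLaw p).real {ω | a ≤ sz ω} := by
  obtain ⟨c, C, hc, hC, h1, h2⟩ := tails
  refine ⟨c * Real.exp (-C), by positivity, fun p hp hp' a ha haτ => ?_⟩
  have ha0 : 0 < a := by linarith
  have key : ∀ y : ℝ, 0 ≤ y → y ≤ 1 → c * Real.exp (-C) * a ^ (-(5 / 91) : ℝ) ≤
      c * a ^ (-(5 / 91) : ℝ) * Real.exp (-(C * y)) := by
    intro y hy hy1
    have : Real.exp (-C) ≤ Real.exp (-(C * y)) := by
      apply Real.exp_le_exp.2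
      rw [neg_le_neg_iff]
      calc C * y ≤ C * 1 := mul_le_mul_of_nonneg_left hy1 hC.le
        _ = C := mul_one C
    calc c * Real.exp (-C) * a ^ (-(5 / 91) : ℝ) = c * a ^ (-(5 / 91) : ℝ) * Real.exp (-C) := by
          ring
      _ ≤ _ := mul_le_mul_of_nonneg_left this (by positivity)
  rcases le_or_gt (p : ℝ) (1 / 2) with hp2 | hp2
  · have h3 := (h1 p hp2 a ha).1 hp
    rw [abs_sub_comm, abs_of_nonneg (by linarith)] at haτ
    exact (key _ (mul_nonneg ha0.le (Real.rpow_nonneg (by linarith) _)) haτ).trans h3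
  · have h3 := (h2 p hp2.le a ha).1 hp'
    rw [abs_of_nonneg (by linarith)] at haτ
    have hy : 0 ≤ a * ((p : ℝ) - 1 / 2) ^ (91 / 36 : ℝ) :=
      mul_nonneg ha0.le (Real.rpow_nonneg (by linarith) _)
    exact (key _ (Real.rpow_nonneg hy _) (Real.rpow_le_one hy haτ (by norm_num))).trans h3

/-- lower bound for the moments -/
theorem moment_lower {s : ℝ} (hs : 5 / 91 < s) : ∃ c : ℝ, 0 < c ∧ ∀ p : unitInterval,
    (p : ℝ) ≠ 1 / 2 → (p : ℝ) ≤ 3 / 4 →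
      ENNReal.ofReal (c * |(p : ℝ) - 1 / 2| ^ (5 / 36 - 91 * s / 36)) ≤
        ∫⁻ ω, ENNReal.ofReal (sz ω ^ s) ∂(bondLaw p) := by
  obtain ⟨c, hc, h⟩ := tail_lower_scale
  have hs0 : 0 < s := by linarith
  have hs1 : 0 < s - 5 / 91 := by linarith
  refine ⟨min c ((1 / 4 : ℝ) ^ (91 * s / 36 - 5 / 36)), by positivity, fun p hp hp3 => ?_⟩
  have hd : 0 < |(p : ℝ) - 1 / 2| := abs_pos.2 (sub_ne_zero.2 hp)
  rcases le_or_gt (1 / 4 : ℝ) p with hp4 | hp4
  · have hd4 : |(p : ℝ) - 1 / 2| ≤ 1 := by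
      rw [abs_le]; constructor <;> linarith
    have hh := h p hp4 hp3
    obtain ⟨d, hdd⟩ : ∃ d : ℝ, d = |(p : ℝ) - 1 / 2| := ⟨_, rfl⟩
    rw [← hdd] at hd hd4 hh ⊢
    obtain ⟨τ, hτ⟩ : ∃ τ : ℝ, τ = d ^ (91 / 36 : ℝ) := ⟨_, rfl⟩
    have hτ0 : 0 < τ := by rw [hτ]; positivity
    have hτ1 : τ ≤ 1 := by rw [hτ]; exact Real.rpow_le_one hd.le hd4 (by norm_num)
    rw [← hτ] at hh
    have ha1 : 1 ≤ τ⁻¹ := (one_le_inv₀ hτ0).2 hτ1
    have h1 := hh τ⁻¹ ha1 (by rw [inv_mul_cancel₀ hτ0.ne'])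
    refine le_trans (ENNReal.ofReal_le_ofReal ?_) (markov p hs0 (inv_pos.2 hτ0))
    have e1 : (τ⁻¹) ^ s * (τ⁻¹) ^ (-(5 / 91) : ℝ) = d ^ (5 / 36 - 91 * s / 36) := by
      rw [← Real.rpow_add (inv_pos.2 hτ0), Real.inv_rpow hτ0.le, ← Real.rpow_neg hτ0.le, hτ,
        ← Real.rpow_mul hd.le]
      congr 1
      ring
    calc min c ((1 / 4 : ℝ) ^ (91 * s / 36 - 5 / 36)) * d ^ (5 / 36 - 91 * s / 36) ≤
          c * d ^ (5 / 36 - 91 * s / 36) :=
          mul_le_mul_of_nonneg_right (min_le_left _ _) (by positivity)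
      _ = (τ⁻¹) ^ s * (c * (τ⁻¹) ^ (-(5 / 91) : ℝ)) := by rw [← e1]; ring
      _ ≤ _ := mul_le_mul_of_nonneg_left h1 (by positivity)
  · have h1 := one_le_tail p (by linarith)
    refine le_trans (ENNReal.ofReal_le_ofReal ?_) (markov p hs0 one_pos)
    rw [Real.one_rpow, one_mul]
    refine le_trans ?_ h1
    have hd4 : (1 / 4 : ℝ) ≤ |(p : ℝ) - 1 / 2| := by
      rw [abs_sub_comm, abs_of_nonneg (by linarith)]; linarith
    have e1 : |(p : ℝ) - 1 / 2| ^ (5 / 36 - 91 * s / 36) ≤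
        (1 / 4 : ℝ) ^ (5 / 36 - 91 * s / 36) :=
      Real.rpow_le_rpow_of_nonpos (by norm_num) hd4 (by linarith)
    calc min c ((1 / 4 : ℝ) ^ (91 * s / 36 - 5 / 36)) * |(p : ℝ) - 1 / 2| ^ (5 / 36 - 91 * s / 36)
        ≤ (1 / 4 : ℝ) ^ (91 * s / 36 - 5 / 36) * (1 / 4 : ℝ) ^ (5 / 36 - 91 * s / 36) :=
          mul_le_mul (min_le_right _ _) e1 (by positivity) (by positivity)
      _ = 1 := by
          rw [← Real.rpow_add (by norm_num)]
          simp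

end Pool.Agent.N952.CS
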