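import Pool.Agent.H160R2.CV.Vol

/-!
Nearest neighbour distances in finite sets of vertices: the combinatorial part of the high moments
of the number of far-reaching vertices.
-/

set_option autoImplicit false

namespace Pool.Agent.N952.CS
open Finset H974 Pool.Agent.H160R2.CV

/-- distance from `x` to the other points of `X`, truncated at `n` -/
noncomputable def rr (n : ℕ) (X : Finset Vtx) (x : Vtx) : ℕ :=
  (insert n ((X.erase x).image fun y => nv (x - y))).min' (insert_nonempty _ _)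

theorem le_rr {n : ℕ} {X : Finset Vtx} {x : Vtx} {k : ℕ} :
    k ≤ rr n X x ↔ k ≤ n ∧ ∀ y ∈ X, y ≠ x → k ≤ nv (x - y) := by
  unfold rr
  rw [Finset.le_min'_iff]
  constructor
  · intro h
    exact ⟨h n (mem_insert_self _ _), fun y hy hne => h _ (mem_insert_of_mem
      (mem_image_of_mem (fun y => nv (x - y)) (mem_erase.2 ⟨hne, hy⟩)))⟩
  · rintro ⟨h1, h2⟩ b hb
    rw [mem_insert, mem_image] at hb
    rcases hb with rfl | ⟨y, hy, rfl⟩
    · exact h1
    · rw [mem_erase] at hy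
      exact h2 y hy.2 hy.1

theorem rr_le_n (n : ℕ) (X : Finset Vtx) (x : Vtx) : rr n X x ≤ n := (le_rr.1 le_rfl).1

theorem rr_le {n : ℕ} {X : Finset Vtx} {x y : Vtx} (hy : y ∈ X) (hne : y ≠ x) :
    rr n X x ≤ nv (x - y) := (le_rr.1 le_rfl).2 y hy hne

theorem rr_cases (n : ℕ) (X : Finset Vtx) (x : Vtx) :
    rr n X x = n ∨ ∃ y ∈ X, y ≠ x ∧ rr n X x = nv (x - y) ∧ nv (x - y) ≤ n := by
  have h := Finset.min'_mem (insert n ((X.erase x).image fun y => nv (x - y)))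
    (insert_nonempty _ _)
  rw [mem_insert, mem_image] at h
  rcases h with h | ⟨y, hy, h⟩
  · exact Or.inl h
  · rw [mem_erase] at hy
    have h1 : rr n X x = nv (x - y) := h.symm
    exact Or.inr ⟨y, hy.2, hy.1, h1, h1 ▸ rr_le_n n X x⟩

theorem nvc (x y : Vtx) : nv (x - y) = nv (y - x) := VolAux.nv_comm x y

theorem rr_other {n : ℕ} {X : Finset Vtx} {x y : Vtx} (hx : x ∉ X) (hy : y ∈ X) :
    rr n (insert x X) y = min (rr n X y) (nv (y - x)) := by
  have hne : x ≠ y := fun h => hx (h ▸ hy)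
  apply le_antisymm
  · apply le_min
    · rw [le_rr]
      exact ⟨rr_le_n _ _ _, fun z hz hzy => rr_le (mem_insert_of_mem hz) hzy⟩
    · exact rr_le (mem_insert_self _ _) hne
  · rw [le_rr]
    refine ⟨(min_le_left _ _).trans (rr_le_n _ _ _), fun z hz hzy => ?_⟩
    rw [mem_insert] at hz
    rcases hz with rfl | hz
    · exact min_le_right _ _
    · exact (min_le_left _ _).trans (rr_le hz hzy)

theorem rr_self_le {n : ℕ} {X : Finset Vtx} {x y : Vtx} (hx : x ∉ X) (hy : y ∈ X) :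
    rr n (insert x X) x ≤ nv (y - x) := by
  have hne : y ≠ x := fun h => hx (h ▸ hy)
  rw [← nvc]
  exact rr_le (mem_insert_of_mem hy) hne

/-- few points are closer to `x` than to all the other points (sup norm) -/
theorem kissing {n : ℕ} {X : Finset Vtx} {x : Vtx} :
    (X.filter fun y => nv (y - x) < rr n X y).card ≤ 4 := by
  classical
  have h4 : (Finset.univ : Finset (Bool × Bool)).card = 4 := rfl
  rw [← h4]
  refine Finset.card_le_card_of_injOn (fun y => (decide (x.1 ≤ y.1), decide (x.2 ≤ y.2)))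
    (fun _ _ => by simp) ?_
  have key : ∀ y ∈ X, ∀ y' ∈ X, nv (y - x) < rr n X y → nv (y' - x) < rr n X y' →
      (decide (x.1 ≤ y.1), decide (x.2 ≤ y.2)) = (decide (x.1 ≤ y'.1), decide (x.2 ≤ y'.2)) →
      nv (y' - x) ≤ nv (y - x) → y = y' := by
    intro y hy y' hy' h1 h2 he hle
    by_contra hne
    have h3 := rr_le (n := n) (X := X) (x := y) hy' (fun h => hne h.symm)
    rw [Prod.mk.injEq, decide_eq_decide, decide_eq_decide] at he
    obtain ⟨e1, e2⟩ := he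
    have h5 : nv (y - y') ≤ nv (y - x) := by
      unfold nv at hle ⊢
      simp only [Prod.fst_sub, Prod.snd_sub] at hle ⊢
      by_cases c1 : x.1 ≤ y.1 <;> by_cases c2 : x.2 ≤ y.2 <;>
        simp only [c1, c2, true_iff, false_iff] at e1 e2 <;> omega
    omega
  intro y hy y' hy' he
  rw [mem_coe, mem_filter] at hy hy'
  rcases le_total (nv (y' - x)) (nv (y - x)) with h | h
  · exact key y hy.1 y' hy'.1 hy.2 hy'.2 he h
  · exact (key y' hy'.1 y hy.1 hy'.2 hy.2 he.symm h).symm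

/-- the bound for one arm -/
noncomputable def gg (A : ℝ) (k : ℕ) : ℝ := A * ((k : ℝ) + 1) ^ (-(5 / 48) : ℝ)

theorem gg_pos {A : ℝ} (hA : 0 < A) (k : ℕ) : 0 < gg A k := by unfold gg; positivity

/-- the bound for the arms of the points of `X` -/
noncomputable def QQ (A : ℝ) (n : ℕ) (X : Finset Vtx) : ℝ := ∏ x ∈ X, gg A (rr n X x)

theorem QQ_pos {A : ℝ} (hA : 0 < A) (n : ℕ) (X : Finset Vtx) : 0 < QQ A n X :=
  Finset.prod_pos fun _ _ => gg_pos hA _

theorem QQ_empty (A : ℝ) (n : ℕ) : QQ A n ∅ = 1 := by simp [QQ]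

theorem rr_single (n : ℕ) (x : Vtx) : rr n {x} x = n := by
  apply le_antisymm (rr_le_n _ _ _)
  rw [le_rr]
  refine ⟨le_rfl, fun y hy hne => ?_⟩
  rw [mem_singleton] at hy
  exact absurd hy hne

theorem QQ_single (A : ℝ) (n : ℕ) (x : Vtx) : QQ A n {x} = gg A n := by
  unfold QQ
  rw [prod_singleton, rr_single]

/-- adding a point -/
theorem QQ_insert {A : ℝ} (hA : 0 < A) {n : ℕ} {X : Finset Vtx} {x : Vtx} (hx : x ∉ X) :
    QQ A n (insert x X) ≤ A * ((n : ℝ) + 1) ^ (20 / 48 : ℝ) *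
      ((rr n (insert x X) x : ℝ) + 1) ^ (-(25 / 48) : ℝ) * QQ A n X := by
  classical
  obtain ⟨δ, hδ⟩ : ∃ δ : ℕ, δ = rr n (insert x X) x := ⟨_, rfl⟩
  have hδn : (δ : ℝ) + 1 ≤ (n : ℝ) + 1 := by
    have : δ ≤ n := by rw [hδ]; exact rr_le_n _ _ _
    have : (δ : ℝ) ≤ n := by exact_mod_cast this
    linarith
  have hδ0 : (0 : ℝ) < (δ : ℝ) + 1 := by positivity
  have hn0 : (0 : ℝ) < (n : ℝ) + 1 := by positivity
  obtain ⟨ρ, hρ⟩ : ∃ ρ : ℝ, ρ = ((n : ℝ) + 1) ^ (5 / 48 : ℝ) * ((δ : ℝ) + 1) ^ (-(5 / 48) : ℝ) :=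
    ⟨_, rfl⟩
  have hρ1 : 1 ≤ ρ := by
    have h1 : ((δ : ℝ) + 1) ^ (5 / 48 : ℝ) ≤ ((n : ℝ) + 1) ^ (5 / 48 : ℝ) :=
      Real.rpow_le_rpow hδ0.le hδn (by norm_num)
    have h2 : ((δ : ℝ) + 1) ^ (5 / 48 : ℝ) * ((δ : ℝ) + 1) ^ (-(5 / 48) : ℝ) = 1 := by
      rw [← Real.rpow_add hδ0]; norm_num
    rw [hρ]
    calc (1 : ℝ) = ((δ : ℝ) + 1) ^ (5 / 48 : ℝ) * ((δ : ℝ) + 1) ^ (-(5 / 48) : ℝ) := h2.symm
      _ ≤ _ := mul_le_mul_of_nonneg_right h1 (by positivity)
  have hterm : ∀ y ∈ X, gg A (rr n (insert x X) y) ≤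
      gg A (rr n X y) * (if nv (y - x) < rr n X y then ρ else 1) := by
    intro y hy
    rw [rr_other hx hy]
    split_ifs with h
    · rw [min_eq_right h.le]
      have h1 : δ ≤ nv (y - x) := by rw [hδ]; exact rr_self_le hx hy
      have h2 : rr n X y ≤ n := rr_le_n _ _ _
      have h1' : (δ : ℝ) + 1 ≤ (nv (y - x) : ℝ) + 1 := by
        have : (δ : ℝ) ≤ nv (y - x) := by exact_mod_cast h1
        linarith
      have h2' : (rr n X y : ℝ) + 1 ≤ (n : ℝ) + 1 := by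
        have : (rr n X y : ℝ) ≤ n := by exact_mod_cast h2
        linarith
      unfold gg
      have k1 : ((nv (y - x) : ℝ) + 1) ^ (-(5 / 48) : ℝ) ≤ ((δ : ℝ) + 1) ^ (-(5 / 48) : ℝ) :=
        Real.rpow_le_rpow_of_nonpos hδ0 h1' (by norm_num)
      have k2 : ((n : ℝ) + 1) ^ (-(5 / 48) : ℝ) ≤ ((rr n X y : ℝ) + 1) ^ (-(5 / 48) : ℝ) :=
        Real.rpow_le_rpow_of_nonpos (by positivity) h2' (by norm_num)
      have k3 : ((n : ℝ) + 1) ^ (-(5 / 48) : ℝ) * ((n : ℝ) + 1) ^ (5 / 48 : ℝ) = 1 := by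
        rw [← Real.rpow_add hn0]; norm_num
      have k4 : (0 : ℝ) ≤ ((δ : ℝ) + 1) ^ (-(5 / 48) : ℝ) := by positivity
      have k5 : (0 : ℝ) ≤ ((n : ℝ) + 1) ^ (5 / 48 : ℝ) := by positivity
      calc A * ((nv (y - x) : ℝ) + 1) ^ (-(5 / 48) : ℝ)
          ≤ A * ((δ : ℝ) + 1) ^ (-(5 / 48) : ℝ) := mul_le_mul_of_nonneg_left k1 hA.le
        _ = A * (((n : ℝ) + 1) ^ (-(5 / 48) : ℝ) * (((n : ℝ) + 1) ^ (5 / 48 : ℝ) *
              ((δ : ℝ) + 1) ^ (-(5 / 48) : ℝ))) := by rw [← mul_assoc (_ ^ _) (_ ^ _), k3, one_mul]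
        _ ≤ A * (((rr n X y : ℝ) + 1) ^ (-(5 / 48) : ℝ) * (((n : ℝ) + 1) ^ (5 / 48 : ℝ) *
              ((δ : ℝ) + 1) ^ (-(5 / 48) : ℝ))) := by
            apply mul_le_mul_of_nonneg_left _ hA.le
            exact mul_le_mul_of_nonneg_right k2 (by positivity)
        _ = _ := by rw [hρ]; ring
    · rw [min_eq_left (not_lt.1 h), mul_one]
  have hprod : ∏ y ∈ X, gg A (rr n (insert x X) y) ≤ QQ A n X * ρ ^ 4 := by
    calc ∏ y ∈ X, gg A (rr n (insert x X) y)
        ≤ ∏ y ∈ X, gg A (rr n X y) * (if nv (y - x) < rr n X y then ρ else 1) :=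
          Finset.prod_le_prod (fun _ _ => (gg_pos hA _).le) hterm
      _ = QQ A n X * ρ ^ (X.filter fun y => nv (y - x) < rr n X y).card := by
          rw [Finset.prod_mul_distrib, Finset.prod_ite, Finset.prod_const, Finset.prod_const_one,
            mul_one]
          rfl
      _ ≤ QQ A n X * ρ ^ 4 :=
          mul_le_mul_of_nonneg_left (pow_le_pow_right₀ hρ1 kissing) (QQ_pos hA n X).le
  have hpow : ρ ^ 4 = ((n : ℝ) + 1) ^ (20 / 48 : ℝ) * ((δ : ℝ) + 1) ^ (-(20 / 48) : ℝ) := by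
    rw [hρ, mul_pow, ← Real.rpow_natCast (((n : ℝ) + 1) ^ (5 / 48 : ℝ)) 4,
      ← Real.rpow_natCast (((δ : ℝ) + 1) ^ (-(5 / 48) : ℝ)) 4, ← Real.rpow_mul hn0.le,
      ← Real.rpow_mul hδ0.le]
    norm_num
  have e1 : QQ A n (insert x X) = gg A δ * ∏ y ∈ X, gg A (rr n (insert x X) y) := by
    unfold QQ
    rw [prod_insert hx, hδ]
  rw [e1, ← hδ]
  calc gg A δ * ∏ y ∈ X, gg A (rr n (insert x X) y)
      ≤ gg A δ * (QQ A n X * ρ ^ 4) := mul_le_mul_of_nonneg_left hprod (gg_pos hA _).le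
    _ = A * ((n : ℝ) + 1) ^ (20 / 48 : ℝ) *
          (((δ : ℝ) + 1) ^ (-(5 / 48) : ℝ) * ((δ : ℝ) + 1) ^ (-(20 / 48) : ℝ)) * QQ A n X := by
        rw [hpow]; unfold gg; ring
    _ = _ := by
        rw [← Real.rpow_add hδ0]
        norm_num

theorem shell_sum (n : ℕ) (B : Finset Vtx) (y : Vtx) (f : ℕ → ℝ) (hf : ∀ k, 0 ≤ f k) :
    ∑ x ∈ B.filter (fun x => nv (x - y) ≤ n), f (nv (x - y)) ≤
      8 * ∑ k ∈ range (n + 1), ((k : ℝ) + 1) * f k := by
  classical
  have h1 : ∑ x ∈ B.filter (fun x => nv (x - y) ≤ n), f (nv (x - y)) =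
      ∑ z ∈ (B.filter (fun x => nv (x - y) ≤ n)).image (fun x => x - y), f (nv z) := by
    rw [Finset.sum_image]
    intro a _ b _ hab
    exact sub_left_injective hab
  rw [h1]
  refine le_trans (Finset.sum_le_sum_of_subset_of_nonneg ?_ (fun _ _ _ => hf _)) (sum_bx n f hf)
  intro z hz
  rw [mem_image] at hz
  obtain ⟨x, hx, rfl⟩ := hz
  rw [mem_filter] at hx
  exact VolAux.mem_bx.2 hx.2

/-- the constant of the moment bounds -/
noncomputable def DD (A : ℝ) (n : ℕ) (B : Finset Vtx) : ℝ :=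
  9 * A * (B.card * ((n : ℝ) + 1) ^ (-(5 / 48) : ℝ) + ((n : ℝ) + 1) ^ (91 / 48 : ℝ))

theorem DD_pos {A : ℝ} (hA : 0 < A) (n : ℕ) (B : Finset Vtx) : 0 < DD A n B := by
  unfold DD; positivity

theorem sum_insert_le {A : ℝ} (hA : 1 ≤ A) (n : ℕ) (B X : Finset Vtx) :
    ∑ x ∈ B, QQ A n (insert x X) ≤ DD A n B * ((X.card : ℝ) + 1) * QQ A n X := by
  classical
  have hA0 : 0 < A := by linarith
  have hQ := QQ_pos hA0 n X
  have hn0 : (0 : ℝ) < (n : ℝ) + 1 := by positivity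
  obtain ⟨f, hf⟩ : ∃ f : ℕ → ℝ, f = fun k : ℕ => ((k : ℝ) + 1) ^ (-(25 / 48) : ℝ) := ⟨_, rfl⟩
  have hf0 : ∀ k, 0 ≤ f k := fun k => by rw [hf]; positivity
  have hpt : ∀ x ∈ B, QQ A n (insert x X) ≤ (if x ∈ X then 1 else 0) * QQ A n X +
      (A * ((n : ℝ) + 1) ^ (20 / 48 : ℝ)) * QQ A n X * (((n : ℝ) + 1) ^ (-(25 / 48) : ℝ) +
        ∑ y ∈ X, if nv (x - y) ≤ n then f (nv (x - y)) else 0) := by
    intro x _
    have hs0 : 0 ≤ ∑ y ∈ X, (if nv (x - y) ≤ n then f (nv (x - y)) else 0) :=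
      Finset.sum_nonneg fun y _ => by split_ifs <;> [exact hf0 _; exact le_rfl]
    by_cases hx : x ∈ X
    · rw [insert_eq_of_mem hx, if_pos hx, one_mul]
      have : 0 ≤ (A * ((n : ℝ) + 1) ^ (20 / 48 : ℝ)) * QQ A n X *
        (((n : ℝ) + 1) ^ (-(25 / 48) : ℝ) +
        ∑ y ∈ X, if nv (x - y) ≤ n then f (nv (x - y)) else 0) := by positivity
      linarith
    · rw [if_neg hx, zero_mul, zero_add]
      refine (QQ_insert hA0 hx).trans ?_
      have h1 : ((rr n (insert x X) x : ℝ) + 1) ^ (-(25 / 48) : ℝ) ≤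
          ((n : ℝ) + 1) ^ (-(25 / 48) : ℝ) +
            ∑ y ∈ X, if nv (x - y) ≤ n then f (nv (x - y)) else 0 := by
        rcases rr_cases n (insert x X) x with h | ⟨y, hy, hne, h, hle⟩
        · rw [h]; linarith
        · have hy' : y ∈ X := by
            rw [mem_insert] at hy
            rcases hy with hy | hy
            · exact absurd hy hne
            · exact hy
          have h2 : f (nv (x - y)) ≤ ∑ y ∈ X, if nv (x - y) ≤ n then f (nv (x - y)) else 0 := by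
            refine le_trans (le_of_eq ?_) (Finset.single_le_sum
              (f := fun y => if nv (x - y) ≤ n then f (nv (x - y)) else 0)
              (fun y _ => by split_ifs <;> [exact hf0 _; exact le_rfl]) hy')
            simp only [if_pos hle]
          have h3 : 0 ≤ ((n : ℝ) + 1) ^ (-(25 / 48) : ℝ) := by positivity
          rw [h]
          have h4 : f (nv (x - y)) = ((nv (x - y) : ℝ) + 1) ^ (-(25 / 48) : ℝ) := by rw [hf]
          linarith
      calc A * ((n : ℝ) + 1) ^ (20 / 48 : ℝ) *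
            ((rr n (insert x X) x : ℝ) + 1) ^ (-(25 / 48) : ℝ) * QQ A n X
          = (A * ((n : ℝ) + 1) ^ (20 / 48 : ℝ)) * QQ A n X *
            ((rr n (insert x X) x : ℝ) + 1) ^ (-(25 / 48) : ℝ) := by ring
        _ ≤ _ := mul_le_mul_of_nonneg_left h1 (by positivity)
  have hs1 : ∑ x ∈ B, ((if x ∈ X then (1 : ℝ) else 0) * QQ A n X) ≤ X.card * QQ A n X := by
    rw [← Finset.sum_mul]
    apply mul_le_mul_of_nonneg_right _ hQ.le
    rw [Finset.sum_ite_mem, Finset.sum_const, nsmul_eq_mul, mul_one]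
    exact_mod_cast Finset.card_le_card Finset.inter_subset_right
  have hsh : ∀ y ∈ X, ∑ x ∈ B, (if nv (x - y) ≤ n then f (nv (x - y)) else 0) ≤
      8 * ((n : ℝ) + 1) ^ (71 / 48 : ℝ) := by
    intro y _
    rw [← Finset.sum_filter]
    refine (shell_sum n B y f hf0).trans ?_
    apply mul_le_mul_of_nonneg_left _ (by norm_num)
    have h1 : ∀ k ∈ range (n + 1), ((k : ℝ) + 1) * f k ≤ ((n : ℝ) + 1) ^ (23 / 48 : ℝ) := by
      intro k hk
      rw [mem_range] at hk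
      have hk1 : (k : ℝ) + 1 ≤ (n : ℝ) + 1 := by
        have : (k : ℝ) ≤ n := by exact_mod_cast (by omega : k ≤ n)
        linarith
      have hk0 : (0 : ℝ) < (k : ℝ) + 1 := by positivity
      calc ((k : ℝ) + 1) * f k = ((k : ℝ) + 1) ^ (23 / 48 : ℝ) := by
            rw [hf]
            simp only
            nth_rewrite 1 [← Real.rpow_one ((k : ℝ) + 1)]
            rw [← Real.rpow_add hk0]
            norm_num
        _ ≤ _ := Real.rpow_le_rpow hk0.le hk1 (by norm_num)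
    calc ∑ k ∈ range (n + 1), ((k : ℝ) + 1) * f k
        ≤ ∑ k ∈ range (n + 1), ((n : ℝ) + 1) ^ (23 / 48 : ℝ) := Finset.sum_le_sum h1
      _ = ((n : ℝ) + 1) * ((n : ℝ) + 1) ^ (23 / 48 : ℝ) := by
          rw [Finset.sum_const, card_range, nsmul_eq_mul]
          push_cast
          ring
      _ = ((n : ℝ) + 1) ^ (71 / 48 : ℝ) := by
          nth_rewrite 1 [← Real.rpow_one ((n : ℝ) + 1)]
          rw [← Real.rpow_add hn0]
          norm_num
  have e2 : ((n : ℝ) + 1) ^ (20 / 48 : ℝ) * ((n : ℝ) + 1) ^ (-(25 / 48) : ℝ) =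
      ((n : ℝ) + 1) ^ (-(5 / 48) : ℝ) := by
    rw [← Real.rpow_add hn0]; norm_num
  have e3 : ((n : ℝ) + 1) ^ (20 / 48 : ℝ) * ((n : ℝ) + 1) ^ (71 / 48 : ℝ) =
      ((n : ℝ) + 1) ^ (91 / 48 : ℝ) := by
    rw [← Real.rpow_add hn0]; norm_num
  have h91 : 1 ≤ ((n : ℝ) + 1) ^ (91 / 48 : ℝ) := by
    apply Real.one_le_rpow _ (by norm_num)
    have : (0 : ℝ) ≤ n := by positivity
    linarith
  have h5 : (0 : ℝ) ≤ ((n : ℝ) + 1) ^ (-(5 / 48) : ℝ) := by positivity
  have hX0 : (0 : ℝ) ≤ X.card := by positivity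
  have hB0 : (0 : ℝ) ≤ B.card := by positivity
  calc ∑ x ∈ B, QQ A n (insert x X)
      ≤ ∑ x ∈ B, ((if x ∈ X then 1 else 0) * QQ A n X +
        (A * ((n : ℝ) + 1) ^ (20 / 48 : ℝ)) * QQ A n X * (((n : ℝ) + 1) ^ (-(25 / 48) : ℝ) +
        ∑ y ∈ X, if nv (x - y) ≤ n then f (nv (x - y)) else 0)) := Finset.sum_le_sum hpt
    _ = ∑ x ∈ B, ((if x ∈ X then (1 : ℝ) else 0) * QQ A n X) +
        (A * ((n : ℝ) + 1) ^ (20 / 48 : ℝ)) * QQ A n X *
          (B.card * ((n : ℝ) + 1) ^ (-(25 / 48) : ℝ) +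
          ∑ y ∈ X, ∑ x ∈ B, if nv (x - y) ≤ n then f (nv (x - y)) else 0) := by
        rw [Finset.sum_add_distrib, ← Finset.mul_sum, Finset.sum_add_distrib, Finset.sum_const,
          nsmul_eq_mul, Finset.sum_comm]
    _ ≤ X.card * QQ A n X + (A * ((n : ℝ) + 1) ^ (20 / 48 : ℝ)) * QQ A n X *
          (B.card * ((n : ℝ) + 1) ^ (-(25 / 48) : ℝ) + X.card * (8 * ((n : ℝ) + 1) ^ (71 / 48 : ℝ))) := by
        apply add_le_add hs1
        apply mul_le_mul_of_nonneg_left _ (by positivity)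
        apply add_le_add le_rfl
        refine (Finset.sum_le_sum hsh).trans ?_
        rw [Finset.sum_const, nsmul_eq_mul]
    _ = QQ A n X * (X.card + A * B.card * (((n : ℝ) + 1) ^ (20 / 48 : ℝ) *
          ((n : ℝ) + 1) ^ (-(25 / 48) : ℝ)) + 8 * A * X.card * (((n : ℝ) + 1) ^ (20 / 48 : ℝ) *
          ((n : ℝ) + 1) ^ (71 / 48 : ℝ))) := by ring
    _ = QQ A n X * (X.card + A * B.card * ((n : ℝ) + 1) ^ (-(5 / 48) : ℝ) +
          8 * A * X.card * ((n : ℝ) + 1) ^ (91 / 48 : ℝ)) := by rw [e2, e3]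
    _ ≤ QQ A n X * (DD A n B * ((X.card : ℝ) + 1)) := by
        apply mul_le_mul_of_nonneg_left _ hQ.le
        unfold DD
        have i1 : (X.card : ℝ) ≤ A * X.card * ((n : ℝ) + 1) ^ (91 / 48 : ℝ) := by
          have : 1 ≤ A * ((n : ℝ) + 1) ^ (91 / 48 : ℝ) := by nlinarith
          nlinarith
        have i2 : 0 ≤ A * B.card * ((n : ℝ) + 1) ^ (-(5 / 48) : ℝ) := by positivity
        have i3 : 0 ≤ A * B.card * ((n : ℝ) + 1) ^ (-(5 / 48) : ℝ) * X.card := by positivity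
        have i4 : 0 ≤ A * ((n : ℝ) + 1) ^ (91 / 48 : ℝ) := by positivity
        have i5 : 0 ≤ A * X.card * ((n : ℝ) + 1) ^ (91 / 48 : ℝ) := by positivity
        nlinarith
    _ = _ := by ring

/-- iterated sums -/
noncomputable def UQ (A : ℝ) (n : ℕ) (B : Finset Vtx) : ℕ → Finset Vtx → ℝ
  | 0, X => QQ A n X
  | k + 1, X => ∑ x ∈ B, UQ A n B k (insert x X)

theorem UQ_le {A : ℝ} (hA : 1 ≤ A) (n : ℕ) (B : Finset Vtx) (k : ℕ) : ∀ (X : Finset Vtx) (m : ℕ),
    X.card ≤ m → UQ A n B k X ≤ DD A n B ^ k * ((m + 1).ascFactorial k : ℝ) * QQ A n X := by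
  classical
  have hA0 : 0 < A := by linarith
  have hD := DD_pos hA0 n B
  induction k with
  | zero =>
    intro X m _
    simp [UQ]
  | succ k ih =>
    intro X m hm
    have h1 : ∀ x ∈ B, UQ A n B k (insert x X) ≤
        DD A n B ^ k * ((m + 2).ascFactorial k : ℝ) * QQ A n (insert x X) := by
      intro x _
      exact ih (insert x X) (m + 1) ((card_insert_le _ _).trans (by omega))
    have hm' : (X.card : ℝ) ≤ m := by exact_mod_cast hm
    calc UQ A n B (k + 1) X = ∑ x ∈ B, UQ A n B k (insert x X) := rfl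
      _ ≤ ∑ x ∈ B, DD A n B ^ k * ((m + 2).ascFactorial k : ℝ) * QQ A n (insert x X) :=
          Finset.sum_le_sum h1
      _ = DD A n B ^ k * ((m + 2).ascFactorial k : ℝ) * ∑ x ∈ B, QQ A n (insert x X) := by
          rw [Finset.mul_sum]
      _ ≤ DD A n B ^ k * ((m + 2).ascFactorial k : ℝ) *
            (DD A n B * ((X.card : ℝ) + 1) * QQ A n X) :=
          mul_le_mul_of_nonneg_left (sum_insert_le hA n B X) (by positivity)
      _ ≤ DD A n B ^ k * ((m + 2).ascFactorial k : ℝ) *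
            (DD A n B * ((m : ℝ) + 1) * QQ A n X) := by
          apply mul_le_mul_of_nonneg_left _ (by positivity)
          apply mul_le_mul_of_nonneg_right _ (QQ_pos hA0 n X).le
          apply mul_le_mul_of_nonneg_left _ hD.le
          linarith
      _ = DD A n B ^ (k + 1) * ((m + 1).ascFactorial (k + 1) : ℝ) * QQ A n X := by
          have e : ((m + 1).ascFactorial (k + 1) : ℝ) =
              ((m : ℝ) + 1) * ((m + 2).ascFactorial k : ℝ) := by
            have := Nat.succ_ascFactorial (m + 1) k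
            have h2 : (m + 1).ascFactorial (k + 1) = (m + 1) * (m + 2).ascFactorial k := by
              rw [Nat.ascFactorial_succ]
              exact this.symm
            rw [h2]
            push_cast
            ring
          rw [e]
          ring

end Pool.Agent.N952.CS
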