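import Pool.Agent.N952.CS.Vlow
import Pool.Agent.W424.NC.TwoLow

/-!
A row of blocks: large clusters at and below the critical point.
-/

set_option autoImplicit false

namespace Pool.Agent.N952.CS
open Finset H974 Pool.Agent.H160R2.CV Pool.Agent.H160R2.CV.Quad Pool.Agent.Y244.PC

/-- the hub of a circuit -/
theorem hub {z : Vtx} {r R : ℕ} (hrR : r < R) {F : Finset Edg}
    (hC : Circ (r : ℤ) ((R : ℕ) : ℤ) (sh z F)) :
    ∃ h : Vtx, ∀ u y : Vtx, nv (u - z) ≤ r → R ≤ nv (y - z) → Reach (↑F : Set Edg) u y →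
      Reach (↑F : Set Edg) u h := by
  obtain ⟨h, hh⟩ := circ_meet (by positivity) (by exact_mod_cast hrR) hC
  refine ⟨h + z, fun u y hu hy hr => ?_⟩
  have h1 : Reach (↑(sh z F) : Set Edg) (u - z) (y - z) := by
    rw [sh_reach, sub_add_cancel, sub_add_cancel]; exact hr
  obtain ⟨w, k1, k2, k3⟩ := first_exit (a := -(R : ℤ)) (b := (R : ℤ)) (c := -(R : ℤ))
    (d := (R : ℤ)) (by unfold nv at hu; unfold inR; omega) h1 (by unfold nv at hy; omega)
  have h2 := hh (u - z) w (by unfold nv at hu; unfold inR; omega) k2 k3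
  have h3 := sh_reach.mp (h2.mono Set.inter_subset_left)
  rwa [sub_add_cancel] at h3

/-- the centres -/
def ze (m i : ℕ) : Vtx := (3 * (m : ℤ) * i, 0)

theorem row_conn {m M : ℕ} (hm : 1 ≤ m) (hM : 1 ≤ M) {v : ℝ} {F : Finset Edg}
    (hX : LRc (-(3 * (m : ℤ))) (3 * m * M) (-(m : ℤ)) m F)
    (hC : ∀ i ∈ range M, Circ (m : ℤ) ((3 * m : ℕ) : ℤ) (sh (ze m i) F))
    (hN : ∀ i ∈ range M, Cnt (ze m i) v m F) (h0 : LA (0, 0) (4 * m) F) :
    VolAt (M * v) (0, 0) F := by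
  classical
  obtain ⟨y, y', hy, hy', hr⟩ := hX
  have hhub : ∀ i : ℕ, ∃ h : Vtx, i ∈ range M → ∀ u y : Vtx, nv (u - ze m i) ≤ m →
      3 * m ≤ nv (y - ze m i) → Reach (↑F : Set Edg) u y → Reach (↑F : Set Edg) u h := by
    intro i
    by_cases hi : i ∈ range M
    · obtain ⟨h, hh⟩ := hub (r := m) (R := 3 * m) (by omega) (hC i hi)
      exact ⟨h, fun _ => hh⟩
    · exact ⟨0, fun h => absurd h hi⟩
  choose h hh using hhub
  have hcnt : ∀ i : ℕ, ∃ T : Finset Vtx, i ∈ range M → v ≤ (T.card : ℝ) ∧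
      ∀ u ∈ T, nv (u - ze m i) ≤ m ∧ Far u (4 * m) F := by
    intro i
    by_cases hi : i ∈ range M
    · obtain ⟨T, hT⟩ := Cnt_set (hN i hi)
      exact ⟨T, fun _ => hT⟩
    · exact ⟨∅, fun h => absurd h hi⟩
  choose T hT using hcnt
  -- the crossing passes through all the hubs
  have hs : ∀ i ∈ range M, Reach (↑F : Set Edg) (-(3 * (m : ℤ)), y) (h i) := by
    intro i hi
    have hiM := mem_range.1 hi
    have hz : (i : ℤ) + 1 ≤ M := by exact_mod_cast hiM
    have hm' : (1 : ℤ) ≤ m := by exact_mod_cast hm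
    have e1 : 3 * (m : ℤ) * i + 3 * m ≤ 3 * m * M := by nlinarith
    have e2 : (0 : ℤ) ≤ 3 * (m : ℤ) * i := by positivity
    obtain ⟨y1, y2, m1, m2, m3, m4⟩ := sub_LR (a := 3 * (m : ℤ) * i) (b := 3 * (m : ℤ) * i + 3 * m)
      (c := -(m : ℤ)) (d := (m : ℤ)) (by omega)
      (by rintro a b ⟨-, h⟩ _ _; simp only [mem_coe, mem_LRE_true] at h; omega)
      (by rintro a b ⟨-, h⟩ _ _; simp only [mem_coe, mem_LRE_false] at h; omega)
      hr (by simp only; omega) (by simp only; omega)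
    have m5 : Reach (↑F : Set Edg) (-(3 * (m : ℤ)), y) (3 * (m : ℤ) * i, y1) :=
      m4.mono Set.inter_subset_left
    have m6 : Reach (↑F : Set Edg) (3 * (m : ℤ) * i, y1) (3 * (m : ℤ) * M, y') :=
      m5.symm.trans (hr.mono Set.inter_subset_left)
    refine m5.trans (hh i hi _ _ ?_ ?_ m6)
    · unfold nv ze
      simp only [Prod.fst_sub, Prod.snd_sub]
      omega
    · unfold nv ze
      simp only [Prod.fst_sub, Prod.snd_sub]
      omega
  have hhub0 : ∀ i ∈ range M, Reach (↑F : Set Edg) (0, 0) (h i) := by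
    have h00 : Reach (↑F : Set Edg) (0, 0) (h 0) := by
      obtain ⟨w, hw, hrw⟩ := far_of_LA h0
      have e : ze m 0 = 0 := by unfold ze; simp
      refine hh 0 (mem_range.2 (by omega)) (0, 0) w ?_ ?_ hrw
      · rw [e, sub_zero]; unfold nv; simp
      · rw [sub_zero'] at hw
        rw [e, sub_zero]; omega
    intro i hi
    exact h00.trans ((hs 0 (mem_range.2 (by omega))).symm.trans (hs i hi))
  refine ⟨(range M).biUnion T, ?_, ?_⟩
  · rw [card_biUnion]
    · push_cast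
      calc (M : ℝ) * v = ∑ i ∈ range M, v := by rw [sum_const, card_range, nsmul_eq_mul]
        _ ≤ _ := Finset.sum_le_sum fun i hi => (hT i hi).1
    · intro i hi j hj hne
      show Disjoint (T i) (T j)
      rw [Finset.disjoint_left]
      intro u hu hu'
      have k1 := ((hT i (mem_coe.1 hi)).2 u hu).1
      have k2 := ((hT j (mem_coe.1 hj)).2 u hu').1
      unfold nv ze at k1 k2
      simp only [Prod.fst_sub, Prod.snd_sub] at k1 k2
      have hm' : (1 : ℤ) ≤ m := by exact_mod_cast hm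
      rcases Nat.lt_or_gt_of_ne hne with h1 | h1
      · have h2 : (i : ℤ) + 1 ≤ j := by exact_mod_cast h1
        have h3 : 3 * (m : ℤ) * i + 3 * m ≤ 3 * m * j := by nlinarith
        omega
      · have h2 : (j : ℤ) + 1 ≤ i := by exact_mod_cast h1
        have h3 : 3 * (m : ℤ) * j + 3 * m ≤ 3 * m * i := by nlinarith
        omega
  · intro u hu
    rw [mem_biUnion] at hu
    obtain ⟨i, hi, hu⟩ := hu
    obtain ⟨k1, y, hy, hry⟩ := (hT i hi).2 u hu
    refine (hhub0 i hi).trans (hh i hi u y k1 ?_ hry).symm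
    have h1 := nv_tri y (ze m i) u
    have h2 : nv (ze m i - u) = nv (u - ze m i) := nvc _ _
    omega

/-- the probability of a row -/
theorem row_prob {q κ A b : ℝ} {m M : ℕ} (hm : 1 ≤ m) (hM : 1 ≤ M)
    (hW : H12S.Win q κ (4 * m)) (hAB : AB q A m) (hb : 0 < b)
    (harm : b * ((m : ℝ) + 1) ^ (-(5 / 48) : ℝ) ≤ arm q (4 * m)) {S : Finset Edg}
    (hS : boxE (3 * m * M + 5 * m) ⊆ S) :
    arm q (4 * m) * (κ * Real.exp (-(2 * Real.log (1 / κ)) * (3 * (M + 1)))) *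
      ((κ ^ 4) ^ M * (b ^ 2 / (10368 * A ^ 2)) ^ M) ≤
      Pr (fun _ => q) S (VolAt (M * (b / 2 * ((2 * (m : ℝ) + 1) ^ 2 *
        ((m : ℝ) + 1) ^ (-(5 / 48) : ℝ)))) (0, 0)) := by
  have h0 : 0 ≤ q := by linarith [hW.lo]
  have h1 : q ≤ 1 := by linarith [hW.hi]
  have ok := okq h0 h1
  have hκ := hW.kpos
  have hA := AB_one_le hAB
  obtain ⟨v, hv⟩ : ∃ v : ℝ, v = b / 2 * ((2 * (m : ℝ) + 1) ^ 2 *
    ((m : ℝ) + 1) ^ (-(5 / 48) : ℝ)) := ⟨_, rfl⟩
  rw [← hv]
  have hMz : (1 : ℤ) ≤ M := by exact_mod_cast hM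
  have hmz : (1 : ℤ) ≤ m := by exact_mod_cast hm
  have hmM : (m : ℤ) ≤ m * M := by nlinarith
  -- the boxes
  have hbo : ∀ i ∈ range M, bo (ze m i) (5 * m) ⊆ S := by
    intro i hi
    have hiM : (i : ℤ) ≤ M := by exact_mod_cast (mem_range.1 hi).le
    have h2 : 3 * (m : ℤ) * i ≤ 3 * m * M := by nlinarith
    have h3 : (0 : ℤ) ≤ 3 * (m : ℤ) * i := by positivity
    refine Finset.Subset.trans ?_ hS
    apply bo_sub_boxE <;> unfold ze <;> push_cast <;> omega
  -- the events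
  have p1 : arm q (4 * m) ≤ Pr (fun _ => q) S (LA (0, 0) (4 * m)) := by
    rw [pr_LA_eq]
    refine Finset.Subset.trans ?_ hS
    apply bo_sub_boxE <;> simp <;> nlinarith
  have p2 : κ * Real.exp (-(2 * Real.log (1 / κ)) * (3 * (M + 1))) ≤
      Pr (fun _ => q) S (LRc (-(3 * (m : ℤ))) (3 * m * M) (-(m : ℤ)) m) := by
    rw [pr_LRc q]
    · have h2 := Pool.Agent.W424.NC.hh_exp (n := 3 * m * (M + 1)) (hW.anti (by omega : m ≤ 4 * m))
        hm (by nlinarith)
      have h3 : (((3 * m * (M + 1) : ℕ)) : ℝ) / m = 3 * (M + 1) := by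
        have : (m : ℝ) ≠ 0 := by positivity
        push_cast
        field_simp
      rw [h3] at h2
      refine h2.trans (hh_mono h0 h1 ?_ ?_ ?_) <;> push_cast <;> nlinarith
    · refine LRE_subset_RE.trans (Finset.Subset.trans ?_ hS)
      unfold boxE
      push_cast
      apply RE_subset <;> nlinarith
  have p3 : (κ ^ 4) ^ M ≤ Pr (fun _ => q) S (fun F => ∀ i ∈ range M,
      Circ (m : ℤ) ((3 * m : ℕ) : ℤ) (sh (ze m i) F)) := by
    refine le_trans ?_ (fkg_incr ok (range M) (fun i F =>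
      Circ (m : ℤ) ((3 * m : ℕ) : ℤ) (sh (ze m i) F))
        (fun i _ F G h _ hF => hF.mono (sh_mono h)))
    rw [← card_range M]
    simp only [card_range]
    conv_lhs => rw [← card_range M]
    apply pow_card_le_prod _ _ (by positivity)
    intro i hi
    have h2 := Pool.Agent.W424.NC.pr_shift_circ h0 h1 (x1 := (ze m i).1) (x2 := (ze m i).2)
      (r := m) (n := 3 * m) (by omega) (S := S) (by
        refine Finset.Subset.trans ?_ (hbo i hi)
        unfold bo
        apply RE_subset <;> push_cast <;> omega)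
    refine le_trans ?_ h2
    apply pow_le_pow_left₀ hκ.le
    refine (hW.pri m hm (by omega)).trans (hh_mono h0 h1 ?_ ?_ ?_) <;> push_cast <;> omega
  have p4 : (b ^ 2 / (10368 * A ^ 2)) ^ M ≤ Pr (fun _ => q) S (fun F => ∀ i ∈ range M,
      Cnt (ze m i) v m F) := by
    refine le_trans ?_ (fkg_incr ok (range M) (fun i F => Cnt (ze m i) v m F)
      (fun i _ => Cnt_incr S _ _ _))
    conv_lhs => rw [← card_range M]
    apply pow_card_le_prod _ _ (by positivity)
    intro i hi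
    apply pr_Cnt _ (hbo i hi)
    intro S' hS'
    rw [hv]
    exact cnt_low h0 h1 hAB (le_refl _) hb harm hS'
  have i1 := Pr_harris ok (S := S) (A := fun F => ∀ i ∈ range M,
      Circ (m : ℤ) ((3 * m : ℕ) : ℤ) (sh (ze m i) F)) (B := fun F => ∀ i ∈ range M,
      Cnt (ze m i) v m F) (fun F G h _ hF i hi => (hF i hi).mono (sh_mono h))
      (fun F G h hG hF i hi => Cnt_incr S _ _ _ F G h hG (hF i hi))
  have i2 := Pr_harris ok (S := S) (A := LA (0, 0) (4 * m))
    (B := LRc (-(3 * (m : ℤ))) (3 * m * M) (-(m : ℤ)) m) (fun F G h _ hF => LA_inc _ _ F G h hF)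
    (LRc_incr S _ _ _ _)
  have i3 := Pr_harris ok (S := S) (A := fun F => LA (0, 0) (4 * m) F ∧
      LRc (-(3 * (m : ℤ))) (3 * m * M) (-(m : ℤ)) m F)
    (B := fun F => (∀ i ∈ range M, Circ (m : ℤ) ((3 * m : ℕ) : ℤ) (sh (ze m i) F)) ∧
      ∀ i ∈ range M, Cnt (ze m i) v m F)
    (fun F G h _ hF => ⟨LA_inc _ _ F G h hF.1, hF.2.mono h⟩)
    (fun F G h hG hF => ⟨fun i hi => (hF.1 i hi).mono (sh_mono h),
      fun i hi => Cnt_incr S _ _ _ F G h hG (hF.2 i hi)⟩)
  have n1 : 0 ≤ arm q (4 * m) := arm_nonneg h0 h1 _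
  calc arm q (4 * m) * (κ * Real.exp (-(2 * Real.log (1 / κ)) * (3 * (M + 1)))) *
      ((κ ^ 4) ^ M * (b ^ 2 / (10368 * A ^ 2)) ^ M)
      ≤ (Pr (fun _ => q) S (LA (0, 0) (4 * m)) *
          Pr (fun _ => q) S (LRc (-(3 * (m : ℤ))) (3 * m * M) (-(m : ℤ)) m)) *
        (Pr (fun _ => q) S (fun F => ∀ i ∈ range M,
          Circ (m : ℤ) ((3 * m : ℕ) : ℤ) (sh (ze m i) F)) *
         Pr (fun _ => q) S (fun F => ∀ i ∈ range M, Cnt (ze m i) v m F)) := by
        apply mul_le_mul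
        · exact mul_le_mul p1 p2 (by positivity) (Pr_nonneg ok _ _)
        · exact mul_le_mul p3 p4 (by positivity) (Pr_nonneg ok _ _)
        · positivity
        · exact mul_nonneg (Pr_nonneg ok _ _) (Pr_nonneg ok _ _)
    _ ≤ _ := mul_le_mul i2 i1 (mul_nonneg (Pr_nonneg ok _ _) (Pr_nonneg ok _ _))
        (Pr_nonneg ok _ _)
    _ ≤ _ := i3
    _ ≤ _ := Pr_mono ok fun F _ hF => row_conn hm hM hF.1.2 hF.2.1 hF.2.2 hF.1.1

end Pool.Agent.N952.CS
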