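import Pool.Agent.N952.CS.Dyad
import Pool.Agent.Y554.NC.Theta

/-!
Arm bounds, and the cluster volume at a single scale.
-/

set_option autoImplicit false

namespace Pool.Agent.N952.CS
open Finset H974 Pool.Agent.H160R2.CV Pool.Agent.H160R2.CV.Quad Pool.Agent.Y244.PC

theorem succ_pow_ge {m : ℕ} (hm : 1 ≤ m) :
    (m : ℝ) ^ (-(5 / 48) : ℝ) ≤ 2 * ((m : ℝ) + 1) ^ (-(5 / 48) : ℝ) := by
  have hm1 : (1 : ℝ) ≤ m := by exact_mod_cast hm
  have h1 : (m : ℝ) ^ (-(5 / 48) : ℝ) ≤ (((m : ℝ) + 1) / 2) ^ (-(5 / 48) : ℝ) :=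
    Real.rpow_le_rpow_of_nonpos (by positivity) (by linarith) (by norm_num)
  have h2 : (((m : ℝ) + 1) / 2) ^ (-(5 / 48) : ℝ) =
      ((m : ℝ) + 1) ^ (-(5 / 48) : ℝ) * (2 : ℝ) ^ (5 / 48 : ℝ) := by
    rw [Real.div_rpow (by positivity) (by norm_num), Real.rpow_neg (by norm_num : (0 : ℝ) ≤ 2),
      div_inv_eq_mul]
  have h3 : (2 : ℝ) ^ (5 / 48 : ℝ) ≤ 2 := by
    calc (2 : ℝ) ^ (5 / 48 : ℝ) ≤ (2 : ℝ) ^ (1 : ℝ) :=
          Real.rpow_le_rpow_of_exponent_le (by norm_num) (by norm_num)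
      _ = 2 := Real.rpow_one 2
  have h4 : (0 : ℝ) ≤ ((m : ℝ) + 1) ^ (-(5 / 48) : ℝ) := by positivity
  rw [h2] at h1
  nlinarith

/-- the one-arm bound below the critical point -/
theorem ab_low : ∃ A : ℝ, 1 ≤ A ∧ ∀ q : ℝ, 0 ≤ q → q ≤ 1 / 2 → ∀ n : ℕ, AB q A n := by
  obtain ⟨c, C, hc, hC, h⟩ := Pool.Agent.W424.NC.arm_crit
  refine ⟨max 1 (2 * C), le_max_left _ _, fun q h0 h1 n m _ => ?_⟩
  rcases Nat.eq_zero_or_pos m with rfl | hm
  · rw [arm_zero]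
    simp
  · have h2 := (h m hm).2
    have h3 := arm_mono_param h0 h1 (by norm_num) m
    have h4 := succ_pow_ge hm
    have h5 : (0 : ℝ) ≤ ((m : ℝ) + 1) ^ (-(5 / 48) : ℝ) := by positivity
    calc arm q m ≤ C * (m : ℝ) ^ (-(5 / 48) : ℝ) := h3.trans h2
      _ ≤ C * (2 * ((m : ℝ) + 1) ^ (-(5 / 48) : ℝ)) := mul_le_mul_of_nonneg_left h4 hC.le
      _ = 2 * C * ((m : ℝ) + 1) ^ (-(5 / 48) : ℝ) := by ring
      _ ≤ _ := mul_le_mul_of_nonneg_right (le_max_right _ _) h5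

/-- the one-arm bound up to the correlation length above the critical point -/
theorem ab_up {K : ℝ} (hK : 1 ≤ K) : ∃ A : ℝ, 1 ≤ A ∧ ∀ q : ℝ, 1 / 2 ≤ q → q ≤ 1 → ∀ n : ℕ,
    (n : ℝ) * (q - 1 / 2) ^ (4 / 3 : ℝ) ≤ K → AB q A n := by
  obtain ⟨c, C, hc, hC, h⟩ := Pool.Agent.W424.NC.arm_crit
  obtain ⟨κ, b, hκ, hb, hS⟩ := Pool.Agent.W424.NC.armS
  obtain ⟨δ, hδ⟩ : ∃ δ : ℝ, δ = min 1 (b ^ (4 / 3 : ℝ) / K) := ⟨_, rfl⟩
  have hδ0 : 0 < δ := by rw [hδ]; exact lt_min one_pos (by positivity)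
  have hδ1 : δ ≤ 1 := by rw [hδ]; exact min_le_left _ _
  have hδb : δ * K ≤ b ^ (4 / 3 : ℝ) := by
    have : δ ≤ b ^ (4 / 3 : ℝ) / K := by rw [hδ]; exact min_le_right _ _
    rwa [le_div_iff₀ (by linarith)] at this
  refine ⟨1 / δ + 1 + 3 * C * (4 / δ), ?_, fun q h0 h1 n hn m hm => ?_⟩
  · have : 0 < 1 / δ := by positivity
    have h2 : 0 < 3 * C * (4 / δ) := by positivity
    linarith
  have hm0 : (0 : ℝ) ≤ m := by positivity
  have h5 : (0 : ℝ) < ((m : ℝ) + 1) ^ (-(5 / 48) : ℝ) := by positivity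
  have hq0 : 0 ≤ q := by linarith
  rcases lt_or_ge (δ * m) 1 with hcase | hcase
  · have h2 : (m : ℝ) + 1 ≤ 1 / δ + 1 := by
      have : (m : ℝ) ≤ 1 / δ := by
        rw [le_div_iff₀ hδ0]; linarith
      linarith
    have h3 : 1 ≤ (1 / δ + 1) * ((m : ℝ) + 1) ^ (-(5 / 48) : ℝ) := by
      have h4 : (1 / δ + 1) ^ (-(5 / 48) : ℝ) ≤ ((m : ℝ) + 1) ^ (-(5 / 48) : ℝ) :=
        Real.rpow_le_rpow_of_nonpos (by positivity) h2 (by norm_num)
      have hd1 : 1 ≤ 1 / δ + 1 := by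
        have : 0 < 1 / δ := by positivity
        linarith
      have h6 : (1 / δ + 1) ^ (-1 : ℝ) ≤ (1 / δ + 1) ^ (-(5 / 48) : ℝ) :=
        Real.rpow_le_rpow_of_exponent_le hd1 (by norm_num)
      rw [Real.rpow_neg_one] at h6
      calc (1 : ℝ) = (1 / δ + 1) * (1 / δ + 1)⁻¹ := by field_simp
        _ ≤ _ := mul_le_mul_of_nonneg_left (h6.trans h4) (by positivity)
    calc arm q m ≤ 1 := arm_le_one hq0 h1 m
      _ ≤ (1 / δ + 1) * ((m : ℝ) + 1) ^ (-(5 / 48) : ℝ) := h3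
      _ ≤ _ := by
          apply mul_le_mul_of_nonneg_right _ h5.le
          have : 0 < 3 * C * (4 / δ) := by positivity
          linarith
  · obtain ⟨m', hm'⟩ : ∃ m' : ℕ, m' = ⌊δ * m⌋₊ := ⟨_, rfl⟩
    have hm'1 : 1 ≤ m' := by rw [hm']; exact Nat.le_floor (by exact_mod_cast hcase)
    have hm'2 : (m' : ℝ) ≤ δ * m := by rw [hm']; exact Nat.floor_le (by positivity)
    have hm'3 : δ * m < (m' : ℝ) + 1 := by rw [hm']; exact Nat.lt_floor_add_one _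
    have hm'0 : (1 : ℝ) ≤ m' := by exact_mod_cast hm'1
    have hm'm : m' ≤ m := by
      have : (m' : ℝ) ≤ m := hm'2.trans (by nlinarith)
      exact_mod_cast this
    have hs0 : 0 ≤ q - 1 / 2 := by linarith
    have hsm : (m : ℝ) * (q - 1 / 2) ^ (4 / 3 : ℝ) ≤ K := by
      refine le_trans ?_ hn
      apply mul_le_mul_of_nonneg_right (by exact_mod_cast hm) (by positivity)
    have hsm' : (m' : ℝ) * (q - 1 / 2) ^ (4 / 3 : ℝ) ≤ b ^ (4 / 3 : ℝ) := by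
      calc (m' : ℝ) * (q - 1 / 2) ^ (4 / 3 : ℝ) ≤ δ * m * (q - 1 / 2) ^ (4 / 3 : ℝ) :=
            mul_le_mul_of_nonneg_right hm'2 (by positivity)
        _ = δ * (m * (q - 1 / 2) ^ (4 / 3 : ℝ)) := by ring
        _ ≤ δ * K := mul_le_mul_of_nonneg_left hsm hδ0.le
        _ ≤ _ := hδb
    have hwin : |q - 1 / 2| ≤ b * (m' : ℝ) ^ (-(3 / 4 : ℝ)) := by
      rw [abs_of_nonneg hs0, Real.rpow_neg (by positivity), ← div_eq_mul_inv,
        le_div_iff₀ (by positivity)]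
      have h2 : ((q - 1 / 2) * (m' : ℝ) ^ (3 / 4 : ℝ)) ^ (4 / 3 : ℝ) ≤ b ^ (4 / 3 : ℝ) := by
        rw [Real.mul_rpow hs0 (by positivity), ← Real.rpow_mul (by positivity)]
        norm_num
        norm_num at hsm'
        linarith [mul_comm ((m' : ℝ)) ((q - 1 / 2) ^ (4 / 3 : ℝ))]
      exact (Real.rpow_le_rpow_iff (by positivity) hb.le (by norm_num : (0 : ℝ) < 4 / 3)).1 h2
    obtain ⟨-, h6, -⟩ := hS m' hm'1 q hwin
    have h7 := (h m' hm'1).2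
    have h8 : (m' : ℝ) ^ (-(5 / 48) : ℝ) ≤ (4 / δ) * ((m : ℝ) + 1) ^ (-(5 / 48) : ℝ) := by
      have hm1 : (1 : ℝ) ≤ m := hm'0.trans (by exact_mod_cast hm'm)
      have e1 : δ / 4 * ((m : ℝ) + 1) ≤ m' := by nlinarith
      have e2 : (m' : ℝ) ^ (-(5 / 48) : ℝ) ≤ (δ / 4 * ((m : ℝ) + 1)) ^ (-(5 / 48) : ℝ) :=
        Real.rpow_le_rpow_of_nonpos (by positivity) e1 (by norm_num)
      have e3 : (δ / 4) ^ (-(5 / 48) : ℝ) ≤ 4 / δ := by
        calc (δ / 4) ^ (-(5 / 48) : ℝ) ≤ (δ / 4) ^ (-1 : ℝ) :=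
              Real.rpow_le_rpow_of_exponent_ge (by positivity) (by linarith) (by norm_num)
          _ = 4 / δ := by rw [Real.rpow_neg_one, inv_div]
      rw [Real.mul_rpow (by positivity) (by positivity)] at e2
      exact e2.trans (mul_le_mul_of_nonneg_right e3 h5.le)
    calc arm q m ≤ arm q m' := arm_anti hq0 h1 hm'm
      _ ≤ 3 * arm (1 / 2) m' := h6
      _ ≤ 3 * (C * (m' : ℝ) ^ (-(5 / 48) : ℝ)) := by linarith
      _ ≤ 3 * (C * ((4 / δ) * ((m : ℝ) + 1) ^ (-(5 / 48) : ℝ))) := by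
          have := mul_le_mul_of_nonneg_left h8 hC.le
          linarith
      _ = 3 * C * (4 / δ) * ((m : ℝ) + 1) ^ (-(5 / 48) : ℝ) := by ring
      _ ≤ _ := by
          apply mul_le_mul_of_nonneg_right _ h5.le
          have : 0 < 1 / δ := by positivity
          linarith

/-- the volume of the cluster, at a single scale -/
theorem single {q A : ℝ} (h0 : 0 ≤ q) (h1 : q ≤ 1) {n : ℕ} (hAB : AB q A n) (S : Finset Edg)
    {a : ℝ} (ha : 1 ≤ a) (han : a ≤ (n : ℝ) ^ (91 / 48 : ℝ)) :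
    Pr (fun _ => q) S (VolAt a (0, 0)) ≤ 400000 * A ^ 2 * a ^ (-(5 / 91) : ℝ) := by
  have ok := okq h0 h1
  have hA := AB_one_le hAB
  have hA2 : 1 ≤ A ^ 2 := by nlinarith
  rcases eq_or_lt_of_le ha with h1a | h1a
  · rw [← h1a, Real.one_rpow]
    have := Pr_le_one ok S (VolAt 1 (0, 0))
    linarith
  obtain ⟨x, hx⟩ : ∃ x : ℝ, x = a ^ (48 / 91 : ℝ) := ⟨_, rfl⟩
  have hx1 : 1 ≤ x := by rw [hx]; exact Real.one_le_rpow ha (by norm_num)
  have hxn : x ≤ n := by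
    rw [hx]
    calc a ^ (48 / 91 : ℝ) ≤ ((n : ℝ) ^ (91 / 48 : ℝ)) ^ (48 / 91 : ℝ) :=
          Real.rpow_le_rpow (by linarith) han (by norm_num)
      _ = n := by rw [← Real.rpow_mul (by positivity)]; norm_num
  obtain ⟨K, hK⟩ : ∃ K : ℕ, K = ⌈x⌉₊ := ⟨_, rfl⟩
  have hKx : x ≤ K := by rw [hK]; exact Nat.le_ceil x
  have hKx2 : (K : ℝ) < x + 1 := by rw [hK]; exact Nat.ceil_lt_add_one (by linarith)
  have hK1 : 1 ≤ K := by
    have : (1 : ℝ) ≤ K := hx1.trans hKx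
    exact_mod_cast this
  have hKn : K ≤ n := by rw [hK]; exact Nat.ceil_le.2 hxn
  have hABK : AB q A K := fun m hm => hAB m (hm.trans hKn)
  have hd := dyad h0 h1 hK1 hABK S h1a
  have hK0 : (0 : ℝ) < K := by exact_mod_cast hK1
  have e1 : x ^ (-(5 / 48) : ℝ) = a ^ (-(5 / 91) : ℝ) := by
    rw [hx, ← Real.rpow_mul (by linarith)]; norm_num
  have e2 : x ^ (91 / 48 : ℝ) = a := by
    rw [hx, ← Real.rpow_mul (by linarith)]; norm_num
  have e3 : (K : ℝ) ^ (-(5 / 48) : ℝ) ≤ a ^ (-(5 / 91) : ℝ) := by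
    rw [← e1]
    exact Real.rpow_le_rpow_of_nonpos (by linarith) hKx (by norm_num)
  have e4 : (K : ℝ) ^ (91 / 48 : ℝ) ≤ 4 * a := by
    calc (K : ℝ) ^ (91 / 48 : ℝ) ≤ (2 * x) ^ (91 / 48 : ℝ) :=
          Real.rpow_le_rpow hK0.le (by linarith) (by norm_num)
      _ = (2 : ℝ) ^ (91 / 48 : ℝ) * a := by rw [Real.mul_rpow (by norm_num) (by linarith), e2]
      _ ≤ 4 * a := by
          apply mul_le_mul_of_nonneg_right _ (by linarith)
          calc (2 : ℝ) ^ (91 / 48 : ℝ) ≤ (2 : ℝ) ^ (2 : ℝ) :=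
                Real.rpow_le_rpow_of_exponent_le (by norm_num) (by norm_num)
            _ = 4 := by norm_num
  have e5 : (K : ℝ) ^ (91 / 48 : ℝ) / a ≤ 4 := by rw [div_le_iff₀ (by linarith)]; exact e4
  have e6 : Real.exp (-(a / (4800 * A * (K : ℝ) ^ (91 / 48 : ℝ)))) ≤ 1 := by
    apply Real.exp_le_one_iff.2
    rw [Left.neg_nonpos_iff]
    positivity
  have hap : 0 < a ^ (-(5 / 91) : ℝ) := by positivity
  have h2 : Pr (fun _ => q) S (fun F => VolAt a (0, 0) F ∧ ¬ Far (0, 0) K F) ≤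
      320000 * A ^ 2 * a ^ (-(5 / 91) : ℝ) := by
    calc _ ≤ _ := hd
      _ ≤ 80000 * A ^ 2 * a ^ (-(5 / 91) : ℝ) * 4 * 1 := by
          apply mul_le_mul _ e6 (Real.exp_pos _).le (by positivity)
          apply mul_le_mul _ e5 (by positivity) (by positivity)
          exact mul_le_mul_of_nonneg_left e3 (by positivity)
      _ = _ := by ring
  have h3 : Pr (fun _ => q) S (Far (0, 0) K) ≤ A * a ^ (-(5 / 91) : ℝ) := by
    calc Pr (fun _ => q) S (Far (0, 0) K) ≤ Pr (fun _ => q) S (LA (0, 0) K) :=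
          Pr_mono ok fun F _ hF => LA_of_far (le_refl _) hF
      _ ≤ arm q K := pr_LAq h0 h1 S _ _
      _ ≤ A * ((K : ℝ) + 1) ^ (-(5 / 48) : ℝ) := hAB K hKn
      _ ≤ A * (K : ℝ) ^ (-(5 / 48) : ℝ) := by
          apply mul_le_mul_of_nonneg_left _ (by linarith)
          exact Real.rpow_le_rpow_of_nonpos hK0 (by linarith) (by norm_num)
      _ ≤ _ := mul_le_mul_of_nonneg_left e3 (by linarith)
  calc Pr (fun _ => q) S (VolAt a (0, 0))
      ≤ Pr (fun _ => q) S (fun F => (VolAt a (0, 0) F ∧ ¬ Far (0, 0) K F) ∨ Far (0, 0) K F) := by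
        apply Pr_mono ok
        intro F _ hF
        by_cases h : Far (0, 0) K F
        · exact Or.inr h
        · exact Or.inl ⟨hF, h⟩
    _ ≤ _ := Pr_or_le ok S _ _
    _ ≤ 320000 * A ^ 2 * a ^ (-(5 / 91) : ℝ) + A * a ^ (-(5 / 91) : ℝ) := add_le_add h2 h3
    _ ≤ _ := by
        have : A ≤ A ^ 2 := by nlinarith
        nlinarith

end Pool.Agent.N952.CS
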