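import Pool.Agent.N952.CS.Single
import Pool.Agent.W424.NC.Corr

/-!
The volume of the cluster at and below the critical point: upper bound.
-/

set_option autoImplicit false

namespace Pool.Agent.N952.CS
open Finset H974 Pool.Agent.H160R2.CV Pool.Agent.H160R2.CV.Quad Pool.Agent.Y244.PC

/-- from the correlation length to the parameter -/
theorem conv {X a t E c1 r : ℝ} (hX : 0 < X) (haX : X ^ (91 / 48 : ℝ) ≤ a) (ht : 0 ≤ t)
    (hE : 0 < E) (hXt : X * t ^ (4 / 3 : ℝ) ≤ E) (hc1 : 0 < c1) (hr : 5 / 91 ≤ r) :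
    X ^ (-(5 / 48) : ℝ) * Real.exp (-(c1 * (a / X ^ (91 / 48 : ℝ)) ^ r)) ≤
      2 / c1 * (a ^ (-(5 / 91) : ℝ) *
        Real.exp (-(c1 / 2 * ((1 / E ^ (91 / 48 : ℝ)) ^ r * (a * t ^ (91 / 36 : ℝ)) ^ r)))) := by
  have hXs : 0 < X ^ (91 / 48 : ℝ) := by positivity
  have hEs : 0 < E ^ (91 / 48 : ℝ) := by positivity
  have ha : 0 < a := lt_of_lt_of_le hXs haX
  obtain ⟨y, hy⟩ : ∃ y, y = a / X ^ (91 / 48 : ℝ) := ⟨_, rfl⟩
  have hy1 : 1 ≤ y := by rw [hy, le_div_iff₀ hXs, one_mul]; exact haX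
  have hy0 : 0 < y := by linarith
  have e1 : X ^ (-(5 / 48) : ℝ) = a ^ (-(5 / 91) : ℝ) * y ^ (5 / 91 : ℝ) := by
    rw [hy, Real.div_rpow ha.le hXs.le, ← Real.rpow_mul hX.le, mul_div_assoc', ← Real.rpow_add ha]
    norm_num
    rw [Real.rpow_neg hX.le]
  have e2 : y ^ (5 / 91 : ℝ) ≤ y ^ r := Real.rpow_le_rpow_of_exponent_le hy1 hr
  have hw0 : 0 < y ^ r := by positivity
  have e3 : y ^ r * Real.exp (-(c1 * y ^ r)) ≤ 2 / c1 * Real.exp (-(c1 / 2 * y ^ r)) := by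
    have h1 : Real.exp (-(c1 * y ^ r)) = Real.exp (-(c1 / 2 * y ^ r)) *
        Real.exp (-(c1 / 2 * y ^ r)) := by rw [← Real.exp_add]; congr 1; ring
    have h2 := exp_neg_le_inv (u := c1 / 2 * y ^ r) (by positivity)
    have h3 : y ^ r * Real.exp (-(c1 / 2 * y ^ r)) ≤ 2 / c1 := by
      calc y ^ r * Real.exp (-(c1 / 2 * y ^ r)) ≤ y ^ r * (1 / (c1 / 2 * y ^ r)) :=
            mul_le_mul_of_nonneg_left h2 hw0.le
        _ = 2 / c1 := by field_simp
    rw [h1, ← mul_assoc]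
    exact mul_le_mul_of_nonneg_right h3 (Real.exp_pos _).le
  have e4 : (1 / E ^ (91 / 48 : ℝ)) ^ r * (a * t ^ (91 / 36 : ℝ)) ^ r ≤ y ^ r := by
    rw [← Real.mul_rpow (by positivity) (by positivity)]
    apply Real.rpow_le_rpow (by positivity) _ (by linarith)
    have h1 : X ^ (91 / 48 : ℝ) * t ^ (91 / 36 : ℝ) ≤ E ^ (91 / 48 : ℝ) := by
      have h2 : t ^ (91 / 36 : ℝ) = (t ^ (4 / 3 : ℝ)) ^ (91 / 48 : ℝ) := by
        rw [← Real.rpow_mul ht]; norm_num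
      rw [h2, ← Real.mul_rpow hX.le (by positivity)]
      exact Real.rpow_le_rpow (by positivity) hXt (by norm_num)
    rw [hy, one_div, inv_mul_le_iff₀ hEs, mul_div_assoc', le_div_iff₀ hXs]
    nlinarith
  have e5 : Real.exp (-(c1 / 2 * y ^ r)) ≤ Real.exp (-(c1 / 2 *
      ((1 / E ^ (91 / 48 : ℝ)) ^ r * (a * t ^ (91 / 36 : ℝ)) ^ r))) := by
    apply Real.exp_le_exp.2
    rw [neg_le_neg_iff]
    exact mul_le_mul_of_nonneg_left e4 (by positivity)
  rw [← hy, e1]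
  have hap : 0 < a ^ (-(5 / 91) : ℝ) := by positivity
  calc a ^ (-(5 / 91) : ℝ) * y ^ (5 / 91 : ℝ) * Real.exp (-(c1 * y ^ r))
      ≤ a ^ (-(5 / 91) : ℝ) * y ^ r * Real.exp (-(c1 * y ^ r)) := by
        apply mul_le_mul_of_nonneg_right _ (Real.exp_pos _).le
        exact mul_le_mul_of_nonneg_left e2 hap.le
    _ = a ^ (-(5 / 91) : ℝ) * (y ^ r * Real.exp (-(c1 * y ^ r))) := by ring
    _ ≤ a ^ (-(5 / 91) : ℝ) * (2 / c1 * Real.exp (-(c1 / 2 * y ^ r))) :=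
        mul_le_mul_of_nonneg_left e3 hap.le
    _ ≤ a ^ (-(5 / 91) : ℝ) * (2 / c1 * Real.exp (-(c1 / 2 *
        ((1 / E ^ (91 / 48 : ℝ)) ^ r * (a * t ^ (91 / 36 : ℝ)) ^ r)))) := by
        apply mul_le_mul_of_nonneg_left _ hap.le
        exact mul_le_mul_of_nonneg_left e5 (by positivity)
    _ = _ := by ring

theorem exists_box (S : Finset Edg) : ∃ M : ℕ, S ⊆ boxE M := by
  induction S using Finset.induction_on with
  | empty => exact ⟨0, Finset.empty_subset _⟩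
  | insert e S _ ih =>
    obtain ⟨M, hM⟩ := ih
    obtain ⟨N, hN⟩ := Pool.Agent.W424.NC.edge_box e
    refine ⟨max M N, ?_⟩
    rw [Finset.insert_subset_iff]
    exact ⟨boxE_mono (le_max_right _ _) hN, hM.trans (boxE_mono (le_max_left _ _))⟩

/-- the rate at the scale `n` -/
noncomputable def rate (A : ℝ) (n : ℕ) : ℝ :=
  1 / (72 * A * (2 * (n : ℝ) + 1) ^ 2 * ((n : ℝ) + 1) ^ (-(5 / 48) : ℝ))

theorem sc_rate {q A : ℝ} (h0 : 0 ≤ q) (h1 : q ≤ 1) {n : ℕ} (hAB : AB q A n) :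
    Sc q A (rate A n) n := by
  have hA := AB_one_le hAB
  refine ⟨h0, h1, hAB, by unfold rate; positivity, fun z => ?_⟩
  have h2 := DD_bq (A := A) (by linarith) n z
  have h3 : 0 < (2 * (n : ℝ) + 1) ^ 2 * ((n : ℝ) + 1) ^ (-(5 / 48) : ℝ) := by positivity
  calc rate A n * DD (2 * A) n (bq n z) ≤ rate A n *
        (36 * A * (2 * (n : ℝ) + 1) ^ 2 * ((n : ℝ) + 1) ^ (-(5 / 48) : ℝ)) :=
        mul_le_mul_of_nonneg_left h2 (by unfold rate; positivity)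
    _ = 1 / 2 := by unfold rate; field_simp; norm_num

theorem rate_ge {A : ℝ} (hA : 1 ≤ A) (n : ℕ) :
    1 / (288 * A * ((n : ℝ) + 1) ^ (91 / 48 : ℝ)) ≤ rate A n := by
  unfold rate
  apply one_div_le_one_div_of_le (by positivity)
  have h0 : (0 : ℝ) ≤ n := by positivity
  have h1 : ((n : ℝ) + 1) ^ (91 / 48 : ℝ) =
      ((n : ℝ) + 1) ^ 2 * ((n : ℝ) + 1) ^ (-(5 / 48) : ℝ) := by
    rw [← Real.rpow_natCast ((n : ℝ) + 1) 2, ← Real.rpow_add (by positivity)]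
    norm_num
  have h2 : (0 : ℝ) < A * ((n : ℝ) + 1) ^ (-(5 / 48) : ℝ) := by positivity
  have h3 : (2 * (n : ℝ) + 1) ^ 2 ≤ 4 * ((n : ℝ) + 1) ^ 2 := by nlinarith
  rw [h1]
  nlinarith

/-- clusters of large diameter below the critical point -/
theorem sub_far {q A ε : ℝ} {n : ℕ} (h0 : 0 ≤ q) (h1 : q ≤ 1) (hAB : AB q A n) (he0 : 0 ≤ ε)
    (he1 : 2 ^ 9 * (2 * ε) ≤ 1 / 2)
    (hCB : ∀ S, annE n (2 * n + 1) ⊆ S →
      Pr (fun _ => q) S (fun F => ¬ Blk (n : ℤ) ((2 * n + 1 : ℕ) : ℤ) F) ≤ ε ^ 18)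
    (S : Finset Edg) (a : ℝ) :
    Pr (fun _ => q) S (fun F => VolAt a (0, 0) F ∧ Far (0, 0) (4 * n + 2) F) ≤
      200 * A * ((n : ℝ) + 1) ^ (-(5 / 48) : ℝ) * Real.exp (-(rate A n * a / 36)) := by
  have ok := okq h0 h1
  have hsc := sc_rate h0 h1 hAB
  obtain ⟨M, hM⟩ := exists_box S
  obtain ⟨E, hE⟩ : ∃ E : Finset Edg → Prop, E = fun F =>
    VolAt a (0, 0) (F ∩ boxE M) ∧ Far (0, 0) (4 * n + 2) (F ∩ boxE M) := ⟨_, rfl⟩
  have h2 : Pr (fun _ => q) S (fun F => VolAt a (0, 0) F ∧ Far (0, 0) (4 * n + 2) F) ≤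
      Pr (fun _ => q) (boxE M) E := by
    refine (Pr_mono_set ok hM ?_).trans (le_of_eq ?_)
    · intro F G hFG _ hF
      exact ⟨VolAt_mono hFG hF.1, by
        obtain ⟨u, hu, hr⟩ := hF.2
        exact ⟨u, hu, hr.mono (by exact_mod_cast hFG)⟩⟩
    · apply Pr_congr
      intro F hF
      rw [hE]
      simp only
      rw [Finset.inter_eq_left.2 hF]
  refine h2.trans ?_
  apply avg hsc (Real.exp_pos _) (G := fun F => ∃ Γ : Finset Vtx, Γ ⊆ LS n (boxE (M + n)) ∧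
    Anim Γ ∧ (∀ z ∈ Γ, CB n z F) ∧ a ≤ ∑ z ∈ Γ, YY n (bq n z) F)
  · intro F
    rw [hE]
    simp only
    rw [Finset.inter_assoc, Finset.inter_self]
  · intro x hx F hF hEF
    rw [hE] at hEF
    have h3 : VolAt a x F := VolAt_sh.1 (VolAt_mono Finset.inter_subset_left hEF.1)
    have h4 : Far x (4 * n + 2) F := by
      apply Far_sh.1
      obtain ⟨u, hu, hr⟩ := hEF.2
      exact ⟨u, hu, hr.mono (by exact_mod_cast Finset.inter_subset_left)⟩
    exact ⟨LA_of_far (by omega) h4, cluster_anim hF hx h4 h3⟩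
  · refine (big_prob hsc he0 he1 hCB _ a).trans ?_
    have e : Real.exp (-(rate A n * a / 36)) ^ 2 = Real.exp (-(rate A n * a / 18)) := by
      rw [← Real.exp_nat_mul]; congr 1; push_cast; ring
    rw [e]
    have := Real.exp_pos (-(rate A n * a / 18))
    linarith

/-- the bound of the near part, at the scale `n` -/
theorem near_part {q A : ℝ} {n : ℕ} (h0 : 0 ≤ q) (h1 : q ≤ 1) (hAB : AB q A (4 * n + 2))
    (S : Finset Edg) {a : ℝ} (ha : 1 < a) (haX : ((n : ℝ) + 1) ^ (91 / 48 : ℝ) ≤ a) :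
    Pr (fun _ => q) S (fun F => VolAt a (0, 0) F ∧ ¬ Far (0, 0) (4 * n + 2) F) ≤
      1280000 * A ^ 2 * ((n : ℝ) + 1) ^ (-(5 / 48) : ℝ) *
        Real.exp (-(a / (76800 * A * ((n : ℝ) + 1) ^ (91 / 48 : ℝ)))) := by
  have hA := AB_one_le hAB
  have hd := dyad h0 h1 (K := 4 * n + 2) (by omega) hAB S ha
  obtain ⟨X, hX⟩ : ∃ X : ℝ, X = (n : ℝ) + 1 := ⟨_, rfl⟩
  rw [← hX] at haX ⊢
  have hn0 : (0 : ℝ) ≤ n := by positivity
  have hX1 : 1 ≤ X := by rw [hX]; linarith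
  have hX0 : 0 < X := by linarith
  obtain ⟨K, hK⟩ : ∃ K : ℝ, K = ((4 * n + 2 : ℕ) : ℝ) := ⟨_, rfl⟩
  rw [← hK] at hd
  have hK1 : X ≤ K := by rw [hK, hX]; push_cast; linarith
  have hK2 : K ≤ 4 * X := by rw [hK, hX]; push_cast; linarith
  have hK0 : 0 < K := by linarith
  have hXs : 0 < X ^ (91 / 48 : ℝ) := by positivity
  have e1 : K ^ (-(5 / 48) : ℝ) ≤ X ^ (-(5 / 48) : ℝ) :=
    Real.rpow_le_rpow_of_nonpos hX0 hK1 (by norm_num)
  have e2 : K ^ (91 / 48 : ℝ) ≤ 16 * X ^ (91 / 48 : ℝ) := by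
    calc K ^ (91 / 48 : ℝ) ≤ (4 * X) ^ (91 / 48 : ℝ) := Real.rpow_le_rpow hK0.le hK2 (by norm_num)
      _ = (4 : ℝ) ^ (91 / 48 : ℝ) * X ^ (91 / 48 : ℝ) := Real.mul_rpow (by norm_num) hX0.le
      _ ≤ _ := by
          apply mul_le_mul_of_nonneg_right _ hXs.le
          calc (4 : ℝ) ^ (91 / 48 : ℝ) ≤ (4 : ℝ) ^ (2 : ℝ) :=
                Real.rpow_le_rpow_of_exponent_le (by norm_num) (by norm_num)
            _ = 16 := by norm_num
  have e3 : K ^ (91 / 48 : ℝ) / a ≤ 16 := by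
    rw [div_le_iff₀ (by linarith)]
    linarith
  have e4 : Real.exp (-(a / (4800 * A * K ^ (91 / 48 : ℝ)))) ≤
      Real.exp (-(a / (76800 * A * X ^ (91 / 48 : ℝ)))) := by
    apply Real.exp_le_exp.2
    rw [neg_le_neg_iff]
    apply div_le_div_of_nonneg_left (by linarith) (by positivity)
    nlinarith
  calc _ ≤ _ := hd
    _ ≤ 80000 * A ^ 2 * X ^ (-(5 / 48) : ℝ) * 16 *
        Real.exp (-(a / (76800 * A * X ^ (91 / 48 : ℝ)))) := by
        apply mul_le_mul _ e4 (Real.exp_pos _).le (by positivity)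
        apply mul_le_mul _ e3 (by positivity) (by positivity)
        exact mul_le_mul_of_nonneg_left e1 (by positivity)
    _ = _ := by ring

/-- the volume of the cluster at and below the critical point -/
theorem upper_sub : ∃ c C : ℝ, 0 < c ∧ 0 < C ∧ ∀ q : ℝ, 0 ≤ q → q ≤ 1 / 2 → ∀ a : ℝ, 1 ≤ a →
    ∀ S : Finset Edg, Pr (fun _ => q) S (VolAt a (0, 0)) ≤
      C * a ^ (-(5 / 91) : ℝ) * Real.exp (-(c * (a * (1 / 2 - q) ^ (91 / 36 : ℝ)))) := by
  obtain ⟨A, hA1, hA⟩ := ab_low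
  obtain ⟨E, hE1, hfar⟩ := Pool.Agent.W424.NC.farN
  obtain ⟨E1, hE1'⟩ : ∃ E1 : ℝ, E1 = 2 ^ 7 * E := ⟨_, rfl⟩
  have hE10 : 0 < E1 := by rw [hE1']; positivity
  have hEs : 0 < E1 ^ (91 / 48 : ℝ) := by positivity
  obtain ⟨c1, hc1⟩ : ∃ c1 : ℝ, c1 = 1 / (76800 * A) := ⟨_, rfl⟩
  have hc10 : 0 < c1 := by rw [hc1]; positivity
  obtain ⟨c, hc⟩ : ∃ c : ℝ, c = c1 / 2 * (1 / E1 ^ (91 / 48 : ℝ)) := ⟨_, rfl⟩
  have hc0 : 0 < c := by rw [hc]; positivity
  refine ⟨c, 400000 * A ^ 2 * Real.exp (c * E1 ^ (91 / 48 : ℝ)) +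
    (1280000 * A ^ 2 + 200 * A) * (2 / c1), hc0, by positivity, ?_⟩
  intro q h0 h1 a ha S
  have h1' : q ≤ 1 := by linarith
  have ok := okq h0 h1'
  have hap : 0 < a ^ (-(5 / 91) : ℝ) := by positivity
  rcases eq_or_lt_of_le h1 with heq | hlt
  · -- the critical point
    obtain ⟨n, hn⟩ : ∃ n : ℕ, a ≤ n := exists_nat_ge a
    have hn1 : (1 : ℝ) ≤ n := ha.trans hn
    have han : a ≤ (n : ℝ) ^ (91 / 48 : ℝ) := by
      refine hn.trans ?_
      nth_rewrite 1 [← Real.rpow_one (n : ℝ)]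
      exact Real.rpow_le_rpow_of_exponent_le hn1 (by norm_num)
    have h3 := single h0 h1' (hA q h0 h1 n) S ha han
    have e : (1 / 2 - q) ^ (91 / 36 : ℝ) = 0 := by
      rw [heq, sub_self]
      exact Real.zero_rpow (by norm_num)
    rw [e, mul_zero, mul_zero, neg_zero, Real.exp_zero, mul_one]
    refine h3.trans ?_
    apply mul_le_mul_of_nonneg_right _ hap.le
    have h4 : 1 ≤ Real.exp (c * E1 ^ (91 / 48 : ℝ)) := Real.one_le_exp (by positivity)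
    have h5 : 0 ≤ (1280000 * A ^ 2 + 200 * A) * (2 / c1) := by positivity
    nlinarith [sq_nonneg A]
  obtain ⟨N0, hN2, hN3, hN4, hN5⟩ := hfar q h0 hlt
  obtain ⟨t, ht⟩ : ∃ t : ℝ, t = 1 / 2 - q := ⟨_, rfl⟩
  rw [← ht] at hN3 hN4 ⊢
  have ht0 : 0 < t := by rw [ht]; linarith
  obtain ⟨n, hn⟩ : ∃ n : ℕ, n = 2 ^ 7 * N0 - 1 := ⟨_, rfl⟩
  have hn1 : n + 1 = 2 ^ 7 * N0 := by omega
  obtain ⟨X, hX⟩ : ∃ X : ℝ, X = (n : ℝ) + 1 := ⟨_, rfl⟩
  have hXN : X = 2 ^ 7 * N0 := by rw [hX]; exact_mod_cast hn1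
  have hX0 : 0 < X := by rw [hX]; positivity
  have hXt : X * t ^ (4 / 3 : ℝ) ≤ E1 := by
    rw [hXN, hE1', mul_assoc]
    exact mul_le_mul_of_nonneg_left hN3 (by positivity)
  rcases lt_or_ge (X ^ (91 / 48 : ℝ)) a with hcase | hcase
  · -- beyond the correlation length
    have hX1 : 1 ≤ X := by rw [hX]; have : (0 : ℝ) ≤ n := by positivity
                           linarith
    have ha1 : 1 < a := lt_of_le_of_lt (Real.one_le_rpow hX1 (by norm_num)) hcase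
    have hnear := near_part h0 h1' (hA q h0 h1 (4 * n + 2)) S ha1 (by rw [← hX]; exact hcase.le)
    have hfarp := sub_far h0 h1' (hA q h0 h1 n) (ε := (1 / 2) ^ 11) (by positivity) (by norm_num)
      (by
        intro S' hS'
        have e1 : annE (2 ^ 7 * N0 - 1) (2 * (2 ^ 7 * N0) - 1) ⊆ S' := by
          have e2 : 2 * (2 ^ 7 * N0) - 1 = 2 * n + 1 := by omega
          rw [e2, ← hn]; exact hS'
        have h3 := Pool.Agent.W424.NC.pr_nblk_pow h0 h1' hN2 hN5 7 e1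
        have e2 : 2 * (2 ^ 7 * N0) - 1 = 2 * n + 1 := by omega
        rw [e2, ← hn] at h3
        refine h3.trans ?_
        norm_num) S a
    rw [← hX] at hnear hfarp
    have hXs : 0 < X ^ (91 / 48 : ℝ) := by positivity
    have hXp : 0 < X ^ (-(5 / 48) : ℝ) := by positivity
    have e5 : a / (76800 * A * X ^ (91 / 48 : ℝ)) = c1 * (a / X ^ (91 / 48 : ℝ)) ^ (1 : ℝ) := by
      rw [hc1, Real.rpow_one]; field_simp
    have e6 : Real.exp (-(rate A n * a / 36)) ≤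
        Real.exp (-(c1 * (a / X ^ (91 / 48 : ℝ)) ^ (1 : ℝ))) := by
      apply Real.exp_le_exp.2
      rw [neg_le_neg_iff, Real.rpow_one, hc1]
      have h3 := rate_ge hA1 n
      rw [← hX] at h3
      have h4 : 1 / (288 * A * X ^ (91 / 48 : ℝ)) * a ≤ rate A n * a :=
        mul_le_mul_of_nonneg_right h3 (by linarith)
      have h5 : 1 / (76800 * A) * (a / X ^ (91 / 48 : ℝ)) ≤
          1 / (288 * A * X ^ (91 / 48 : ℝ)) * a / 36 := by
        have h6 : 1 / (288 * A * X ^ (91 / 48 : ℝ)) * a / 36 =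
            (76800 / 10368) * (1 / (76800 * A) * (a / X ^ (91 / 48 : ℝ))) := by
          field_simp; norm_num
        rw [h6]
        have h7 : 0 ≤ 1 / (76800 * A) * (a / X ^ (91 / 48 : ℝ)) := by positivity
        nlinarith
      linarith
    rw [e5] at hnear
    have hconv := conv (r := 1) hX0 hcase.le ht0.le hE10 hXt hc10 (by norm_num)
    rw [Real.rpow_one, Real.rpow_one (a * t ^ (91 / 36 : ℝ))] at hconv
    have e7 : c1 / 2 * (1 / E1 ^ (91 / 48 : ℝ) * (a * t ^ (91 / 36 : ℝ))) =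
        c * (a * t ^ (91 / 36 : ℝ)) := by rw [hc]; ring
    rw [Real.rpow_one, e7] at hconv
    rw [Real.rpow_one] at hnear e6
    obtain ⟨Z, hZ⟩ : ∃ Z, Z = X ^ (-(5 / 48) : ℝ) * Real.exp (-(c1 * (a / X ^ (91 / 48 : ℝ)))) :=
      ⟨_, rfl⟩
    rw [← hZ] at hconv
    calc Pr (fun _ => q) S (VolAt a (0, 0))
        ≤ Pr (fun _ => q) S (fun F => (VolAt a (0, 0) F ∧ ¬ Far (0, 0) (4 * n + 2) F) ∨
            (VolAt a (0, 0) F ∧ Far (0, 0) (4 * n + 2) F)) := by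
          apply Pr_mono ok
          intro F _ hF
          by_cases h : Far (0, 0) (4 * n + 2) F
          · exact Or.inr ⟨hF, h⟩
          · exact Or.inl ⟨hF, h⟩
      _ ≤ _ := Pr_or_le ok S _ _
      _ ≤ 1280000 * A ^ 2 * Z + 200 * A * Z := by
          apply add_le_add
          · refine hnear.trans (le_of_eq ?_)
            rw [hZ]; ring
          · refine hfarp.trans ?_
            calc 200 * A * X ^ (-(5 / 48) : ℝ) * Real.exp (-(rate A n * a / 36))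
                ≤ 200 * A * X ^ (-(5 / 48) : ℝ) *
                  Real.exp (-(c1 * (a / X ^ (91 / 48 : ℝ)))) :=
                  mul_le_mul_of_nonneg_left e6 (by positivity)
              _ = _ := by rw [hZ]; ring
      _ = (1280000 * A ^ 2 + 200 * A) * Z := by ring
      _ ≤ (1280000 * A ^ 2 + 200 * A) * (2 / c1 * (a ^ (-(5 / 91) : ℝ) *
          Real.exp (-(c * (a * t ^ (91 / 36 : ℝ)))))) :=
          mul_le_mul_of_nonneg_left hconv (by positivity)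
      _ = (1280000 * A ^ 2 + 200 * A) * (2 / c1) * (a ^ (-(5 / 91) : ℝ) *
          Real.exp (-(c * (a * t ^ (91 / 36 : ℝ))))) := by ring
      _ ≤ _ := by
          rw [mul_assoc _ (a ^ (-(5 / 91) : ℝ))]
          apply mul_le_mul_of_nonneg_right _ (by positivity)
          have : 0 ≤ 400000 * A ^ 2 * Real.exp (c * E1 ^ (91 / 48 : ℝ)) := by positivity
          linarith
  · -- up to the correlation length
    have h3 := single h0 h1' (hA q h0 h1 (n + 1)) S ha (by push_cast; rw [← hX]; exact hcase)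
    have h4 : a * t ^ (91 / 36 : ℝ) ≤ E1 ^ (91 / 48 : ℝ) := by
      have h5 : t ^ (91 / 36 : ℝ) = (t ^ (4 / 3 : ℝ)) ^ (91 / 48 : ℝ) := by
        rw [← Real.rpow_mul ht0.le]; norm_num
      calc a * t ^ (91 / 36 : ℝ) ≤ X ^ (91 / 48 : ℝ) * t ^ (91 / 36 : ℝ) :=
            mul_le_mul_of_nonneg_right hcase (by positivity)
        _ = (X * t ^ (4 / 3 : ℝ)) ^ (91 / 48 : ℝ) := by
            rw [h5, Real.mul_rpow hX0.le (by positivity)]
        _ ≤ _ := Real.rpow_le_rpow (by positivity) hXt (by norm_num)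
    have h5 : 1 ≤ Real.exp (c * E1 ^ (91 / 48 : ℝ)) *
        Real.exp (-(c * (a * t ^ (91 / 36 : ℝ)))) := by
      rw [← Real.exp_add]
      apply Real.one_le_exp
      nlinarith
    calc Pr (fun _ => q) S (VolAt a (0, 0)) ≤ 400000 * A ^ 2 * a ^ (-(5 / 91) : ℝ) := h3
      _ = 400000 * A ^ 2 * a ^ (-(5 / 91) : ℝ) * 1 := by ring
      _ ≤ 400000 * A ^ 2 * a ^ (-(5 / 91) : ℝ) * (Real.exp (c * E1 ^ (91 / 48 : ℝ)) *
        Real.exp (-(c * (a * t ^ (91 / 36 : ℝ))))) :=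
          mul_le_mul_of_nonneg_left h5 (by positivity)
      _ = 400000 * A ^ 2 * Real.exp (c * E1 ^ (91 / 48 : ℝ)) * a ^ (-(5 / 91) : ℝ) *
        Real.exp (-(c * (a * t ^ (91 / 36 : ℝ)))) := by ring
      _ ≤ _ := by
          apply mul_le_mul_of_nonneg_right _ (Real.exp_pos _).le
          apply mul_le_mul_of_nonneg_right _ hap.le
          have : 0 ≤ (1280000 * A ^ 2 + 200 * A) * (2 / c1) := by positivity
          linarith

end Pool.Agent.N952.CS
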