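import Pool.Agent.N952.CS.Sub
import Pool.Agent.W424.NC.Win
import Pool.Agent.H974R2.FinalFin

/-!
Finite clusters above the critical point: the parts of the upper bound.
-/

set_option autoImplicit false

namespace Pool.Agent.N952.CS
open Finset H974 Pool.Agent.H160R2.CV Pool.Agent.H160R2.CV.Quad Pool.Agent.Y244.PC

theorem edge_in_box {R : ℕ} {e : Edg} (h1 : nv (src e) < R) (h2 : nv (tgt e) < R) :
    e ∈ boxE R := by
  obtain ⟨x, y, b⟩ := e
  unfold nv at h1 h2
  unfold boxE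
  cases b
  · simp only [src_mk, tgt_false] at h1 h2
    rw [mem_RE_false]
    omega
  · simp only [src_mk, tgt_true] at h1 h2
    rw [mem_RE_true]
    omega

theorem reach_in_box {F : Finset Edg} {R : ℕ} (hF : ¬ Far (0, 0) R F) {u : Vtx}
    (h : Reach (↑F : Set Edg) (0, 0) u) : Reach (↑(F ∩ boxE R) : Set Edg) (0, 0) u := by
  have hlt : ∀ v, Reach (↑F : Set Edg) (0, 0) v → nv v < R := by
    intro v hv
    by_contra hc
    exact hF ⟨v, by rw [sub_zero']; omega, hv⟩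
  induction h with
  | refl => exact Reach.refl _ _
  | @tail v w h1 h2 ih =>
    refine ih.tail ?_
    have hv := hlt v h1
    have hw := hlt w (h1.tail h2)
    obtain ⟨e, he, hcase⟩ := h2
    refine ⟨e, ?_, hcase⟩
    rw [Finset.coe_inter]
    refine ⟨he, ?_⟩
    have : e ∈ boxE R := by
      rcases hcase with ⟨e1, e2⟩ | ⟨e1, e2⟩
      · exact edge_in_box (by rw [e1]; exact hv) (by rw [e2]; exact hw)
      · exact edge_in_box (by rw [e1]; exact hw) (by rw [e2]; exact hv)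
    exact_mod_cast this

theorem idx_bound {n L : ℕ} {a : ℤ} (h : |a| ≤ (2 * n + 1 : ℤ) * L + n) :
    |(a + n) / (2 * (n : ℤ) + 1)| ≤ L + 2 := by
  rw [abs_le] at h ⊢
  have hn : (0 : ℤ) ≤ n := by positivity
  have h1 := idx n a
  constructor
  · by_contra hc
    push Not at hc
    have h2 : (a + n) / (2 * (n : ℤ) + 1) ≤ -(L : ℤ) - 3 := by omega
    nlinarith
  · by_contra hc
    push Not at hc
    have h2 : (L : ℤ) + 3 ≤ (a + n) / (2 * (n : ℤ) + 1) := by omega
    nlinarith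

/-- clusters of intermediate diameter -/
theorem sup_mid {q A : ℝ} {n : ℕ} (h0 : 0 ≤ q) (h1 : q ≤ 1) (hAB : AB q A n) {L : ℕ} (hL : 3 ≤ L)
    {a : ℝ} (hLa : (L : ℝ) ^ 2 ≤ rate A n * a / 600) {S : Finset Edg}
    (hS : boxE ((2 * n + 1) * L) ⊆ S) :
    Pr (fun _ => q) S (fun F => VolAt a (0, 0) F ∧ Far (0, 0) (4 * n + 2) F ∧
      ¬ Far (0, 0) ((2 * n + 1) * L) F) ≤
      200 * A * ((n : ℝ) + 1) ^ (-(5 / 48) : ℝ) * Real.exp (-(rate A n * a / 36)) := by
  have ok := okq h0 h1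
  have hsc := sc_rate h0 h1 hAB
  obtain ⟨R, hR⟩ : ∃ R : ℕ, R = (2 * n + 1) * L := ⟨_, rfl⟩
  rw [← hR] at hS ⊢
  obtain ⟨E, hE⟩ : ∃ E : Finset Edg → Prop, E = fun F =>
    VolAt a (0, 0) (F ∩ boxE R) ∧ Far (0, 0) (4 * n + 2) (F ∩ boxE R) ∧
      ¬ Far (0, 0) R (F ∩ boxE R) := ⟨_, rfl⟩
  have hEloc : ∀ F, E F ↔ E (F ∩ boxE R) := by
    intro F
    rw [hE]
    simp only
    rw [Finset.inter_assoc, Finset.inter_self]
  have h2 : Pr (fun _ => q) S (fun F => VolAt a (0, 0) F ∧ Far (0, 0) (4 * n + 2) F ∧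
      ¬ Far (0, 0) R F) ≤ Pr (fun _ => q) (boxE R) E := by
    calc _ ≤ Pr (fun _ => q) S E := by
          apply Pr_mono ok
          rintro F _ ⟨⟨T, hT, hr⟩, ⟨w, hw, hrw⟩, hnf⟩
          rw [hE]
          refine ⟨⟨T, hT, fun u hu => reach_in_box hnf (hr u hu)⟩,
            ⟨w, hw, reach_in_box hnf hrw⟩, ?_⟩
          rintro ⟨v, hv, hrv⟩
          exact hnf ⟨v, hv, hrv.mono (by exact_mod_cast Finset.inter_subset_left)⟩
      _ = _ := Pr_local hS fun F _ => hEloc F
  refine h2.trans ?_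
  apply avg hsc (Real.exp_pos _) hEloc
    (G := fun F => a ≤ ∑ z ∈ bx (L + 2), YY n (bq n z) F)
  · intro x hx F hF hEF
    rw [hE] at hEF
    obtain ⟨⟨T, hT, hr⟩, ⟨w, hw, hrw⟩, hnf⟩ := hEF
    rw [sub_zero'] at hw
    have hxn : nv x ≤ n := by
      have := mem_bq.1 hx
      have e0 : cc n (0, 0) = 0 := by unfold cc; simp
      rwa [e0, sub_zero] at this
    have hlt : ∀ u ∈ T, nv u < R := by
      intro u hu
      by_contra hc
      exact hnf ⟨u, by rw [sub_zero']; omega, hr u hu⟩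
    have hr' : ∀ u ∈ T, Reach (↑F : Set Edg) x (u + x) := by
      intro u hu
      have h3 : Reach (↑(sh x F) : Set Edg) (0, 0) u :=
        (hr u hu).mono (by exact_mod_cast Finset.inter_subset_left)
      have h4 := sh_reach.mp h3
      rwa [show ((0, 0) : Vtx) + x = x by exact zero_add x] at h4
    have hrw' : Reach (↑F : Set Edg) x (w + x) := by
      have h3 : Reach (↑(sh x F) : Set Edg) (0, 0) w :=
        hrw.mono (by exact_mod_cast Finset.inter_subset_left)
      have h4 := sh_reach.mp h3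
      rwa [show ((0, 0) : Vtx) + x = x by exact zero_add x] at h4
    refine ⟨LA_of_reach (u := w + x) (by rw [add_sub_cancel_right]; omega) hrw', ?_⟩
    obtain ⟨T', hT'⟩ : ∃ T' : Finset Vtx, T' = T.map (addRightEmbedding x) := ⟨_, rfl⟩
    have hcard : (T'.card : ℝ) = T.card := by rw [hT', card_map]
    rw [← hcard] at hT
    refine hT.trans (count_blocks ?_ ?_)
    · intro u' hu'
      rw [hT', mem_map] at hu'
      obtain ⟨u, hu, rfl⟩ := hu'
      have e : addRightEmbedding x u = u + x := rfl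
      rw [e]
      rcases Nat.lt_or_ge (nv u) n with h3 | h3
      · have h4 := nv_tri w u 0
        rw [sub_zero, sub_zero] at h4
        have h5 : (w + x) - (u + x) = w - u := by abel
        exact LA_of_reach (u := w + x) (by rw [h5]; omega) ((hr' u hu).symm.trans hrw')
      · have h5 : x - (u + x) = 0 - u := by abel
        have h6 : nv (0 - u) = nv u := by rw [nvc, sub_zero]
        exact LA_of_reach (u := x) (by rw [h5, h6]; exact h3) (hr' u hu).symm
    · intro u' hu'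
      rw [hT', mem_map] at hu'
      obtain ⟨u, hu, rfl⟩ := hu'
      have e : addRightEmbedding x u = u + x := rfl
      rw [e, VolAux.mem_bx]
      have h3 := hlt u hu
      have h4 : nv (u + x) ≤ (2 * n + 1) * L + n := by
        have h5 := nv_tri (u + x) x 0
        rw [add_sub_cancel_right, sub_zero, sub_zero] at h5
        omega
      unfold nv at h4 ⊢
      have h7 := idx_bound (n := n) (L := L) (a := (u + x).1) (by
        have : ((u + x).1.natAbs : ℤ) ≤ (((2 * n + 1) * L + n : ℕ) : ℤ) := by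
          exact_mod_cast (le_max_left _ _).trans h4
        push_cast at this
        exact this)
      have h8 := idx_bound (n := n) (L := L) (a := (u + x).2) (by
        have : ((u + x).2.natAbs : ℤ) ≤ (((2 * n + 1) * L + n : ℕ) : ℤ) := by
          exact_mod_cast (le_max_right _ _).trans h4
        push_cast at this
        exact this)
      rw [abs_le] at h7 h8
      unfold bi
      simp only
      omega
  · obtain ⟨U, hU⟩ : ∃ U : Finset Edg, U = boxE (R + n) ∪
        (bx (L + 2)).biUnion (fun z => TT n z) := ⟨_, rfl⟩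
    have hSU : boxE (R + n) ⊆ U := by rw [hU]; exact subset_union_left
    have hTU : ∀ z ∈ bx (L + 2), TT n z ⊆ U := by
      intro z hz
      rw [hU]
      exact (subset_biUnion_of_mem (fun z => TT n z) hz).trans subset_union_right
    have h3 : Pr (fun _ => q) (boxE (R + n)) (fun F => a ≤ ∑ z ∈ bx (L + 2), YY n (bq n z) F) ≤
        Pr (fun _ => q) U (fun F => a ≤ ∑ z ∈ bx (L + 2), YY n (bq n z) F) := by
      apply Pr_mono_set ok hSU
      intro F G hFG _ hF
      exact hF.trans (Finset.sum_le_sum fun z _ => YY_mono hFG)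
    refine h3.trans ((all_sum hsc hTU a).trans ?_)
    have e : Real.exp (-(rate A n * a / 36)) ^ 2 = Real.exp (-(rate A n * a / 18)) := by
      rw [← Real.exp_nat_mul]; congr 1; push_cast; ring
    rw [e, mul_assoc]
    apply mul_le_mul_of_nonneg_left _ (by norm_num)
    have h4 : (2 : ℝ) ^ (bx (L + 2)).card ≤ Real.exp (16 * (L : ℝ) ^ 2) := by
      have h5 : (bx (L + 2)).card ≤ 16 * L ^ 2 := by
        rw [card_bx']
        have : 2 * (L + 2) + 1 ≤ 4 * L := by omega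
        calc (2 * (L + 2) + 1) ^ 2 ≤ (4 * L) ^ 2 := Nat.pow_le_pow_left this 2
          _ = 16 * L ^ 2 := by ring
      calc (2 : ℝ) ^ (bx (L + 2)).card ≤ (2 : ℝ) ^ (16 * L ^ 2) :=
            pow_le_pow_right₀ (by norm_num) h5
        _ ≤ (Real.exp 1) ^ (16 * L ^ 2) := by
            apply pow_le_pow_left₀ (by norm_num)
            linarith [Real.add_one_le_exp (1 : ℝ)]
        _ = Real.exp (16 * (L : ℝ) ^ 2) := by
            rw [← Real.exp_nat_mul]
            congr 1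
            push_cast
            ring
    calc Real.exp (-(rate A n * a / 9)) * 2 ^ (bx (L + 2)).card
        ≤ Real.exp (-(rate A n * a / 9)) * Real.exp (16 * (L : ℝ) ^ 2) :=
          mul_le_mul_of_nonneg_left h4 (Real.exp_pos _).le
      _ = Real.exp (-(rate A n * a / 9) + 16 * (L : ℝ) ^ 2) := by rw [Real.exp_add]
      _ ≤ _ := by
          apply Real.exp_le_exp.2
          have : 0 ≤ (L : ℝ) ^ 2 := by positivity
          linarith

/-- crossing probabilities above the critical point -/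
theorem eps_decay : ∃ c C : ℝ, 0 < c ∧ 0 < C ∧ ∀ q : ℝ, 1 / 2 ≤ q → q ≤ 1 → ∀ N : ℕ, 2 ≤ N →
    eps q N ≤ C * Real.exp (-(c * (N * (q - 1 / 2) ^ (4 / 3 : ℝ)))) := by
  obtain ⟨c, C, hc, hC, h⟩ := Pool.Agent.W424.NC.win_upper_dual 4 (by norm_num)
  have key : ∀ q : ℝ, 1 / 2 ≤ q → q ≤ 3 / 4 → ∀ N : ℕ, 2 ≤ N →
      eps q N ≤ C * Real.exp (-(c * (N * (q - 1 / 2) ^ (4 / 3 : ℝ)))) := by
    intro q h0 h1 N hN
    have h2 := h (1 - q) (by linarith) (by linarith) (2 * N) (N - 1) (by omega) (by omega)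
      (by omega) (by omega)
    unfold eps
    have e1 : (((2 * N : ℕ) : ℤ)) = 2 * (N : ℤ) := by push_cast; ring
    have e2 : (((N - 1 : ℕ) : ℤ)) = (N : ℤ) - 1 := by
      rw [Nat.cast_sub (by omega)]; norm_num
    have e3 : 1 - (1 - q) = q := by ring
    have e4 : 1 / 2 - (1 - q) = q - 1 / 2 := by ring
    rw [e1, e2, e3, e4] at h2
    refine h2.trans ?_
    apply mul_le_mul_of_nonneg_left _ hC.le
    apply Real.exp_le_exp.2
    rw [neg_le_neg_iff]
    apply mul_le_mul_of_nonneg_left _ hc.le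
    apply mul_le_mul_of_nonneg_right _ (Real.rpow_nonneg (by linarith) _)
    push_cast
    have : (0 : ℝ) ≤ N := by positivity
    linarith
  refine ⟨c / 4, C, by positivity, hC, fun q h0 h1 N hN => ?_⟩
  have hN0 : (0 : ℝ) ≤ N := by positivity
  rcases le_or_gt q (3 / 4) with hq | hq
  · refine (key q h0 hq N hN).trans ?_
    apply mul_le_mul_of_nonneg_left _ hC.le
    apply Real.exp_le_exp.2
    rw [neg_le_neg_iff]
    have : 0 ≤ (N : ℝ) * (q - 1 / 2) ^ (4 / 3 : ℝ) :=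
      mul_nonneg hN0 (Real.rpow_nonneg (by linarith) _)
    nlinarith
  · have h3 := key (3 / 4) (by norm_num) (le_refl _) N hN
    have h4 : eps q N ≤ eps (3 / 4) N := by
      unfold eps
      have := hh_mono_param (p := 3 / 4) (q := q) (by norm_num) hq.le h1 (2 * N) (N - 1)
      linarith
    refine h4.trans (h3.trans ?_)
    apply mul_le_mul_of_nonneg_left _ hC.le
    apply Real.exp_le_exp.2
    rw [neg_le_neg_iff]
    have h5 : (q - 1 / 2) ^ (4 / 3 : ℝ) ≤ 4 * (3 / 4 - 1 / 2 : ℝ) ^ (4 / 3 : ℝ) := by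
      have h6 : (q - 1 / 2) ≤ 2 * (3 / 4 - 1 / 2) := by linarith
      calc (q - 1 / 2) ^ (4 / 3 : ℝ) ≤ (2 * (3 / 4 - 1 / 2) : ℝ) ^ (4 / 3 : ℝ) :=
            Real.rpow_le_rpow (by linarith) h6 (by norm_num)
        _ = (2 : ℝ) ^ (4 / 3 : ℝ) * (3 / 4 - 1 / 2 : ℝ) ^ (4 / 3 : ℝ) :=
            Real.mul_rpow (by norm_num) (by norm_num)
        _ ≤ _ := by
            apply mul_le_mul_of_nonneg_right _ (Real.rpow_nonneg (by norm_num) _)
            calc (2 : ℝ) ^ (4 / 3 : ℝ) ≤ (2 : ℝ) ^ (2 : ℝ) :=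
                  Real.rpow_le_rpow_of_exponent_le (by norm_num) (by norm_num)
              _ = 4 := by norm_num
    have h6 : (N : ℝ) * (q - 1 / 2) ^ (4 / 3 : ℝ) ≤ N * (4 * (3 / 4 - 1 / 2 : ℝ) ^ (4 / 3 : ℝ)) :=
      mul_le_mul_of_nonneg_left h5 hN0
    nlinarith

/-- long finite clusters above the critical point -/
theorem sup_long : ∃ c C : ℝ, 0 < c ∧ 0 < C ∧ ∀ (q A : ℝ) (n : ℕ), 1 / 2 ≤ q → q ≤ 1 → AB q A n →
    ∀ N1 : ℕ, 2 ≤ N1 → 1 ≤ (N1 : ℝ) * (q - 1 / 2) ^ (4 / 3 : ℝ) → ∀ M : ℕ, ∃ M0 : ℕ,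
    ∀ S : Finset Edg, boxE M0 ⊆ S →
    Pr (fun _ => q) S (fun F => LA (0, 0) n F ∧ Far (0, 0) (2 * N1) F ∧ ¬ Far (0, 0) M F) ≤
      C * A * ((n : ℝ) + 1) ^ (-(5 / 48) : ℝ) *
        Real.exp (-(c * (N1 * (q - 1 / 2) ^ (4 / 3 : ℝ)))) := by
  obtain ⟨c, C, hc, hC, hdec⟩ := eps_decay
  have hec : Real.exp (-c) < 1 := by
    rw [← Real.exp_zero]
    exact Real.exp_lt_exp.2 (by linarith)
  refine ⟨c, 20 * C + C / (1 - Real.exp (-c)), hc,
    add_pos (by positivity) (div_pos hC (by linarith)), ?_⟩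
  intro q A n h0 h1 hAB N1 hN1 hN1t M
  have hq0 : 0 ≤ q := by linarith
  have ok := okq hq0 h1
  have hA := AB_one_le hAB
  obtain ⟨y, hy⟩ : ∃ y : ℝ, y = (N1 : ℝ) * (q - 1 / 2) ^ (4 / 3 : ℝ) := ⟨_, rfl⟩
  rw [← hy] at hN1t ⊢
  obtain ⟨J, hJ⟩ : ∃ J : ℕ, M ≤ 2 * (2 ^ J * N1) := by
    refine ⟨M, ?_⟩
    have h2 : M < 2 ^ M := Nat.lt_two_pow_self
    have h3 : 2 ^ M ≤ 2 ^ M * N1 := Nat.le_mul_of_pos_right _ (by omega)
    omega
  refine ⟨2 * (2 ^ J * N1), fun S hS => ?_⟩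
  obtain ⟨Z, hZ⟩ : ∃ Z : Finset Edg → Prop, Z = fun F => Circ N1 (2 * N1 : ℕ) F ∧
    ∀ j ≤ J, Step N1 j F := ⟨_, rfl⟩
  have hle : ∀ j ≤ J, 2 * (2 ^ j * N1) ≤ 2 * (2 ^ J * N1) := by
    intro j hj
    have : 2 ^ j ≤ 2 ^ J := Nat.pow_le_pow_right (by norm_num) hj
    have := Nat.mul_le_mul_right N1 this
    omega
  have hZinc : IncrE S Z := by
    intro F G hFG _ hF
    rw [hZ] at hF ⊢
    exact ⟨hF.1.mono hFG, fun j hj => (hF.2 j hj).mono hFG⟩
  have hgeo : ∀ F, Far (0, 0) (2 * N1) F → Z F → Far (0, 0) M F := by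
    intro F hF hZF
    rw [hZ] at hZF
    obtain ⟨w, hw, hr⟩ := hF
    rw [sub_zero'] at hw
    obtain ⟨w', k1, k2, k3⟩ := first_exit (a := -((2 * N1 : ℕ) : ℤ)) (b := ((2 * N1 : ℕ) : ℤ))
      (c := -((2 * N1 : ℕ) : ℤ)) (d := ((2 * N1 : ℕ) : ℤ)) (u := (0, 0)) (v := w)
      (by unfold inR; simp only; push_cast; omega) hr
      (by unfold nv at hw; push_cast; omega)
    obtain ⟨v, hv, hrv⟩ := arm_of_chain hN1 J (F := F) ⟨w', ⟨k1, k2⟩, k3⟩ hZF.1 hZF.2
    refine ⟨v, ?_, hrv.mono Set.inter_subset_left⟩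
    rw [sub_zero']
    unfold onB inR at hv
    unfold nv
    omega
  have h2 : Pr (fun _ => q) S (fun F => LA (0, 0) n F ∧ Far (0, 0) (2 * N1) F ∧
      ¬ Far (0, 0) M F) ≤ Pr (fun _ => q) S (fun F => LA (0, 0) n F ∧ ¬ Z F) :=
    Pr_mono ok fun F _ hF => ⟨hF.1, fun hZF => hF.2.2 (hgeo F hF.2.1 hZF)⟩
  have h3 : Pr (fun _ => q) S (fun F => LA (0, 0) n F ∧ ¬ Z F) ≤
      Pr (fun _ => q) S (LA (0, 0) n) * Pr (fun _ => q) S (fun F => ¬ Z F) :=
    Pr_harris_decr ok (fun F G h _ hF => LA_inc _ _ F G h hF)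
      (fun F G h hG hF => by
        simp only [not_not] at hF ⊢
        exact hZinc F G h hG hF)
  have h4 : Pr (fun _ => q) S (LA (0, 0) n) ≤ A * ((n : ℝ) + 1) ^ (-(5 / 48) : ℝ) :=
    (pr_LAq hq0 h1 S _ _).trans (hAB n (le_refl _))
  have h5 : Pr (fun _ => q) S (fun F => ¬ Z F) ≤
      (20 * C + C / (1 - Real.exp (-c))) * Real.exp (-(c * y)) := by
    have i1 : Pr (fun _ => q) S (fun F => ¬ Z F) ≤
        Pr (fun _ => q) S (fun F => ¬ Circ N1 (2 * N1 : ℕ) F ∨
          ∃ j ∈ range (J + 1), ¬ Step N1 j F) := by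
      apply Pr_mono ok
      intro F _ hF
      rw [hZ] at hF
      by_contra hcon
      push Not at hcon
      exact hF ⟨hcon.1, fun j hj => hcon.2 j (mem_range.2 (by omega))⟩
    have i2 := Pr_or_le ok S (fun F => ¬ Circ N1 (2 * N1 : ℕ) F)
      (fun F => ∃ j ∈ range (J + 1), ¬ Step N1 j F)
    have i3 := Pr_exists_le ok S (range (J + 1)) (fun j F => ¬ Step N1 j F)
    have i4 := pr_circ_ge hq0 h1 hN1 (S := S) ((boxE_mono (by
      have := hle 0 (Nat.zero_le _)
      simpa using this)).trans hS)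
    have i5 : Pr (fun _ => q) S (fun F => ¬ Circ N1 (2 * N1 : ℕ) F) ≤ 20 * eps q N1 := by
      rw [Pr_not]; linarith
    have i6 : ∀ j ∈ range (J + 1), Pr (fun _ => q) S (fun F => ¬ Step N1 j F) ≤
        C * Real.exp (-(c * y)) * Real.exp (-c) ^ j := by
      intro j hj
      rw [mem_range] at hj
      rw [Pr_not, pr_step ((boxE_mono (hle j (by omega))).trans hS)]
      have k1 : 2 ≤ 2 ^ j * N1 := by
        have : N1 ≤ 2 ^ j * N1 := Nat.le_mul_of_pos_left _ (by positivity)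
        omega
      have k2 := hdec q h0 h1 (2 ^ j * N1) k1
      have k3 : Real.exp (-(c * ((2 ^ j * N1 : ℕ) * (q - 1 / 2) ^ (4 / 3 : ℝ)))) ≤
          Real.exp (-(c * y)) * Real.exp (-c) ^ j := by
        rw [← Real.exp_nat_mul, ← Real.exp_add]
        apply Real.exp_le_exp.2
        have k4 : ((2 ^ j * N1 : ℕ) : ℝ) * (q - 1 / 2) ^ (4 / 3 : ℝ) = 2 ^ j * y := by
          rw [hy]; push_cast; ring
        rw [k4]
        have k5 : (j : ℝ) + 1 ≤ 2 ^ j := by
          have : j + 1 ≤ 2 ^ j := Nat.lt_two_pow_self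
          exact_mod_cast this
        have k6 : y + j ≤ 2 ^ j * y := by
          have hj0 : (0 : ℝ) ≤ j := by positivity
          nlinarith
        nlinarith
      calc 1 - (1 - eps q (2 ^ j * N1)) = eps q (2 ^ j * N1) := by ring
        _ ≤ _ := k2
        _ ≤ C * (Real.exp (-(c * y)) * Real.exp (-c) ^ j) := mul_le_mul_of_nonneg_left k3 hC.le
        _ = _ := by ring
    have i7 : ∑ j ∈ range (J + 1), Pr (fun _ => q) S (fun F => ¬ Step N1 j F) ≤
        C * Real.exp (-(c * y)) * (1 / (1 - Real.exp (-c))) := by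
      refine (Finset.sum_le_sum i6).trans ?_
      rw [← Finset.mul_sum]
      apply mul_le_mul_of_nonneg_left _ (by positivity)
      rw [one_div, ← tsum_geometric_of_lt_one (Real.exp_pos _).le hec]
      exact (summable_geometric_of_lt_one (Real.exp_pos _).le hec).sum_le_tsum _
        (fun _ _ => by positivity)
    have i8 := hdec q h0 h1 N1 hN1
    rw [← hy] at i8
    calc Pr (fun _ => q) S (fun F => ¬ Z F) ≤ 20 * eps q N1 +
          C * Real.exp (-(c * y)) * (1 / (1 - Real.exp (-c))) := by linarith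
      _ ≤ 20 * (C * Real.exp (-(c * y))) + C * Real.exp (-(c * y)) * (1 / (1 - Real.exp (-c))) := by
          linarith
      _ = _ := by ring
  calc _ ≤ _ := h2
    _ ≤ _ := h3
    _ ≤ A * ((n : ℝ) + 1) ^ (-(5 / 48) : ℝ) *
        ((20 * C + C / (1 - Real.exp (-c))) * Real.exp (-(c * y))) :=
        mul_le_mul h4 h5 (Pr_nonneg ok _ _) (by positivity)
    _ = _ := by ring

end Pool.Agent.N952.CS
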