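import Pool.Agent.N952.CS.Single

/-!
The number of far-reaching vertices of a box: lower bound.
-/

set_option autoImplicit false

namespace Pool.Agent.N952.CS
open Finset H974 Pool.Agent.H160R2.CV Pool.Agent.H160R2.CV.Quad Pool.Agent.Y244.PC

/-- the count event around `z` -/
def Cnt (z : Vtx) (v : ℝ) (r : ℕ) (F : Finset Edg) : Prop := v ≤ YY (4 * r) (bx r) (sh z F)

theorem pr_LA_eq {q : ℝ} {S : Finset Edg} {x : Vtx} {k : ℕ} (hS : bo x k ⊆ S) :
    Pr (fun _ => q) S (LA x k) = arm q k := by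
  have h1 : Pr (fun _ => q) S (LA x k) = Pr (fun _ => q) (bo x k) (LA x k) :=
    Pr_local hS fun F _ => LA_loc (le_refl _) F
  have h2 : Pr (fun _ => q) (bo x k) (LA x k) =
      Pr (fun _ => q) (bo x k) (fun F => LA (0, 0) k (sh x F)) := by
    apply Pr_congr
    intro F _
    constructor
    · intro h
      exact LA_of_far (le_refl _) (Far_sh.2 (far_of_LA h))
    · intro h
      exact LA_of_far (le_refl _) (Far_sh.1 (far_of_LA h))
  have h3 : Pr (fun _ => q) (bo x k) (fun F => LA (0, 0) k (sh x F)) =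
      Pr (fun _ => q) (sh x (bo x k)) (LA (0, 0) k) :=
    ((trl (-x.1) (-x.2)).pr q (bo x k) (LA (0, 0) k)).symm
  rw [h1, h2, h3, sh_bo, ← pr_Arm q (le_refl (boxE k))]
  apply Pr_congr
  intro F _
  unfold LA Arm onB bo boxE
  simp only [zero_sub, zero_add]
  constructor
  · rintro ⟨w, k1, k2, k3⟩
    exact ⟨w, ⟨k1, k2⟩, k3⟩
  · rintro ⟨w, ⟨k1, k2⟩, k3⟩
    exact ⟨w, k1, k2, k3⟩

theorem second_le {q A : ℝ} (h0 : 0 ≤ q) (h1 : q ≤ 1) {n r k : ℕ} (hAB : AB q A n) (hnr : n ≤ r)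
    (hrk : r ≤ k) (S : Finset Edg) :
    Ex (fun _ => q) S (fun F => YY k (bx r) F * YY k (bx r) F) ≤
      2 * (36 * A * (2 * (r : ℝ) + 1) ^ 2 * ((n : ℝ) + 1) ^ (-(5 / 48) : ℝ)) ^ 2 := by
  have ok := okq h0 h1
  have hA := AB_one_le hAB
  have h2 : Ex (fun _ => q) S (fun F => YY k (bx r) F * YY k (bx r) F) ≤
      Ex (fun _ => q) S (fun F => YY n (bx r) F * YY n (bx r) F) := by
    apply Ex_mono ok
    intro F _
    have h3 : YY k (bx r) F ≤ YY n (bx r) F :=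
      Finset.sum_le_sum fun x _ => ind_mono fun h => LA_anti (hnr.trans hrk) h
    exact mul_le_mul h3 h3 (YY_nonneg _ _ _) (YY_nonneg _ _ _)
  refine h2.trans ((Ex_YY2 h0 h1 hAB (bx r) S).trans ?_)
  apply mul_le_mul_of_nonneg_left _ (by norm_num)
  apply pow_le_pow_left₀ (DD_pos (by linarith) _ _).le
  unfold DD
  rw [card_bx']
  have hn0 : (0 : ℝ) ≤ n := by positivity
  have h3 : ((n : ℝ) + 1) ^ (91 / 48 : ℝ) =
      ((n : ℝ) + 1) ^ 2 * ((n : ℝ) + 1) ^ (-(5 / 48) : ℝ) := by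
    rw [← Real.rpow_natCast ((n : ℝ) + 1) 2, ← Real.rpow_add (by positivity)]
    norm_num
  have h4 : (0 : ℝ) < ((n : ℝ) + 1) ^ (-(5 / 48) : ℝ) := by positivity
  have hnr' : (n : ℝ) ≤ r := by exact_mod_cast hnr
  have h5 : ((n : ℝ) + 1) ^ 2 ≤ (2 * (r : ℝ) + 1) ^ 2 := by nlinarith
  rw [h3]
  push_cast
  have h6 : ((n : ℝ) + 1) ^ 2 * ((n : ℝ) + 1) ^ (-(5 / 48) : ℝ) ≤
      (2 * (r : ℝ) + 1) ^ 2 * ((n : ℝ) + 1) ^ (-(5 / 48) : ℝ) :=
    mul_le_mul_of_nonneg_right h5 h4.le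
  nlinarith

/-- many far-reaching vertices, with positive probability -/
theorem cnt_low {q A b : ℝ} (h0 : 0 ≤ q) (h1 : q ≤ 1) {n r : ℕ} (hAB : AB q A n) (hnr : n ≤ r)
    (hb : 0 < b) (harm : b * ((n : ℝ) + 1) ^ (-(5 / 48) : ℝ) ≤ arm q (4 * r))
    {S : Finset Edg} (hS : boxE (5 * r) ⊆ S) :
    b ^ 2 / (10368 * A ^ 2) ≤ Pr (fun _ => q) S (fun F =>
      b / 2 * ((2 * (r : ℝ) + 1) ^ 2 * ((n : ℝ) + 1) ^ (-(5 / 48) : ℝ)) ≤ YY (4 * r) (bx r) F) := by
  have ok := okq h0 h1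
  have hA := AB_one_le hAB
  obtain ⟨g, hg⟩ : ∃ g : ℝ, g = (2 * (r : ℝ) + 1) ^ 2 * ((n : ℝ) + 1) ^ (-(5 / 48) : ℝ) := ⟨_, rfl⟩
  have hg0 : 0 < g := by rw [hg]; positivity
  rw [← hg]
  obtain ⟨Y, hY⟩ : ∃ Y : Finset Edg → ℝ, Y = YY (4 * r) (bx r) := ⟨_, rfl⟩
  rw [← hY]
  have hEY : b * g ≤ Ex (fun _ => q) S Y := by
    have e : Ex (fun _ => q) S Y = ∑ x ∈ bx r, Pr (fun _ => q) S (LA x (4 * r)) := by
      rw [hY]
      unfold YY Pr
      rw [Ex_sum]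
    rw [e]
    have h2 : ∀ x ∈ bx r, Pr (fun _ => q) S (LA x (4 * r)) = arm q (4 * r) := by
      intro x hx
      apply pr_LA_eq
      refine Finset.Subset.trans ?_ hS
      rw [VolAux.mem_bx] at hx
      unfold nv at hx
      apply bo_sub_boxE <;> push_cast <;> omega
    rw [Finset.sum_congr rfl h2, Finset.sum_const, nsmul_eq_mul, card_bx']
    push_cast
    calc b * g = (2 * (r : ℝ) + 1) ^ 2 * (b * ((n : ℝ) + 1) ^ (-(5 / 48) : ℝ)) := by rw [hg]; ring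
      _ ≤ _ := mul_le_mul_of_nonneg_left harm (by positivity)
  have hEY2 : Ex (fun _ => q) S (fun F => Y F * Y F) ≤ 2 * (36 * A * g) ^ 2 := by
    rw [hY]
    refine (second_le h0 h1 hAB hnr (by omega) S).trans (le_of_eq ?_)
    rw [hg]; ring
  obtain ⟨D, hD⟩ : ∃ D : ℝ, D = 2 * (36 * A * g) ^ 2 := ⟨_, rfl⟩
  rw [← hD] at hEY2
  have hD0 : 0 < D := by rw [hD]; positivity
  obtain ⟨s, hs⟩ : ∃ s : ℝ, s = 2 * D / (b * g) := ⟨_, rfl⟩
  have hs0 : 0 < s := by rw [hs]; positivity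
  have hpt : ∀ F, Y F ≤ b / 2 * g + (1 / (2 * s) * (Y F * Y F) +
      s / 2 * ind (b / 2 * g ≤ Y F)) := by
    intro F
    by_cases hy : b / 2 * g ≤ Y F
    · rw [ind_of hy, mul_one]
      have h3 : 1 / (2 * s) * (Y F * Y F) + s / 2 - Y F = 1 / (2 * s) * (Y F - s) ^ 2 := by
        field_simp
        ring
      have h4 : 0 ≤ 1 / (2 * s) * (Y F - s) ^ 2 := by positivity
      have h5 : 0 ≤ b / 2 * g := by positivity
      linarith
    · rw [ind_not_of hy]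
      push Not at hy
      have h4 : 0 ≤ 1 / (2 * s) * (Y F * Y F) := mul_nonneg (by positivity) (mul_self_nonneg _)
      linarith
  have h6 : Ex (fun _ => q) S Y ≤ b / 2 * g + (1 / (2 * s) * Ex (fun _ => q) S
      (fun F => Y F * Y F) + s / 2 * Pr (fun _ => q) S (fun F => b / 2 * g ≤ Y F)) := by
    unfold Pr
    rw [← Ex_const (fun _ => q) S (b / 2 * g), ← Ex_mul_left, ← Ex_mul_left, ← Ex_add, ← Ex_add]
    exact Ex_mono ok fun F _ => by
      rw [Ex_const]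
      exact hpt F
  have h7 : 1 / (2 * s) * Ex (fun _ => q) S (fun F => Y F * Y F) ≤ b * g / 4 := by
    calc _ ≤ 1 / (2 * s) * D := mul_le_mul_of_nonneg_left hEY2 (by positivity)
      _ = b * g / 4 := by rw [hs]; field_simp; norm_num
  have h8 : b * g / 4 ≤ s / 2 * Pr (fun _ => q) S (fun F => b / 2 * g ≤ Y F) := by linarith
  have h9 : s / 2 * (b ^ 2 / (10368 * A ^ 2)) = b * g / 4 := by
    rw [hs, hD]; field_simp; norm_num
  rw [← h9] at h8
  exact le_of_mul_le_mul_left h8 (by positivity)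

theorem Cnt_incr (S : Finset Edg) (z : Vtx) (v : ℝ) (r : ℕ) : IncrE S (Cnt z v r) :=
  fun _ _ h _ hF => le_trans hF (YY_mono (sh_mono h))

theorem pr_Cnt {q v c : ℝ} {r : ℕ} (h : ∀ S : Finset Edg,
    boxE (5 * r) ⊆ S → c ≤ Pr (fun _ => q) S (fun F => v ≤ YY (4 * r) (bx r) F))
    {z : Vtx} {S : Finset Edg} (hS : bo z (5 * r) ⊆ S) : c ≤ Pr (fun _ => q) S (Cnt z v r) := by
  have e : Pr (fun _ => q) S (Cnt z v r) = Pr (fun _ => q) (sh z S)
      (fun F => v ≤ YY (4 * r) (bx r) F) :=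
    ((trl (-z.1) (-z.2)).pr q S (fun F => v ≤ YY (4 * r) (bx r) F)).symm
  rw [e]
  apply h
  rw [← sh_bo z (5 * r)]
  exact sh_mono hS

/-- the vertices produced by the count event -/
theorem Cnt_set {z : Vtx} {v : ℝ} {r : ℕ} {F : Finset Edg} (h : Cnt z v r F) :
    ∃ T : Finset Vtx, v ≤ (T.card : ℝ) ∧ ∀ u ∈ T, nv (u - z) ≤ r ∧ Far u (4 * r) F := by
  classical
  refine ⟨((bx r).filter fun x => LA x (4 * r) (sh z F)).map (addRightEmbedding z), ?_, ?_⟩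
  · rw [card_map]
    refine le_trans h (le_of_eq ?_)
    unfold YY
    have e : ∀ x ∈ bx r, ind (LA x (4 * r) (sh z F)) =
        if LA x (4 * r) (sh z F) then (1 : ℝ) else 0 := by
      intro x _
      split_ifs with hx
      · exact ind_of hx
      · exact ind_not_of hx
    rw [Finset.sum_congr rfl e, Finset.sum_boole]
  · intro u hu
    rw [mem_map] at hu
    obtain ⟨w, hw, rfl⟩ := hu
    rw [mem_filter, VolAux.mem_bx] at hw
    have e : addRightEmbedding z w = w + z := rfl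
    rw [e, add_sub_cancel_right]
    refine ⟨hw.1, ?_⟩
    obtain ⟨y, hy, hr⟩ := far_of_LA hw.2
    refine ⟨y + z, ?_, ?_⟩
    · rw [add_sub_add_right_eq_sub]; exact hy
    · exact sh_reach.mp hr

end Pool.Agent.N952.CS
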